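import Pool.Agent.H64.BR.Stm

set_option autoImplicit false

namespace Pool.Agent.H64.BR

open Metric Set Filter Topology

/-- uniqueness of the coefficients of a power series in the unit disc -/
theorem ser_unique {a b : ℕ → ℂ} {f : ℂ → ℂ}
    (ha : ∀ z ∈ ball (0 : ℂ) 1, HasSum (fun n : ℕ => a n * z ^ n) (f z))
    (hb : ∀ z ∈ ball (0 : ℂ) 1, HasSum (fun n : ℕ => b n * z ^ n) (f z)) : a = b := by
  have key : ∀ {a : ℕ → ℂ}, (∀ z ∈ ball (0 : ℂ) 1, HasSum (fun n : ℕ => a n * z ^ n) (f z)) →
      HasFPowerSeriesAt f (FormalMultilinearSeries.ofScalars ℂ a) 0 := by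
    intro a ha
    rw [hasFPowerSeriesAt_iff]
    filter_upwards [ball_mem_nhds (0 : ℂ) one_pos] with z hz
    have h := ha z hz
    rw [zero_add]
    simpa [FormalMultilinearSeries.coeff_ofScalars, smul_eq_mul, mul_comm] using h
  have h := (key ha).eq_formalMultilinearSeries (key hb)
  funext n
  have h1 := congrArg (fun p : FormalMultilinearSeries ℂ ℂ ℂ => p.coeff n) h
  simpa [FormalMultilinearSeries.coeff_ofScalars] using h1

theorem ser : S_SER := by
  intro F C c ζ hF hζ hζ0 hc hC0 hrec
  set A : ℂ → ℂ := fun z => F ζ + z * dslope F ζ z with hA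
  have hAd : DifferentiableOn ℂ A (ball 0 1) := by
    have h1 : DifferentiableOn ℂ (dslope F ζ) (ball 0 1) :=
      (Complex.differentiableOn_dslope (isOpen_ball.mem_nhds hζ)).2 hF
    exact (differentiableOn_const _).add (differentiableOn_id.mul h1)
  have hAi : ∀ z, (ζ - z) * A z = ζ * F ζ - z * F z := by
    intro z
    have h1 : (z - ζ) * dslope F ζ z = F z - F ζ := by
      have := sub_smul_dslope F ζ z
      simpa [smul_eq_mul] using this
    simp only [hA]
    linear_combination (-z) * h1
  -- Taylor coefficients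
  obtain ⟨a, ha⟩ : ∃ a : ℕ → ℂ, ∀ z ∈ ball (0 : ℂ) 1, HasSum (fun n : ℕ => a n * z ^ n) (A z) := by
    refine ⟨fun n => (n.factorial : ℂ)⁻¹ * iteratedDeriv n A 0, fun z hz => ?_⟩
    have h := Complex.hasSum_taylorSeries_on_ball (r := 1) (by simpa using hAd)
      (by simpa using hz : z ∈ ball (0 : ℂ) ((1 : NNReal) : ℝ))
    have e1 : (fun n : ℕ => (n.factorial : ℂ)⁻¹ * iteratedDeriv n A 0 * z ^ n) =
        fun n : ℕ => (n.factorial : ℂ)⁻¹ • (z - 0) ^ n • iteratedDeriv n A 0 := by
      funext n
      simp only [sub_zero, smul_eq_mul]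
      ring
    rw [e1]
    exact h
  set e : ℕ → ℂ := fun n => Nat.casesOn n (ζ * a 0) (fun n => ζ * a (n + 1) - a n + c n) with he
  have he0 : e 0 = ζ * a 0 := rfl
  have hes : ∀ n, e (n + 1) = ζ * a (n + 1) - a n + c n := fun n => rfl
  set d : ℕ → ℂ := fun n => if n = 0 then ζ * F ζ else 0 with hd
  have hed : e = d := by
    refine ser_unique (f := fun _ => ζ * F ζ) (fun z hz => ?_) (fun z hz => ?_)
    · rw [← hasSum_nat_add_iff' 1]
      have h1 : HasSum (fun n : ℕ => a (n + 1) * z ^ (n + 1)) (A z - a 0) := by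
        have := (hasSum_nat_add_iff' 1).2 (ha z hz)
        simpa using this
      have h2 := (h1.mul_left ζ).sub ((ha z hz).mul_left z) |>.add ((hc z hz).mul_left z)
      convert h2 using 1
      · funext n
        rw [hes]
        ring
      · have := hAi z
        simp only [Finset.range_one, Finset.sum_singleton, he0, pow_zero, mul_one]
        linear_combination (-1 : ℂ) * this
    · have h1 := hasSum_single (f := fun n : ℕ => d n * z ^ n) 0 (fun n hn => by simp [hd, hn])
      simpa [hd] using h1
  have ha0 : a 0 = F ζ := by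
    have h1 := congrFun hed 0
    rw [he0] at h1
    simp only [hd, if_true] at h1
    exact mul_left_cancel₀ hζ0 h1
  have har : ∀ n, ζ * a (n + 1) = a n - c n := by
    intro n
    have h1 := congrFun hed (n + 1)
    rw [hes] at h1
    simp only [hd, Nat.succ_ne_zero, if_false] at h1
    linear_combination h1
  have haC : a = C := by
    funext n
    induction n with
    | zero => rw [ha0, hC0]
    | succ n ih => exact mul_left_cancel₀ hζ0 (by rw [har, hrec, ih])
  rw [← haC]
  exact ha

end Pool.Agent.H64.BR
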