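import Pool.Agent.H64.BR.StmA
import Pool.Agent.H64.BR.SER

set_option autoImplicit false

/-! # BR-AREA: the area inequality for `1 / (ψ(1/z) - ψ(1/ζ))` -/

namespace Pool.Agent.H64.BR

open Metric Set Filter Topology MeasureTheory
open Pool.Agent.W677.Mar Pool.Agent.W5h41.MA
open Pool.Agent.H33R3.Bom (J)

/-- negative Laurent coefficients of `g / (1 - ζ / z)` -/
noncomputable def dea (g ζ : ℂ) (k : ℕ) : ℂ := if k = 0 then 0 else g * ζ ^ k

theorem dea_norm_le (g ζ : ℂ) (k : ℕ) : ‖dea g ζ k‖ ≤ ‖g‖ * ‖ζ‖ ^ k := by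
  unfold dea
  split_ifs with h
  · rw [norm_zero]; positivity
  · rw [norm_mul, norm_pow]

theorem dea_hasSum (g : ℂ) {ζ z : ℂ} (h : ‖ζ‖ < ‖z‖) :
    HasSum (fun k : ℕ => dea g ζ k * (z⁻¹) ^ k) (g * (1 - ζ * z⁻¹)⁻¹ - g) := by
  have hz : 0 < ‖z‖ := (norm_nonneg _).trans_lt h
  have hx : ‖ζ * z⁻¹‖ < 1 := by
    rw [norm_mul, norm_inv, ← div_eq_mul_inv, div_lt_one hz]; exact h
  have h1 := (hasSum_geometric_of_norm_lt_one hx).mul_left g
  have h2 : HasSum (fun k : ℕ => if k = 0 then g else 0) g := by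
    have := hasSum_ite_eq (0 : ℕ) g
    simpa using this
  refine (h1.sub h2).congr_fun ?_ |> fun h => h
  intro k
  unfold dea
  rcases Nat.eq_zero_or_pos k with hk | hk
  · subst hk
    simp
  · rw [if_neg hk.ne', if_neg hk.ne', mul_pow]
    ring

theorem area : S_AREA := by
  intro Y H f S L ζ hζ hζ0 C c hc hC0 hrec N
  have hn : ‖ζ‖ < 1 := mem_ball_zero_iff.1 hζ
  have hp : 0 < ‖ζ‖ := norm_pos_iff.2 hζ0
  set F : ℂ → ℂ := fun z => Complex.exp (-f (ζ, z)) with hF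
  have hFd : DifferentiableOn ℂ F (ball 0 1) := (L.diff2 S.G.diff hζ).neg.cexp
  have hs := ser F C c ζ hFd hζ hζ0 hc hC0 hrec
  set A : ℂ → ℂ := fun z => F ζ + z * dslope F ζ z with hA
  set g : ℂ := C 0 with hg
  -- the closed form on the annulus
  have hcl : ∀ z : ℂ, ‖ζ‖ < ‖z‖ → ‖z‖ < 1 →
      A z + ∑' k : ℕ, dea g ζ k * (z⁻¹) ^ k = Complex.exp (-1 * ell f ζ z) := by
    intro z hz1 hz2
    have hz0 : z ≠ 0 := norm_pos_iff.1 ((norm_nonneg _).trans_lt hz1)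
    have hne : z - ζ ≠ 0 := by
      intro h
      rw [sub_eq_zero] at h
      rw [h] at hz1
      exact lt_irrefl _ hz1
    have h1 : (1 : ℂ) - ζ * z⁻¹ ≠ 0 := Complex.slitPlane_ne_zero (slit hz1)
    rw [(dea_hasSum g hz1).tsum_eq]
    have h2 : (z - ζ) * dslope F ζ z = F z - F ζ := by
      have := sub_smul_dslope F ζ z
      simpa [smul_eq_mul] using this
    have h3 : Complex.exp (-1 * ell f ζ z) = F z * (1 - ζ * z⁻¹)⁻¹ := by
      unfold ell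
      rw [neg_one_mul, neg_add, Complex.exp_add, Complex.exp_neg (Complex.log _),
        Complex.exp_log h1]
    have h4 : (1 - ζ * z⁻¹)⁻¹ = z / (z - ζ) := by
      rw [inv_eq_one_div, div_eq_div_iff h1 hne]
      field_simp
    rw [h3, h4, hA]
    simp only
    have h5 : F z = (z - ζ) * dslope F ζ z + F ζ := by rw [h2]; ring
    rw [h5, hC0]
    field_simp
    ring
  have key : ∀ R : ℝ, ‖ζ‖ < R → R < 1 →
      ∑ k ∈ Finset.range N, (k : ℝ) * ‖C k‖ ^ 2 * R ^ (2 * k) ≤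
      ‖g‖ ^ 2 * ((‖ζ‖ / R) ^ 2 / (1 - (‖ζ‖ / R) ^ 2) ^ 2) := by
    intro R hR hR1
    have hR0 : 0 < R := hp.trans hR
    obtain ⟨g1, g2, g3⟩ := Pool.Agent.H643R3.BomC4.taskC4 R ‖ζ‖ ‖g‖ C (dea g ζ) A hp hR hR1
      (by simp [dea]) hs (dea_norm_le g ζ)
    have g4 := area_pow S L hR1 hζ0 hR (-1)
    have hnc : ∀ t : ℝ, ‖circleMap 0 R t‖ = R := fun t => by simp [abs_of_pos hR0]
    have hAo : IsOpen {z : ℂ | ‖ζ‖ < ‖z‖ ∧ ‖z‖ < 1} :=
      (isOpen_lt continuous_const continuous_norm).inter (isOpen_lt continuous_norm continuous_const)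
    have hJ : J R (fun z => A z + ∑' k : ℕ, dea g ζ k * (z⁻¹) ^ k)
        (deriv fun z => A z + ∑' k : ℕ, dea g ζ k * (z⁻¹) ^ k) =
        J R (fun z => Complex.exp (-1 * ell f ζ z))
          (deriv fun z => Complex.exp (-1 * ell f ζ z)) := by
      unfold J
      congr 1
      apply intervalIntegral.integral_congr
      intro t _
      have hm : ‖ζ‖ < ‖circleMap 0 R t‖ ∧ ‖circleMap 0 R t‖ < 1 := by
        rw [hnc]; exact ⟨hR, hR1⟩
      have hev : (fun z => A z + ∑' k : ℕ, dea g ζ k * (z⁻¹) ^ k) =ᶠ[𝓝 (circleMap 0 R t)]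
          fun z => Complex.exp (-1 * ell f ζ z) := by
        filter_upwards [hAo.mem_nhds hm] with z hz using hcl z hz.1 hz.2
      show (starRingEnd ℂ) (A (circleMap 0 R t) + ∑' k : ℕ, dea g ζ k * ((circleMap 0 R t)⁻¹) ^ k) *
          (circleMap 0 R t * deriv (fun z => A z + ∑' k : ℕ, dea g ζ k * (z⁻¹) ^ k)
            (circleMap 0 R t)) = _
      rw [hev.deriv_eq, hcl _ hm.1 hm.2]
    rw [← hJ, g3] at g4
    have hpi : 0 < 2 * Real.pi := by positivity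
    have g5 : ∑' k : ℕ, (k : ℝ) * ‖C k‖ ^ 2 * R ^ (2 * k) ≤
        ∑' k : ℕ, (k : ℝ) * ‖dea g ζ k‖ ^ 2 * (R⁻¹) ^ (2 * k) := by
      by_contra hcon
      push Not at hcon
      have := mul_pos hpi (sub_pos.2 hcon)
      linarith
    have g6 : ∑' k : ℕ, (k : ℝ) * ‖dea g ζ k‖ ^ 2 * (R⁻¹) ^ (2 * k) =
        ‖g‖ ^ 2 * ((‖ζ‖ / R) ^ 2 / (1 - (‖ζ‖ / R) ^ 2) ^ 2) := by
      have hx1 : ‖(‖ζ‖ / R) ^ 2‖ < 1 := by
        rw [Real.norm_of_nonneg (by positivity)]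
        apply pow_lt_one₀ (by positivity) _ two_ne_zero
        rw [div_lt_one hR0]
        exact hR
      refine HasSum.tsum_eq (((hasSum_coe_mul_geometric_of_norm_lt_one hx1).mul_left
        (‖g‖ ^ 2)).congr_fun ?_ |> fun h => h)
      intro k
      unfold dea
      rcases Nat.eq_zero_or_pos k with h | h
      · subst h; simp
      · rw [if_neg h.ne', norm_mul, norm_pow, mul_pow, ← pow_mul, ← pow_mul, div_pow, inv_pow,
          mul_comm k 2]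
        ring
    rw [g6] at g5
    exact (g1.sum_le_tsum _ (fun k _ => by positivity)).trans g5
  have hL : Tendsto (fun R : ℝ => ∑ k ∈ Finset.range N, (k : ℝ) * ‖C k‖ ^ 2 * R ^ (2 * k))
      (𝓝[<] 1) (𝓝 (∑ k ∈ Finset.range N, (k : ℝ) * ‖C k‖ ^ 2)) := by
    have hcont : Continuous (fun R : ℝ => ∑ k ∈ Finset.range N, (k : ℝ) * ‖C k‖ ^ 2 *
        R ^ (2 * k)) := by fun_prop
    have := (hcont.tendsto 1).mono_left (nhdsWithin_le_nhds (s := Iio 1))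
    simpa using this
  have hRt : Tendsto (fun R : ℝ => ‖g‖ ^ 2 * ((‖ζ‖ / R) ^ 2 / (1 - (‖ζ‖ / R) ^ 2) ^ 2)) (𝓝[<] 1)
      (𝓝 (‖g‖ ^ 2 * (‖ζ‖ ^ 2 / (1 - ‖ζ‖ ^ 2) ^ 2))) := by
    have hc1 : ContinuousAt (fun R : ℝ => ‖g‖ ^ 2 * ((‖ζ‖ / R) ^ 2 / (1 - (‖ζ‖ / R) ^ 2) ^ 2)) 1 := by
      have c0 : ContinuousAt (fun R : ℝ => (‖ζ‖ / R) ^ 2) 1 :=
        (continuousAt_const.div continuousAt_id one_ne_zero).pow 2
      refine continuousAt_const.mul (c0.div ((continuousAt_const.sub c0).pow 2) ?_)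
      have : ‖ζ‖ ^ 2 < 1 := pow_lt_one₀ hp.le hn two_ne_zero
      rw [div_one]
      have h3 : 0 < 1 - ‖ζ‖ ^ 2 := by linarith
      positivity
    have := hc1.tendsto.mono_left (nhdsWithin_le_nhds (s := Iio 1))
    simpa using this
  refine le_of_tendsto_of_tendsto hL hRt ?_
  have hIoo : Ioo ‖ζ‖ 1 ∈ 𝓝[<] (1 : ℝ) := Ioo_mem_nhdsLT hn
  filter_upwards [hIoo] with R hR
  exact key R hR.1 hR.2

end Pool.Agent.H64.BR
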