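import Pool.Agent.H64.G.R_seed8.Helper240.ZFM.AreaA

set_option autoImplicit false

/-! # Parseval on a circle (helper33) -/

namespace Pool.Agent.H64.BR

open Metric Set Filter Topology MeasureTheory

theorem circ_cont {h : ℂ → ℂ} {b : ℕ → ℂ} {r : ℝ} (hr : 0 ≤ r)
    (hs : ∀ z : ℂ, ‖z‖ = r → HasSum (fun j => b j * z ^ j) (h z)) :
    Continuous fun t : ℝ => h (circleMap 0 r t) := by
  have hc : ∀ θ, ‖circleMap 0 r θ‖ = r := fun θ => by simp [abs_of_nonneg hr]
  have hsum : Summable fun j => ‖b j‖ * r ^ j := by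
    have h1 := (hs (r : ℂ) (by rw [Complex.norm_real, Real.norm_of_nonneg hr])).summable.norm
    refine h1.congr fun j => ?_
    rw [norm_mul, norm_pow, Complex.norm_real, Real.norm_of_nonneg hr]
  have h2 : (fun θ => h (circleMap 0 r θ)) = fun θ => ∑' j, b j * circleMap 0 r θ ^ j := by
    ext θ
    exact (hs _ (hc θ)).tsum_eq.symm
  rw [h2]
  apply continuous_tsum (fun j => ?_) hsum (fun j θ => ?_)
  · exact continuous_const.mul ((continuous_circleMap 0 r).pow j)
  · rw [norm_mul, norm_pow, hc]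

/-- Parseval -/
theorem parsN {h : ℂ → ℂ} {b : ℕ → ℂ} {r : ℝ} (hr : 0 ≤ r)
    (hs : ∀ z : ℂ, ‖z‖ = r → HasSum (fun j => b j * z ^ j) (h z)) :
    HasSum (fun j => (r ^ 2) ^ j * ‖b j‖ ^ 2)
      ((2 * Real.pi)⁻¹ * ∫ t in (0:ℝ)..(2 * Real.pi), ‖h (circleMap 0 r t)‖ ^ 2) := by
  have hsum : Summable fun j => ‖b j‖ * r ^ j := by
    have h1 := (hs (r : ℂ) (by rw [Complex.norm_real, Real.norm_of_nonneg hr])).summable.norm
    refine h1.congr fun j => ?_
    rw [norm_mul, norm_pow, Complex.norm_real, Real.norm_of_nonneg hr]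
  have p0 := Complex.hasSum_re (Pool.Agent.Helper405.Area.parseval hr hsum hsum hs hs)
  have e0 : ∀ j : ℕ, ((starRingEnd ℂ) (b j) * b j * ((r ^ (2 * j) : ℝ) : ℂ)).re =
      (r ^ 2) ^ j * ‖b j‖ ^ 2 := by
    intro j
    rw [← Complex.normSq_eq_conj_mul_self, ← Complex.ofReal_mul, Complex.ofReal_re,
      Complex.normSq_eq_norm_sq, pow_mul]
    ring
  simp only [e0] at p0
  rw [show (2 * Real.pi : ℂ)⁻¹ = (((2 * Real.pi)⁻¹ : ℝ) : ℂ) by push_cast; ring,
    Complex.re_ofReal_mul] at p0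
  have hcont := circ_cont hr hs
  have hc2 : Continuous fun t : ℝ => (starRingEnd ℂ) (h (circleMap 0 r t)) *
      h (circleMap 0 r t) := (Complex.continuous_conj.comp hcont).mul hcont
  have hc3 : IntervalIntegrable (fun t : ℝ => (starRingEnd ℂ) (h (circleMap 0 r t)) *
      h (circleMap 0 r t)) volume 0 (2 * Real.pi) := hc2.intervalIntegrable _ _
  have h1 := Complex.reCLM.intervalIntegral_comp_comm hc3
  have h2 : (∫ t in (0:ℝ)..(2 * Real.pi), (starRingEnd ℂ) (h (circleMap 0 r t)) *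
        h (circleMap 0 r t)).re = ∫ t in (0:ℝ)..(2 * Real.pi), ‖h (circleMap 0 r t)‖ ^ 2 := by
    refine h1.symm.trans ?_
    apply intervalIntegral.integral_congr
    intro t _
    show ((starRingEnd ℂ) (h (circleMap 0 r t)) * h (circleMap 0 r t)).re =
      ‖h (circleMap 0 r t)‖ ^ 2
    rw [← Complex.normSq_eq_conj_mul_self, Complex.ofReal_re, Complex.normSq_eq_norm_sq]
  rw [h2] at p0
  exact p0

end Pool.Agent.H64.BR
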