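import Pool.Agent.H64.BR.Stm
import Pool.Agent.H64.BR.Pars33

set_option autoImplicit false

namespace Pool.Agent.H64.BR

open Metric Set Filter Topology MeasureTheory

theorem avg : S_AVG := by
  intro T C hC hineq x hx
  set r : ℝ := Real.sqrt x with hr
  have hr0 : 0 < r := Real.sqrt_pos.2 hx.1
  have hr2 : r ^ 2 = x := Real.sq_sqrt hx.1.le
  have hr1 : r < 1 := by
    have := hx.2
    nlinarith
  have hcirc : ∀ t : ℝ, ‖circleMap 0 r t‖ = r := fun t => by simp [abs_of_pos hr0]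
  have hs : ∀ n : ℕ, ∀ z : ℂ, ‖z‖ = r → HasSum (fun j : ℕ => T n (n + j) * z ^ j) (C n z) :=
    fun n z hz => hC n z (by rw [mem_ball_zero_iff, hz]; exact hr1)
  have P : ∀ n : ℕ, HasSum (fun j => x ^ j * ‖T n (n + j)‖ ^ 2)
      ((2 * Real.pi)⁻¹ * ∫ t in (0:ℝ)..(2 * Real.pi), ‖C n (circleMap 0 r t)‖ ^ 2) := by
    intro n
    have := parsN hr0.le (hs n)
    rwa [hr2] at this
  have hcont : ∀ n : ℕ, Continuous fun t : ℝ => C n (circleMap 0 r t) := fun n =>
    circ_cont hr0.le (hs n)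
  have P0 : HasSum (fun m => x ^ m * ‖T 0 m‖ ^ 2)
      ((2 * Real.pi)⁻¹ * ∫ t in (0:ℝ)..(2 * Real.pi), ‖C 0 (circleMap 0 r t)‖ ^ 2) := by
    have := P 0
    simpa using this
  refine ⟨P0.summable, fun N Q => ?_⟩
  rw [P0.tsum_eq]
  have hπ : 0 < (2 * Real.pi)⁻¹ := by positivity
  have h1 : ∫ t in (0:ℝ)..(2 * Real.pi), ∑ n ∈ Finset.range N, (n : ℝ) *
        ‖C n (circleMap 0 r t)‖ ^ 2 ≤
      ∫ t in (0:ℝ)..(2 * Real.pi), x / (1 - x) ^ 2 * ‖C 0 (circleMap 0 r t)‖ ^ 2 := by
    apply intervalIntegral.integral_mono_on (by positivity)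
    · apply Continuous.intervalIntegrable
      apply continuous_finsetSum
      intro n _
      exact continuous_const.mul ((hcont n).norm.pow 2)
    · apply Continuous.intervalIntegrable
      exact continuous_const.mul ((hcont 0).norm.pow 2)
    · intro t _
      have hne : circleMap 0 r t ≠ 0 := by
        rw [← norm_ne_zero_iff, hcirc]; exact hr0.ne'
      have h2 := hineq (circleMap 0 r t) (by rw [mem_ball_zero_iff, hcirc]; exact hr1) hne N
      rw [hcirc, hr2] at h2
      rw [mul_comm]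
      exact h2
  rw [intervalIntegral.integral_finsetSum, intervalIntegral.integral_const_mul] at h1
  · have h2 := mul_le_mul_of_nonneg_left h1 hπ.le
    calc ∑ n ∈ Finset.range N, (n : ℝ) * ∑ p ∈ Finset.range Q, x ^ p * ‖T n (n + p)‖ ^ 2
        ≤ ∑ n ∈ Finset.range N, (n : ℝ) * ((2 * Real.pi)⁻¹ *
          ∫ t in (0:ℝ)..(2 * Real.pi), ‖C n (circleMap 0 r t)‖ ^ 2) := by
          refine Finset.sum_le_sum fun n _ => mul_le_mul_of_nonneg_left ?_ (Nat.cast_nonneg n)
          exact sum_le_hasSum _ (fun m _ => mul_nonneg (pow_nonneg hx.1.le m) (sq_nonneg _)) (P n)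
      _ = (2 * Real.pi)⁻¹ * ∑ n ∈ Finset.range N,
          ∫ t in (0:ℝ)..(2 * Real.pi), (n : ℝ) * ‖C n (circleMap 0 r t)‖ ^ 2 := by
          rw [Finset.mul_sum]
          refine Finset.sum_congr rfl fun n _ => ?_
          rw [intervalIntegral.integral_const_mul]
          ring
      _ ≤ _ := h2
      _ = _ := by ring
  · intro n _
    apply Continuous.intervalIntegrable
    exact continuous_const.mul ((hcont n).norm.pow 2)

end Pool.Agent.H64.BR
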