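import Pool.Agent.H64.BR.StmA

set_option autoImplicit false

/-! # Assembly: the bound in the disc -/

namespace Pool.Agent.H64.BR

open Metric Set Filter Topology MeasureTheory
open Pool.Agent.W677.Mar Pool.Agent.W5h41.MA

/-- The inequality for the coefficients of one map. -/
theorem exists_T (dps : S_DPS) (fs : S_FS) (sym : S_SYM) (avg : S_AVG) (area : S_AREA)
    {Y H : ℂ → ℂ} (S : Sg Y H) :
    ∃ T : ℕ → ℕ → ℂ, (∀ n m : ℕ, 1 ≤ n → n ≤ m → T n m + T (m + 1 - n) m = T 0 m) ∧ Ineq T ∧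
      ∀ z ∈ ball (0 : ℂ) 1, HasSum (fun m : ℕ => T 0 m * z ^ m) (Complex.exp (-H z)) := by
  classical
  obtain ⟨f, L⟩ := exists_Lg S
  have hd : DifferentiableOn ℂ (fun p : ℂ × ℂ => Complex.exp (-f p))
      (ball (0 : ℂ) 1 ×ˢ ball (0 : ℂ) 1) := (f_joint S L).neg.cexp
  obtain ⟨ν, hν1, hν2⟩ := dps (fun p : ℂ × ℂ => Complex.exp (-f p)) hd (fun ζ hζ z hz => by
    show Complex.exp (-f (ζ, z)) = Complex.exp (-f (z, ζ))
    rw [L.symm hζ hz])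
  choose! C c hC using fs ν (fun p : ℂ × ℂ => Complex.exp (-f p)) hν2
  have hdiag : ∀ z ∈ ball (0 : ℂ) 1, C z 0 = Complex.exp (-H z) := fun z hz => by
    rw [(hC z hz).2.2.1, L.diag S hz]
  refine ⟨TT ν, sym ν hν1, avg (TT ν) (fun n ζ => C ζ n) (fun n ζ hζ => (hC ζ hζ).1 n) ?_, ?_⟩
  · intro ζ hζ hζ0 N
    exact area Y H f S L ζ hζ hζ0 (C ζ) (c ζ) (hC ζ hζ).2.1 (hC ζ hζ).2.2.1 (hC ζ hζ).2.2.2 N
  · intro z hz
    have h1 := (hC z hz).1 0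
    rw [hdiag z hz] at h1
    simpa using h1

/-- The bound in the disc. -/
theorem all (dps : S_DPS) (fs : S_FS) (sym : S_SYM) (avg : S_AVG) (area : S_AREA)
    (bm : S_BM) (core : S_CORE) (mean : S_MEAN) : S_ALL := by
  intro σ hσ0 hσ2 hcrit
  obtain ⟨K, hK0, hK⟩ := core σ (fun m => (4 / 3 * 2 ^ m) ^ 2) hσ0 hcrit
  refine ⟨2 * Real.pi * (5 * K), by positivity, ?_⟩
  intro Y H S r hr
  obtain ⟨T, hT1, hT2, hT3⟩ := exists_T dps fs sym avg area S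
  have h1 := hK T hT1 (bm Y H S (fun m => T 0 m) hT3) hT2
  exact mean σ K (fun m => T 0 m) (fun z => Complex.exp (-H z)) hσ0 hσ2 hT3 h1 r hr

end Pool.Agent.H64.BR
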