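import Pool.Agent.H64.BR.StmA

set_option autoImplicit false

/-! # BR-BM: the coefficients are bounded -/

namespace Pool.Agent.H64.BR

open Metric Set Filter Topology MeasureTheory
open Pool.Agent.W677.Mar Pool.Agent.W5h41.MA

lemma bm_uniq {a b : ℕ → ℂ} {g : ℂ → ℂ}
    (ha : ∀ z ∈ ball (0 : ℂ) 1, HasSum (fun m : ℕ => a m * z ^ m) (g z))
    (hb : ∀ z ∈ ball (0 : ℂ) 1, HasSum (fun m : ℕ => b m * z ^ m) (g z)) (m : ℕ) :
    a m = b m := by
  have key : ∀ c : ℕ → ℂ, (∀ z ∈ ball (0 : ℂ) 1, HasSum (fun m : ℕ => c m * z ^ m) (g z)) →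
      HasFPowerSeriesAt g (fun n => ContinuousMultilinearMap.mkPiRing ℂ (Fin n) (c n)) 0 := by
    intro c hc
    rw [hasFPowerSeriesAt_iff]
    filter_upwards [ball_mem_nhds (0 : ℂ) one_pos] with z hz
    rw [zero_add]
    have h := hc z hz
    refine h.congr_fun ?_ |> fun h => h
    intro n
    simp [FormalMultilinearSeries.coeff, mul_comm]
  have h := (key a ha).eq_formalMultilinearSeries (key b hb)
  have h1 := congrFun h m
  have h2 := congrArg (fun p : ContinuousMultilinearMap ℂ (fun _ : Fin m => ℂ) ℂ => p (fun _ => 1)) h1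
  simpa using h2

theorem bm : S_BM := by
  intro Y H S a ha m
  have hg : DifferentiableOn ℂ (fun z => Complex.exp (-H z)) (ball 0 1) := S.dH.neg.cexp
  have h1 : a m = cf m (fun z => Complex.exp (-H z)) := bm_uniq ha (fun z hz => cf_hasSum hg hz) m
  have h2 : ‖cf m (fun z => Complex.exp (-H z))‖ ≤ (4 / 3) / (1 / 2) ^ m := by
    refine cf_le (R := 1 / 2) (by norm_num) (by norm_num) hg (fun z hz => ?_) m
    have hzb : z ∈ ball (0 : ℂ) 1 := by
      rw [mem_ball_zero_iff, hz]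
      norm_num
    rw [Complex.norm_exp]
    have h3 := goluzin S hzb
    rw [hz] at h3
    have h4 : (-H z).re ≤ ‖H z‖ := by
      rw [← norm_neg]
      exact Complex.re_le_norm _
    have h5 : Real.exp (-Real.log (1 - (1 / 2) ^ 2)) = 4 / 3 := by
      rw [Real.exp_neg, Real.exp_log (by norm_num)]
      norm_num
    rw [← h5]
    exact Real.exp_le_exp.2 (h4.trans h3)
  rw [h1]
  have h6 : (4 / 3 : ℝ) / (1 / 2) ^ m = 4 / 3 * 2 ^ m := by
    rw [one_div, inv_pow, div_inv_eq_mul]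
  rw [h6] at h2
  exact pow_le_pow_left₀ (norm_nonneg _) h2 2

end Pool.Agent.H64.BR
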