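import Pool.Agent.H64.BR.Stm

set_option autoImplicit false

/-! # BR-CORE -/

namespace Pool.Agent.H64.BR

open Metric Set Filter Topology MeasureTheory

theorem phi_nonneg {σ v : ℝ} (h0 : 0 ≤ v) (h1 : v ≤ 1) : 0 ≤ phi σ v := by
  unfold phi
  have h2 : 0 ≤ 1 - v := by linarith
  exact div_nonneg (mul_nonneg h0 h2) (add_nonneg (Real.rpow_nonneg h0 _) (Real.rpow_nonneg h2 _))

theorem core (hg : S_GAM) (hp : S_PAIR) (hs : S_SCALE) (hr : S_RIEM) (hf : S_PHI) : S_CORE := by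
  intro σ B hσ hI
  set I : ℝ := ∫ v in (0 : ℝ)..1, phi σ v with hIdef
  -- Riemann sums
  let R : ℕ → ℝ := fun M => 1 / (M : ℝ) * ∑ n ∈ Finset.range M, phi σ ((n : ℝ) / (M : ℝ))
  have hR : Tendsto R atTop (𝓝 I) := hr (phi σ) (hf σ hσ)
  have hR0 : ∀ M, 0 ≤ R M := by
    intro M
    apply mul_nonneg (by positivity)
    apply Finset.sum_nonneg
    intro n hn
    rw [Finset.mem_range] at hn
    have hM : (0 : ℝ) < M := by
      have : 0 < M := by omega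
      exact_mod_cast this
    apply phi_nonneg (by positivity)
    rw [div_le_one hM]
    exact_mod_cast hn.le
  set c : ℝ := (σ * (σ + 1) / 2 * I - 1) / 2 with hc
  have hcpos : 0 < c := by rw [hc]; linarith
  have hRc : ∀ᶠ m : ℕ in atTop, 1 + c ≤ σ * (σ + 1) / 2 * R (m + 1) := by
    have h1 : Tendsto (fun m : ℕ => σ * (σ + 1) / 2 * R (m + 1)) atTop
        (𝓝 (σ * (σ + 1) / 2 * I)) := ((tendsto_add_atTop_iff_nat 1).2 hR).const_mul _
    have h2 : 1 + c < σ * (σ + 1) / 2 * I := by rw [hc]; linarith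
    exact (h1.eventually (lt_mem_nhds h2)).mono fun m hm => hm.le
  obtain ⟨m₀, hm₀⟩ := eventually_atTop.1 hRc
  set A : ℝ := ∑ m ∈ Finset.range m₀, |B m| with hA
  have hA0 : 0 ≤ A := Finset.sum_nonneg fun _ _ => abs_nonneg _
  refine ⟨(1 + c) * A / c, by positivity, ?_⟩
  intro T hT hB hIn
  set u : ℕ → ℝ := fun m => ‖T 0 m‖ ^ 2 / ((m : ℝ) + 1) ^ σ with hu
  have hu0 : ∀ m, 0 ≤ u m := fun m => by simp only [hu]; positivity
  have huB : ∀ m, u m ≤ |B m| := by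
    intro m
    have h1 : (1 : ℝ) ≤ ((m : ℝ) + 1) ^ σ :=
      Real.one_le_rpow (by have := Nat.cast_nonneg (α := ℝ) m; linarith) hσ.le
    calc u m ≤ ‖T 0 m‖ ^ 2 := div_le_self (by positivity) h1
      _ ≤ B m := hB m
      _ ≤ |B m| := le_abs_self _
  -- the main inequality
  have key : ∀ ρ ∈ Ioo (0 : ℝ) 1, ∀ M₁ M : ℕ, M₁ ≤ M →
      c * ∑ m ∈ Finset.range M₁, ρ ^ m * u m ≤
        (1 + c) * A + ∑' m : ℕ, ρ ^ (m + M) * ‖T 0 (m + M)‖ ^ 2 := by
    intro ρ hρ M₁ M hM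
    have h1 := hg σ T hσ hIn ρ hρ M
    have h2 : ∑ m ∈ Finset.range M, ρ ^ m * (σ * (σ + 1) / 2 * R (m + 1) * u m) ≤
        σ * (σ + 1) * ∑ m ∈ Finset.range M, ρ ^ m * ∑ n ∈ Finset.Icc 1 m,
          (n : ℝ) / ((m : ℝ) + 1 - n) ^ (σ + 2) * ‖T n m‖ ^ 2 := by
      rw [Finset.mul_sum]
      apply Finset.sum_le_sum
      intro m _
      have h3 := hp σ m (fun n => T n m) (T 0 m) hσ (fun n h1 h2 => hT n m h1 h2)
      rw [hs σ m hσ] at h3
      have h4 : σ * (σ + 1) / 2 * R (m + 1) * u m =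
          σ * (σ + 1) * (1 / 2 * ((1 / ((m : ℝ) + 1) * ∑ n ∈ Finset.range (m + 1),
            phi σ ((n : ℝ) / ((m : ℝ) + 1))) / ((m : ℝ) + 1) ^ σ) * ‖T 0 m‖ ^ 2) := by
        simp only [R, hu]
        push_cast
        ring
      rw [h4]
      have h5 : 0 ≤ ρ ^ m := pow_nonneg hρ.1.le m
      have h6 : 0 < σ * (σ + 1) := by positivity
      calc ρ ^ m * (σ * (σ + 1) * _) ≤ ρ ^ m * (σ * (σ + 1) * ∑ n ∈ Finset.Icc 1 m,
          (n : ℝ) / ((m : ℝ) + 1 - n) ^ (σ + 2) * ‖T n m‖ ^ 2) := by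
            apply mul_le_mul_of_nonneg_left _ h5
            exact mul_le_mul_of_nonneg_left h3 h6.le
        _ = _ := by ring
    have h3 : ∑ m ∈ Finset.range M, ρ ^ m * (σ * (σ + 1) / 2 * R (m + 1) * u m) ≤
        ∑ m ∈ Finset.range M, ρ ^ m * u m +
          ∑' m : ℕ, ρ ^ (m + M) * ‖T 0 (m + M)‖ ^ 2 := h2.trans h1
    -- termwise
    have h4 : ∀ m ∈ Finset.range M, (1 + c) * (ρ ^ m * u m) ≤
        ρ ^ m * (σ * (σ + 1) / 2 * R (m + 1) * u m) +
          (1 + c) * (if m < m₀ then |B m| else 0) := by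
      intro m _
      have h5 : 0 ≤ ρ ^ m := pow_nonneg hρ.1.le m
      have h6 : ρ ^ m ≤ 1 := pow_le_one₀ hρ.1.le hρ.2.le
      have h7 := hu0 m
      have h8 := huB m
      split_ifs with h
      · have h9 : ρ ^ m * u m ≤ |B m| := by
          calc ρ ^ m * u m ≤ 1 * u m := mul_le_mul_of_nonneg_right h6 h7
            _ ≤ |B m| := by linarith
        have h10 : 0 ≤ ρ ^ m * (σ * (σ + 1) / 2 * R (m + 1) * u m) := by
          have := hR0 (m + 1)
          positivity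
        have h11 : (1 + c) * (ρ ^ m * u m) ≤ (1 + c) * |B m| :=
          mul_le_mul_of_nonneg_left h9 (by linarith)
        linarith
      · have h9 := hm₀ m (not_lt.1 h)
        have h10 : (1 + c) * u m ≤ σ * (σ + 1) / 2 * R (m + 1) * u m :=
          mul_le_mul_of_nonneg_right h9 h7
        have h11 : ρ ^ m * ((1 + c) * u m) ≤ ρ ^ m * (σ * (σ + 1) / 2 * R (m + 1) * u m) :=
          mul_le_mul_of_nonneg_left h10 h5
        rw [mul_zero, add_zero]
        calc (1 + c) * (ρ ^ m * u m) = ρ ^ m * ((1 + c) * u m) := by ring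
          _ ≤ _ := h11
    have h5 := Finset.sum_le_sum h4
    rw [← Finset.mul_sum, Finset.sum_add_distrib, ← Finset.mul_sum] at h5
    have h6 : ∑ m ∈ Finset.range M, (if m < m₀ then |B m| else 0) ≤ A := by
      rw [← Finset.sum_filter]
      apply Finset.sum_le_sum_of_subset_of_nonneg
      · intro m hm
        rw [Finset.mem_filter] at hm
        exact Finset.mem_range.2 hm.2
      · intro m _ _
        exact abs_nonneg _
    have h7 : ∑ m ∈ Finset.range M₁, ρ ^ m * u m ≤ ∑ m ∈ Finset.range M, ρ ^ m * u m := by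
      apply Finset.sum_le_sum_of_subset_of_nonneg (Finset.range_mono hM)
      intro m _ _
      exact mul_nonneg (pow_nonneg hρ.1.le m) (hu0 m)
    have h8 : (1 + c) * ∑ m ∈ Finset.range M, (if m < m₀ then |B m| else 0) ≤ (1 + c) * A :=
      mul_le_mul_of_nonneg_left h6 (by linarith)
    have h9 : c * ∑ m ∈ Finset.range M₁, ρ ^ m * u m ≤
        c * ∑ m ∈ Finset.range M, ρ ^ m * u m := mul_le_mul_of_nonneg_left h7 hcpos.le
    linarith
  -- M → ∞
  have key2 : ∀ ρ ∈ Ioo (0 : ℝ) 1, ∀ M₁ : ℕ,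
      c * ∑ m ∈ Finset.range M₁, ρ ^ m * u m ≤ (1 + c) * A := by
    intro ρ hρ M₁
    have h1 : Tendsto (fun M : ℕ => (1 + c) * A + ∑' m : ℕ, ρ ^ (m + M) * ‖T 0 (m + M)‖ ^ 2) atTop
        (𝓝 ((1 + c) * A + 0)) :=
      tendsto_const_nhds.add (tendsto_sum_nat_add (fun m : ℕ => ρ ^ m * ‖T 0 m‖ ^ 2))
    rw [add_zero] at h1
    exact ge_of_tendsto h1 (eventually_atTop.2 ⟨M₁, fun M hM => key ρ hρ M₁ M hM⟩)
  -- ρ → 1
  intro M₁
  have h1 : Tendsto (fun ρ : ℝ => c * ∑ m ∈ Finset.range M₁, ρ ^ m * u m) (𝓝[<] 1)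
      (𝓝 (c * ∑ m ∈ Finset.range M₁, (1 : ℝ) ^ m * u m)) := by
    apply tendsto_nhdsWithin_of_tendsto_nhds
    have : Continuous (fun ρ : ℝ => c * ∑ m ∈ Finset.range M₁, ρ ^ m * u m) := by fun_prop
    exact this.tendsto 1
  have h2 : c * ∑ m ∈ Finset.range M₁, (1 : ℝ) ^ m * u m ≤ (1 + c) * A := by
    apply le_of_tendsto h1
    have h3 : ∀ᶠ ρ : ℝ in 𝓝[<] 1, ρ ∈ Ioo (0 : ℝ) 1 :=
      Ioo_mem_nhdsLT (by norm_num)
    exact h3.mono fun ρ hρ => key2 ρ hρ M₁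
  simp only [one_pow, one_mul] at h2
  rw [le_div_iff₀ hcpos, mul_comm]
  exact h2

end Pool.Agent.H64.BR
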