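import Pool.Agent.H64.BR.Stm

set_option autoImplicit false

namespace Pool.Agent.H64.BR

open Metric Set Filter Topology MeasureTheory

namespace CVAux

theorem den_pos {σ v : ℝ} (hv : v ∈ Icc (0 : ℝ) 1) :
    0 < v ^ (σ + 3) + (1 - v) ^ (σ + 3) := by
  rcases eq_or_lt_of_le hv.1 with h | h
  · rw [← h]
    have : (0 : ℝ) ≤ 0 ^ (σ + 3) := Real.rpow_nonneg le_rfl _
    simp only [sub_zero, Real.one_rpow]
    linarith
  · have h1 : 0 < v ^ (σ + 3) := Real.rpow_pos_of_pos h _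
    have h2 : 0 ≤ (1 - v) ^ (σ + 3) := Real.rpow_nonneg (by linarith [hv.2]) _
    linarith

theorem phi_cont {σ : ℝ} (hσ : 0 < σ) : ContinuousOn (phi σ) (Icc 0 1) := by
  unfold phi
  apply ContinuousOn.div
  · fun_prop
  · apply ContinuousOn.add
    · exact (Real.continuous_rpow_const (by linarith)).continuousOn
    · exact ((Real.continuous_rpow_const (by linarith)).comp
        (continuous_const.sub continuous_id)).continuousOn
  · exact fun v hv => (den_pos hv).ne'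

theorem phi_symm (σ v : ℝ) : phi σ (1 - v) = phi σ v := by
  unfold phi
  rw [show 1 - (1 - v) = v by ring, add_comm (v ^ (σ + 3))]
  ring

theorem phi_sub {σ y : ℝ} (hy : 0 ≤ y) :
    phi σ (1 + y)⁻¹ * ((1 + y) ^ 2)⁻¹ = y * (1 + y) ^ (σ - 1) / (1 + y ^ (σ + 3)) := by
  have h1 : 0 < 1 + y := by linarith
  have e1 : 1 - (1 + y)⁻¹ = y * (1 + y)⁻¹ := by field_simp; ring
  have e2 : ((1 + y)⁻¹) ^ (σ + 3) = ((1 + y) ^ (σ + 3))⁻¹ := Real.inv_rpow h1.le _
  have e3 : (y * (1 + y)⁻¹) ^ (σ + 3) = y ^ (σ + 3) * ((1 + y) ^ (σ + 3))⁻¹ := by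
    rw [Real.mul_rpow hy (by positivity), e2]
  have e4 : (1 + y) ^ (σ + 3) = (1 + y) ^ (σ - 1) * (1 + y) ^ 4 := by
    rw [← Real.rpow_natCast (1 + y) 4, ← Real.rpow_add h1]
    congr 1; push_cast; ring
  have h2 : 0 < (1 + y) ^ (σ + 3) := Real.rpow_pos_of_pos h1 _
  have h3 : 0 < 1 + y ^ (σ + 3) := by
    have : 0 ≤ y ^ (σ + 3) := Real.rpow_nonneg hy _
    linarith
  have h4 : 0 < (1 + y) ^ (σ - 1) := Real.rpow_pos_of_pos h1 _
  unfold phi
  rw [e1, e3, e2]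
  have e5 : ((1 + y) ^ (σ + 3))⁻¹ + y ^ (σ + 3) * ((1 + y) ^ (σ + 3))⁻¹ =
      (1 + y ^ (σ + 3)) * ((1 + y) ^ (σ + 3))⁻¹ := by ring
  rw [e5, e4]
  field_simp

end CVAux

open CVAux in
theorem cv : S_CV := by
  intro σ hσ
  have hc := phi_cont hσ
  have i1 : IntervalIntegrable (phi σ) volume 0 (1 / 2) := by
    apply ContinuousOn.intervalIntegrable
    rw [uIcc_of_le (by norm_num)]
    exact hc.mono (Icc_subset_Icc le_rfl (by norm_num))
  have i2 : IntervalIntegrable (phi σ) volume (1 / 2) 1 := by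
    apply ContinuousOn.intervalIntegrable
    rw [uIcc_of_le (by norm_num)]
    exact hc.mono (Icc_subset_Icc (by norm_num) le_rfl)
  have e1 : ∫ v in (0 : ℝ)..(1 / 2), phi σ v = ∫ v in (1 / 2 : ℝ)..1, phi σ v := by
    have h := intervalIntegral.integral_comp_sub_left (a := (1 / 2 : ℝ)) (b := 1) (phi σ) 1
    rw [show (1 : ℝ) - 1 = 0 by norm_num, show (1 : ℝ) - 1 / 2 = 1 / 2 by norm_num] at h
    rw [← h]
    exact intervalIntegral.integral_congr fun v _ => phi_symm σ v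
  have e2 : ∫ y in (0 : ℝ)..1, (phi σ ∘ fun y => (1 + y)⁻¹) y * (-((1 + y) ^ 2)⁻¹) =
      ∫ v in ((1 : ℝ) + 0)⁻¹..(1 + 1)⁻¹, phi σ v := by
    refine intervalIntegral.integral_comp_mul_deriv'' (f := fun y : ℝ => (1 + y)⁻¹)
      (f' := fun y => -((1 + y) ^ 2)⁻¹) ?_ ?_ ?_ ?_
    · rw [uIcc_of_le zero_le_one]
      intro y hy
      exact (ContinuousAt.inv₀ (by fun_prop) (by linarith [hy.1])).continuousWithinAt
    · intro y hy
      rw [min_eq_left zero_le_one, max_eq_right zero_le_one] at hy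
      have h1 : HasDerivAt (fun y : ℝ => 1 + y) 1 y := (hasDerivAt_id y).const_add 1
      have h2 := h1.inv (by linarith [hy.1])
      refine (h2.congr_deriv ?_).hasDerivWithinAt
      rw [neg_div, one_div]
    · rw [uIcc_of_le zero_le_one]
      intro y hy
      have h1 : 1 + y ≠ 0 := by linarith [hy.1]
      have h0 : (1 + y) ^ 2 ≠ 0 := pow_ne_zero 2 h1
      have hca : ContinuousAt (fun y : ℝ => (1 + y) ^ 2) y := by fun_prop
      exact (hca.inv₀ h0).neg.continuousWithinAt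
    · refine hc.mono ?_
      rintro _ ⟨y, hy, rfl⟩
      rw [uIcc_of_le zero_le_one] at hy
      have : 1 ≤ 1 + y := by linarith [hy.1]
      exact ⟨by positivity, inv_le_one_of_one_le₀ this⟩
  have e3 : ∫ v in ((1 : ℝ) + 0)⁻¹..(1 + 1)⁻¹, phi σ v = -∫ v in (1 / 2 : ℝ)..1, phi σ v := by
    rw [show ((1 : ℝ) + 0)⁻¹ = 1 by norm_num, show ((1 : ℝ) + 1)⁻¹ = 1 / 2 by norm_num,
      intervalIntegral.integral_symm]
  have e4 : ∫ y in (0 : ℝ)..1, (phi σ ∘ fun y => (1 + y)⁻¹) y * (-((1 + y) ^ 2)⁻¹) =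
      -∫ y in (0 : ℝ)..1, y * (1 + y) ^ (σ - 1) / (1 + y ^ (σ + 3)) := by
    rw [← intervalIntegral.integral_neg]
    refine intervalIntegral.integral_congr fun y hy => ?_
    rw [uIcc_of_le zero_le_one] at hy
    simp only [Function.comp]
    rw [mul_neg, phi_sub hy.1]
  rw [← intervalIntegral.integral_add_adjacent_intervals i1 i2, e1]
  have e5 : ∫ v in (1 / 2 : ℝ)..1, phi σ v =
      ∫ y in (0 : ℝ)..1, y * (1 + y) ^ (σ - 1) / (1 + y ^ (σ + 3)) := by
    have := e2.symm.trans e4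
    rw [e3] at this
    linarith
  rw [e5]
  ring

end Pool.Agent.H64.BR
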