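import Pool.Agent.H64.BR.Stm
import Pool.Agent.H64.G.R_seed8.Helper401.ENV.C1

set_option autoImplicit false

namespace Pool.Agent.H64.BR

open Metric Set Filter Topology MeasureTheory

namespace DPSaux

/-- Taylor coefficients at the origin -/
noncomputable def tc (m : ℕ) (φ : ℂ → ℂ) : ℂ := (m.factorial : ℂ)⁻¹ * iteratedDeriv m φ 0

theorem tc_hasSum {φ : ℂ → ℂ} {r : ℝ} (h : DifferentiableOn ℂ φ (ball 0 r)) {z : ℂ}
    (hz : z ∈ ball (0 : ℂ) r) : HasSum (fun m => tc m φ * z ^ m) (φ z) := by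
  have := Complex.hasSum_taylorSeries_on_ball h hz
  have e : (fun m => tc m φ * z ^ m) =
      fun n : ℕ => (n.factorial : ℂ)⁻¹ • (z - 0) ^ n • iteratedDeriv n φ 0 := by
    funext m
    unfold tc
    rw [smul_eq_mul, smul_eq_mul, sub_zero]
    ring
  rw [e]
  exact this

theorem tc_le {φ : ℂ → ℂ} {r' R C : ℝ} (hR : 0 < R) (hRr : R < r')
    (h : DifferentiableOn ℂ φ (ball 0 r')) (hC : ∀ z : ℂ, ‖z‖ = R → ‖φ z‖ ≤ C) (m : ℕ) :
    ‖tc m φ‖ ≤ C / R ^ m := by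
  have hd : DiffContOnCl ℂ φ (ball 0 R) :=
    ((h.mono (closedBall_subset_ball hRr)).mono closure_ball_subset_closedBall).diffContOnCl
  have h1 := Complex.norm_iteratedDeriv_le_of_forall_mem_sphere_norm_le m hR hd
    (fun z hz => hC z (mem_sphere_zero_iff_norm.1 hz))
  unfold tc
  have h2 : (0 : ℝ) < m.factorial := by exact_mod_cast m.factorial_pos
  rw [norm_mul, norm_inv, Complex.norm_natCast, inv_mul_le_iff₀ h2]
  refine h1.trans (le_of_eq ?_)
  ring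

variable {K : ℂ × ℂ → ℂ}

theorem slice (h : DifferentiableOn ℂ K (ball (0 : ℂ) 1 ×ˢ ball (0 : ℂ) 1)) {ζ : ℂ}
    (hζ : ζ ∈ ball (0 : ℂ) 1) : DifferentiableOn ℂ (fun z => K (ζ, z)) (ball 0 1) := by
  have : DifferentiableOn ℂ (fun v : ℂ => (ζ, v)) (ball 0 1) :=
    (differentiableOn_const ζ).prodMk differentiableOn_id
  exact h.comp this fun v hv => ⟨hζ, hv⟩

theorem slice' (h : DifferentiableOn ℂ K (ball (0 : ℂ) 1 ×ˢ ball (0 : ℂ) 1)) {z : ℂ}
    (hz : z ∈ ball (0 : ℂ) 1) : DifferentiableOn ℂ (fun ζ => K (ζ, z)) (ball 0 1) := by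
  have : DifferentiableOn ℂ (fun v : ℂ => (v, z)) (ball 0 1) :=
    differentiableOn_id.prodMk (differentiableOn_const z)
  exact h.comp this fun v hv => ⟨hv, hz⟩

/-- the coefficients are holomorphic -/
theorem tc_diff (h : DifferentiableOn ℂ K (ball (0 : ℂ) 1 ×ˢ ball (0 : ℂ) 1)) (b : ℕ) :
    DifferentiableOn ℂ (fun ζ => tc b (fun z => K (ζ, z))) (ball 0 1) := by
  have hcm : ∀ t : ℝ, circleMap (0 : ℂ) (1 / 2) t ∈ ball (0 : ℂ) 1 := fun t =>
    closedBall_subset_ball (by norm_num) (circleMap_mem_closedBall (0 : ℂ) (by norm_num) t)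
  have hcm0 : ∀ t : ℝ, circleMap (0 : ℂ) (1 / 2) t - 0 ≠ 0 := fun t => by
    rw [sub_zero]
    exact circleMap_ne_center (by norm_num)
  have key := Pool.Agent.Helper401.ENV.C1.param_8105 (isOpen_ball (x := (0 : ℂ)) (ε := 1))
    (fun (t : ℝ) (w : ℂ) => deriv (circleMap 0 (1 / 2)) t • ((1 / (circleMap 0 (1 / 2) t - 0) ^ (b + 1)) •
      K (w, circleMap 0 (1 / 2) t))) ?_ ?_
  · refine ((key.const_mul (2 * Real.pi * Complex.I : ℂ)⁻¹)).congr fun w hw => ?_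
    have hd : DifferentiableOn ℂ (fun v => K (w, v)) (closedBall 0 (1 / 2)) :=
      (slice h hw).mono (closedBall_subset_ball (by norm_num))
    have h3 := hd.circleIntegral_one_div_sub_center_pow_smul (by norm_num) b
    have h4 : ∫ t in (0:ℝ)..(2 * Real.pi),
      deriv (circleMap 0 (1 / 2)) t • ((1 / (circleMap 0 (1 / 2) t - 0) ^ (b + 1)) •
        K (w, circleMap 0 (1 / 2) t)) = (2 * Real.pi * Complex.I / b.factorial : ℂ) •
          iteratedDeriv b (fun v => K (w, v)) 0 := h3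
    rw [h4, smul_eq_mul, tc]
    have hπ : (2 * Real.pi * Complex.I : ℂ) ≠ 0 := Complex.two_pi_I_ne_zero
    field_simp
  · rintro ⟨t, w⟩ ⟨-, hw⟩
    have hKc : ContinuousAt K (w, circleMap 0 (1 / 2) t) :=
      (h.differentiableAt ((isOpen_ball.prod isOpen_ball).mem_nhds ⟨hw, hcm t⟩)).continuousAt
    have hcc : Continuous (fun z : ℝ × ℂ => circleMap (0 : ℂ) (1 / 2) z.1) :=
      (continuous_circleMap 0 (1 / 2)).comp continuous_fst
    have hcd : Continuous (fun z : ℝ × ℂ => deriv (circleMap (0 : ℂ) (1 / 2)) z.1) := by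
      have : Continuous (deriv (circleMap (0 : ℂ) (1 / 2))) := by
        have h0 : deriv (circleMap (0 : ℂ) (1 / 2)) = fun t => circleMap 0 (1 / 2) t * Complex.I := by
          funext t; exact deriv_circleMap 0 (1 / 2) t
        rw [h0]
        exact (continuous_circleMap 0 (1 / 2)).mul continuous_const
      exact this.comp continuous_fst
    have h5 : ContinuousAt (fun z : ℝ × ℂ => K (z.2, circleMap 0 (1 / 2) z.1)) (t, w) := by
      have : ContinuousAt (fun z : ℝ × ℂ => (z.2, circleMap (0 : ℂ) (1 / 2) z.1)) (t, w) :=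
        (continuous_snd.prodMk hcc).continuousAt
      exact ContinuousAt.comp (f := fun z : ℝ × ℂ => (z.2, circleMap (0 : ℂ) (1 / 2) z.1)) hKc this
    have h6 : ContinuousAt (fun z : ℝ × ℂ => (1 / (circleMap (0 : ℂ) (1 / 2) z.1 - 0) ^ (b + 1))) (t, w) := by
      refine ContinuousAt.div continuousAt_const ((hcc.sub continuous_const).pow _).continuousAt ?_
      exact pow_ne_zero _ (hcm0 t)
    exact (hcd.continuousAt.smul (h6.smul h5)).continuousWithinAt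
  · intro t
    have := ((slice' h (hcm t)).const_smul (1 / (circleMap (0 : ℂ) (1 / 2) t - 0) ^ (b + 1))).const_smul
      (deriv (circleMap (0 : ℂ) (1 / 2)) t)
    exact this

theorem bound (h : DifferentiableOn ℂ K (ball (0 : ℂ) 1 ×ˢ ball (0 : ℂ) 1)) {s : ℝ} (hs0 : 0 < s)
    (hs1 : s < 1) : ∃ M : ℝ, 0 ≤ M ∧ ∀ a b : ℕ, ‖tc a (fun ζ => tc b (fun z => K (ζ, z)))‖ ≤
      M / s ^ b / s ^ a := by
  have hcomp : IsCompact (closedBall (0 : ℂ) s ×ˢ closedBall (0 : ℂ) s) :=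
    (isCompact_closedBall 0 s).prod (isCompact_closedBall 0 s)
  obtain ⟨M, hM⟩ := hcomp.exists_bound_of_continuousOn (h.continuousOn.mono
    (prod_mono (closedBall_subset_ball hs1) (closedBall_subset_ball hs1)))
  have hM0 : 0 ≤ M := (norm_nonneg _).trans (hM (0, 0) ⟨mem_closedBall_self hs0.le, mem_closedBall_self hs0.le⟩)
  refine ⟨M, hM0, fun a b => ?_⟩
  refine tc_le hs0 hs1 (tc_diff h b) (fun ζ hζ => ?_) a
  have hζ1 : ζ ∈ closedBall (0 : ℂ) s := by rw [mem_closedBall_zero_iff, hζ]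
  refine tc_le hs0 hs1 (slice h (closedBall_subset_ball hs1 hζ1)) (fun z hz => ?_) b
  exact hM (ζ, z) ⟨hζ1, by rw [mem_closedBall_zero_iff, hz]⟩

theorem double (h : DifferentiableOn ℂ K (ball (0 : ℂ) 1 ×ˢ ball (0 : ℂ) 1)) {ζ z : ℂ}
    (hζ : ζ ∈ ball (0 : ℂ) 1) (hz : z ∈ ball (0 : ℂ) 1) :
    HasSum (fun p : ℕ × ℕ => tc p.1 (fun ζ => tc p.2 (fun z => K (ζ, z))) * ζ ^ p.1 * z ^ p.2) (K (ζ, z)) := by
  set ν : ℕ → ℕ → ℂ := fun a b => tc a (fun ζ => tc b (fun z => K (ζ, z))) with hν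
  have hζ' := hζ
  have hz' := hz
  rw [mem_ball_zero_iff] at hζ' hz'
  obtain ⟨s, hs1, hs2⟩ := exists_between (max_lt hζ' hz')
  have hs0 : 0 < s := (norm_nonneg ζ).trans_lt ((le_max_left _ _).trans_lt hs1)
  obtain ⟨M, hM0, hM⟩ := bound h hs0 hs2
  have g1 : Summable (fun a : ℕ => (‖ζ‖ / s) ^ a) := summable_geometric_of_lt_one (by positivity)
    ((div_lt_one hs0).2 ((le_max_left _ _).trans_lt hs1))
  have g2 : Summable (fun a : ℕ => (‖z‖ / s) ^ a) := summable_geometric_of_lt_one (by positivity)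
    ((div_lt_one hs0).2 ((le_max_right _ _).trans_lt hs1))
  have g3 : Summable (fun p : ℕ × ℕ => (‖ζ‖ / s) ^ p.1 * (‖z‖ / s) ^ p.2) :=
    g1.mul_of_nonneg g2 (fun a => by positivity) (fun a => by positivity)
  have hsum : Summable (fun p : ℕ × ℕ => ν p.1 p.2 * ζ ^ p.1 * z ^ p.2) := by
    refine Summable.of_norm_bounded (g3.mul_left M) fun p => ?_
    rw [norm_mul, norm_mul, norm_pow, norm_pow]
    calc ‖ν p.1 p.2‖ * ‖ζ‖ ^ p.1 * ‖z‖ ^ p.2 ≤ (M / s ^ p.2 / s ^ p.1) * ‖ζ‖ ^ p.1 * ‖z‖ ^ p.2 := by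
          gcongr; exact hM p.1 p.2
      _ = M * ((‖ζ‖ / s) ^ p.1 * (‖z‖ / s) ^ p.2) := by
          rw [div_pow, div_pow]; field_simp
  have h1 := (Equiv.prodComm ℕ ℕ).hasSum_iff.mpr hsum.hasSum
  have h2 : ∀ b : ℕ, HasSum (fun a => ν a b * ζ ^ a * z ^ b) (tc b (fun z => K (ζ, z)) * z ^ b) :=
    fun b => (tc_hasSum (tc_diff h b) hζ).mul_right _
  have h3 := h1.prod_fiberwise h2
  have h4 := tc_hasSum (slice h hζ) hz
  rw [h4.unique h3]
  exact hsum.hasSum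

end DPSaux

open DPSaux

theorem dps : S_DPS := by
  intro K h hsym
  set ν : ℕ → ℕ → ℂ := fun a b => tc a (fun ζ => tc b (fun z => K (ζ, z))) with hν
  refine ⟨fun a b => (ν a b + ν b a) / 2, fun a b => by ring, fun ζ hζ z hz => ?_⟩
  have h1 := double h hζ hz
  have h2 := (Equiv.prodComm ℕ ℕ).hasSum_iff.mpr (double h hz hζ)
  have h3 := (h1.add h2).div_const 2
  rw [← hsym ζ hζ z hz, add_self_div_two] at h3
  have e : (fun p : ℕ × ℕ => (ν p.1 p.2 + ν p.2 p.1) / 2 * ζ ^ p.1 * z ^ p.2) = fun i : ℕ × ℕ =>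
      ((tc i.1 fun ζ => tc i.2 fun z => K (ζ, z)) * ζ ^ i.1 * z ^ i.2 +
          ((fun p : ℕ × ℕ => (tc p.1 fun ζ => tc p.2 fun z => K (ζ, z)) * z ^ p.1 * ζ ^ p.2) ∘
            ⇑(Equiv.prodComm ℕ ℕ)) i) / 2 := by
    funext p
    simp only [hν, Function.comp, Equiv.prodComm_apply, Prod.fst_swap, Prod.snd_swap]
    ring
  rw [e]
  exact h3

end Pool.Agent.H64.BR
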