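import Pool.Agent.H64.BR.StmA

set_option autoImplicit false

/-! # Statement: univalent functions in the disc and the class of exterior maps -/

namespace Pool.Agent.H64.BR

open Metric Set Filter Topology MeasureTheory
open Pool.Agent.W677.Mar Pool.Agent.W5h41.MA

/-- BX-UNI: the inversion `1 / f(1/z)` of a normalised univalent function -/
def S_UNI : Prop :=
  ∀ f : ℂ → ℂ, DifferentiableOn ℂ f (ball 0 1) → InjOn f (ball 0 1) → f 0 = 0 → deriv f 0 = 1 →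
    (∀ w ∈ ball (0 : ℂ) 1, deriv f w ≠ 0) ∧
    ∃ Y H : ℂ → ℂ, Sg Y H ∧
      ∀ w ∈ ball (0 : ℂ) 1, ‖deriv f w‖⁻¹ * ‖f w‖ ^ 2 = ‖Complex.exp (-H w)‖ * ‖w‖ ^ 2

end Pool.Agent.H64.BR
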