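import Pool.Agent.H64.BR.Top
import Pool.Agent.H64.BR.StmC

set_option autoImplicit false

/-! # Consequences for univalent functions in the disc -/

namespace Pool.Agent.H64.BR

open Metric Set Filter Topology MeasureTheory
open Pool.Agent.W677.Mar Pool.Agent.W5h41.MA Pool.Agent.R250.MC

/-- the pointwise comparison -/
theorem deriv_le_exp (U : S_UNI) (G : S_GRO) {f : ℂ → ℂ} (hf : DifferentiableOn ℂ f (ball 0 1))
    (hi : InjOn f (ball 0 1)) (h0 : f 0 = 0) (h1 : deriv f 0 = 1) :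
    ∃ Y H : ℂ → ℂ, Sg Y H ∧ (∀ w ∈ ball (0 : ℂ) 1, deriv f w ≠ 0) ∧
      ∀ w ∈ ball (0 : ℂ) 1, w ≠ 0 → ‖deriv f w‖⁻¹ ≤ 16 * ‖Complex.exp (-H w)‖ := by
  obtain ⟨hne, Y, H, S, hS⟩ := U f hf hi h0 h1
  refine ⟨Y, H, S, hne, fun w hw hw0 => ?_⟩
  have e := hS w hw
  have g := G f hf hi h0 h1 w hw
  have hw' : 0 < ‖w‖ := norm_pos_iff.2 hw0
  have hfw : 0 < ‖f w‖ := by linarith
  have hE : 0 ≤ ‖Complex.exp (-H w)‖ := norm_nonneg _
  have h2 : ‖deriv f w‖⁻¹ * ‖f w‖ ^ 2 ≤ 16 * ‖Complex.exp (-H w)‖ * ‖f w‖ ^ 2 := by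
    rw [e]
    have h3 : ‖w‖ ^ 2 ≤ (4 * ‖f w‖) ^ 2 := pow_le_pow_left₀ hw'.le g 2
    calc ‖Complex.exp (-H w)‖ * ‖w‖ ^ 2 ≤ ‖Complex.exp (-H w)‖ * (4 * ‖f w‖) ^ 2 :=
          mul_le_mul_of_nonneg_left h3 hE
      _ = _ := by ring
  exact le_of_mul_le_mul_right h2 (by positivity)

theorem circ_ne {r : ℝ} (hr : 0 < r) (t : ℝ) : circleMap 0 r t ≠ 0 := by
  rw [← norm_pos_iff, norm_circleMap_zero, abs_of_pos hr]
  exact hr

theorem circ_mem {r : ℝ} (hr : r ∈ Ioo (0 : ℝ) 1) (t : ℝ) : circleMap 0 r t ∈ ball (0 : ℂ) 1 := by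
  rw [mem_ball_zero_iff, norm_circleMap_zero, abs_of_pos hr.1]
  exact hr.2

/-- **All the consequences for normalised univalent functions.** -/
theorem disc_all (U : S_UNI) (G : S_GRO) :
    ∃ C : ℝ, 0 ≤ C ∧ ∀ f : ℂ → ℂ, DifferentiableOn ℂ f (ball 0 1) → InjOn f (ball 0 1) →
      f 0 = 0 → deriv f 0 = 1 →
      (∀ r ∈ Ioo (0 : ℝ) 1, ∫ t in (0 : ℝ)..(2 * Real.pi),
        ‖deriv f (circleMap 0 r t)‖ ^ (-2 : ℝ) ≤ C * (1 - r) ^ (-(9 / 8) : ℝ)) ∧
      ∫⁻ z in ball (0 : ℂ) 1, ENNReal.ofReal (‖deriv f z‖ ^ (-(91 / 50) : ℝ)) ≤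
        ENNReal.ofReal C := by
  obtain ⟨C₁, hC10, hC1⟩ := minus_one
  obtain ⟨C₂, hC20, hC2⟩ := the_all (9 / 8) (by norm_num) (by norm_num) the_crit
  obtain ⟨K, hK⟩ : ∃ K, K = (16 : ℝ) ^ (91 / 50 : ℝ) *
    ((C₁ + 1) ^ (9 / 50 : ℝ) * (C₂ + 1) ^ (41 / 50 : ℝ)) := ⟨_, rfl⟩
  have hK0 : 0 ≤ K := by rw [hK]; positivity
  refine ⟨256 * C₂ + K / (1 - 2493 / 2500), ?_, ?_⟩
  · have : 0 ≤ K / (1 - 2493 / 2500) := div_nonneg hK0 (by norm_num)
    positivity
  intro f hf hi h0 h1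
  obtain ⟨Y, H, S, hne, hle⟩ := deriv_le_exp U G hf hi h0 h1
  have hK1 : 0 ≤ K / (1 - 2493 / 2500) := div_nonneg hK0 (by norm_num)
  have hdc : ContinuousOn (deriv f) (ball 0 1) := (hf.deriv isOpen_ball).continuousOn
  have hcd : ∀ r ∈ Ioo (0 : ℝ) 1, Continuous fun t : ℝ => deriv f (circleMap 0 r t) := fun r hr =>
    hdc.comp_continuous (continuous_circleMap 0 r) fun t => circ_mem hr t
  have hcH : ∀ r ∈ Ioo (0 : ℝ) 1, Continuous fun t : ℝ => ‖Complex.exp (-H (circleMap 0 r t))‖ :=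
    fun r hr => (Complex.continuous_exp.comp (S.dH.continuousOn.comp_continuous
      (continuous_circleMap 0 r) fun t => circ_mem hr t).neg).norm
  have hpos : ∀ r ∈ Ioo (0 : ℝ) 1, ∀ t : ℝ, 0 < ‖deriv f (circleMap 0 r t)‖ := fun r hr t =>
    norm_pos_iff.2 (hne _ (circ_mem hr t))
  have hE : ∀ w : ℂ, 0 < ‖Complex.exp (-H w)‖ := fun w => norm_pos_iff.2 (Complex.exp_ne_zero _)
  have hpt : ∀ p : ℝ, 0 ≤ p → ∀ r ∈ Ioo (0 : ℝ) 1, ∀ t : ℝ,
      ‖deriv f (circleMap 0 r t)‖ ^ (-p) ≤ 16 ^ p * ‖Complex.exp (-H (circleMap 0 r t))‖ ^ p := by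
    intro p hp r hr t
    have h2 := hle _ (circ_mem hr t) (circ_ne hr.1 t)
    have h3 := Real.rpow_le_rpow (inv_nonneg.2 (hpos r hr t).le) h2 hp
    rw [Real.mul_rpow (by norm_num) (hE _).le, Real.inv_rpow (hpos r hr t).le,
      ← Real.rpow_neg (hpos r hr t).le] at h3
    exact h3
  have hm1 : ∀ r ∈ Ioo (0 : ℝ) 1, ∫ t in (0 : ℝ)..(2 * Real.pi),
      ‖Complex.exp (-H (circleMap 0 r t))‖ ≤ C₁ * (1 - r) ^ (-(83 / 200) : ℝ) := by
    intro r hr
    have hr1 : 0 < 1 - r := by linarith [hr.2]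
    rw [Real.rpow_neg hr1.le, ← div_eq_mul_inv, le_div_iff₀ (by positivity)]
    exact hC1 Y H S r hr
  have hm2 : ∀ r ∈ Ioo (0 : ℝ) 1, ∫ t in (0 : ℝ)..(2 * Real.pi),
      ‖Complex.exp (-H (circleMap 0 r t))‖ ^ 2 ≤ C₂ * (1 - r) ^ (-(9 / 8) : ℝ) := by
    intro r hr
    have hr1 : 0 < 1 - r := by linarith [hr.2]
    rw [Real.rpow_neg hr1.le, ← div_eq_mul_inv, le_div_iff₀ (by positivity)]
    exact hC2 Y H S r hr
  constructor
  · intro r hr
    have hr1 : 0 < 1 - r := by linarith [hr.2]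
    have h2 : ∫ t in (0 : ℝ)..(2 * Real.pi), ‖deriv f (circleMap 0 r t)‖ ^ (-2 : ℝ) ≤
        ∫ t in (0 : ℝ)..(2 * Real.pi), 256 * ‖Complex.exp (-H (circleMap 0 r t))‖ ^ 2 := by
      apply intervalIntegral.integral_mono_on (μ := volume) (by positivity)
      · apply Continuous.intervalIntegrable
        exact (hcd r hr).norm.rpow_const fun t => Or.inl (hpos r hr t).ne'
      · apply Continuous.intervalIntegrable
        exact continuous_const.mul ((hcH r hr).pow 2)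
      · intro t _
        have h3 := hpt 2 (by norm_num) r hr t
        rw [Real.rpow_two, Real.rpow_two] at h3
        refine h3.trans (le_of_eq ?_)
        norm_num
    rw [intervalIntegral.integral_const_mul] at h2
    refine h2.trans ?_
    have h3 := mul_le_mul_of_nonneg_left (hm2 r hr) (by norm_num : (0 : ℝ) ≤ 256)
    refine h3.trans ?_
    have h4 : 0 ≤ (1 - r) ^ (-(9 / 8) : ℝ) := by positivity
    nlinarith
  · have hcont : ContinuousOn (fun z : ℂ => ‖deriv f z‖ ^ (-(91 / 50) : ℝ)) (ball 0 1) := by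
      apply ContinuousOn.rpow_const hdc.norm
      intro z hz
      left
      exact norm_ne_zero_iff.2 (hne z hz)
    have hmid : ∀ r ∈ Ioo (0 : ℝ) 1, ∫ t in (0 : ℝ)..(2 * Real.pi),
        ‖deriv f (circleMap 0 r t)‖ ^ (-(91 / 50) : ℝ) ≤ K * (1 - r) ^ (-(2493 / 2500) : ℝ) := by
      intro r hr
      have hr1 : 0 < 1 - r := by linarith [hr.2]
      have h3 := holder_int (F := fun t => ‖Complex.exp (-H (circleMap 0 r t))‖)
        (G := fun t => ‖Complex.exp (-H (circleMap 0 r t))‖ ^ 2) (a := 0) (b := 2 * Real.pi)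
        (A := (C₁ + 1) * (1 - r) ^ (-(83 / 200) : ℝ))
        (B := (C₂ + 1) * (1 - r) ^ (-(9 / 8) : ℝ)) (α := 9 / 50) (β := 41 / 50)
        (by positivity) (hcH r hr) ((hcH r hr).pow 2) (fun _ => hE _) (fun _ => pow_pos (hE _) 2)
        (by positivity) (by positivity) (by norm_num) (by norm_num) (by norm_num)
        ((hm1 r hr).trans (mul_le_mul_of_nonneg_right (by linarith) (by positivity)))
        ((hm2 r hr).trans (mul_le_mul_of_nonneg_right (by linarith) (by positivity)))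
      have h2 : ∫ t in (0 : ℝ)..(2 * Real.pi), ‖deriv f (circleMap 0 r t)‖ ^ (-(91 / 50) : ℝ) ≤
          ∫ t in (0 : ℝ)..(2 * Real.pi), 16 ^ (91 / 50 : ℝ) *
            (‖Complex.exp (-H (circleMap 0 r t))‖ ^ (9 / 50 : ℝ) *
              (‖Complex.exp (-H (circleMap 0 r t))‖ ^ 2) ^ (41 / 50 : ℝ)) := by
        apply intervalIntegral.integral_mono_on (μ := volume) (by positivity)
        · apply Continuous.intervalIntegrable
          exact (hcd r hr).norm.rpow_const fun t => Or.inl (hpos r hr t).ne'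
        · apply Continuous.intervalIntegrable
          exact continuous_const.mul (((hcH r hr).rpow_const fun t => Or.inl (hE _).ne').mul
            (((hcH r hr).pow 2).rpow_const fun t => Or.inl (pow_pos (hE _) 2).ne'))
        · intro t _
          refine (hpt (91 / 50) (by norm_num) r hr t).trans (le_of_eq ?_)
          congr 1
          rw [← Real.rpow_natCast, ← Real.rpow_mul (hE _).le, ← Real.rpow_add (hE _)]
          congr 1
          norm_num
      rw [intervalIntegral.integral_const_mul] at h2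
      refine h2.trans ((mul_le_mul_of_nonneg_left h3 (by positivity)).trans (le_of_eq ?_))
      rw [Real.mul_rpow (by positivity) (by positivity), Real.mul_rpow (by positivity) (by positivity),
        ← Real.rpow_mul hr1.le, ← Real.rpow_mul hr1.le, hK]
      have e1 : (-(2493 / 2500) : ℝ) = -(83 / 200) * (9 / 50) + -(9 / 8) * (41 / 50) := by norm_num
      rw [e1, Real.rpow_add hr1]
      ring
    have h4 := pold (fun z : ℂ => ‖deriv f z‖ ^ (-(91 / 50) : ℝ)) K (2493 / 2500) hcont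
      (fun z _ => Real.rpow_nonneg (norm_nonneg _) _) (by norm_num) (by norm_num) hmid
    refine h4.trans (ENNReal.ofReal_le_ofReal ?_)
    linarith

end Pool.Agent.H64.BR
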