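import Pool.Agent.H64.BR.Stm

set_option autoImplicit false

namespace Pool.Agent.H64.BR

open Metric Set Filter Topology MeasureTheory

theorem fs : S_FS := by
  intro ν K hK ζ hζ
  rw [mem_ball_zero_iff] at hζ
  obtain ⟨s, hs1, hs2⟩ := exists_between hζ
  have hs0 : 0 < s := (norm_nonneg ζ).trans_lt hs1
  have hsB : ((s : ℝ) : ℂ) ∈ ball (0 : ℂ) 1 := by
    rw [mem_ball_zero_iff, Complex.norm_real, Real.norm_of_nonneg hs0.le]; exact hs2
  have hζB : ζ ∈ ball (0 : ℂ) 1 := by rw [mem_ball_zero_iff]; exact hζ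
  have hsum0 : Summable (fun p : ℕ × ℕ => ‖ν p.1 p.2‖ * ‖ζ‖ ^ p.1 * s ^ p.2) := by
    have := (hK ζ hζB _ hsB).summable.norm
    refine this.congr fun p => ?_
    rw [norm_mul, norm_mul, norm_pow, norm_pow, Complex.norm_real, Real.norm_of_nonneg hs0.le]
  set g : ℕ → ℕ × ℕ → ℂ := fun n p => ν p.1 (n + p.2) * ζ ^ (p.1 + p.2) with hg
  have hgs : ∀ n, Summable (g n) := by
    intro n
    have h1 : Summable (fun p : ℕ × ℕ => ‖ν p.1 (n + p.2)‖ * ‖ζ‖ ^ p.1 * s ^ (n + p.2)) := by
      have hinj : Function.Injective (fun p : ℕ × ℕ => (p.1, n + p.2)) := by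
        rintro ⟨a, b⟩ ⟨a', b'⟩ h
        simp only [Prod.mk.injEq] at h ⊢
        exact ⟨h.1, by omega⟩
      have := Summable.comp_injective (f := fun p : ℕ × ℕ => ‖ν p.1 p.2‖ * ‖ζ‖ ^ p.1 * s ^ p.2) hsum0 hinj
      exact this
    refine Summable.of_norm_bounded (h1.mul_left (s ^ n)⁻¹) fun p => ?_
    simp only [hg, norm_mul, norm_pow]
    have h2 : ‖ζ‖ ^ p.2 ≤ s ^ p.2 := pow_le_pow_left₀ (norm_nonneg _) hs1.le _
    have h3 : (s ^ n)⁻¹ * (‖ν p.1 (n + p.2)‖ * ‖ζ‖ ^ p.1 * s ^ (n + p.2)) =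
        ‖ν p.1 (n + p.2)‖ * (‖ζ‖ ^ p.1 * s ^ p.2) := by
      rw [pow_add]; field_simp
    rw [h3, pow_add]
    gcongr
  refine ⟨fun n => ∑' p, g n p, fun n => ∑' a, ν a n * ζ ^ a, ?_, ?_, ?_, ?_⟩
  · intro n
    have h1 := (Finset.HasAntidiagonal.sigmaAntidiagonalEquivProd (A := ℕ)).hasSum_iff.mpr (hgs n).hasSum
    have h2 := h1.sigma (fun j => hasSum_fintype _)
    convert h2 using 1
    funext j
    have e0 : ∑ x : (Finset.HasAntidiagonal.antidiagonal j : Finset (ℕ × ℕ)), g n x =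
        ∑ p ∈ Finset.HasAntidiagonal.antidiagonal j, g n p :=
      Finset.sum_coe_sort (Finset.HasAntidiagonal.antidiagonal j) (fun p : ℕ × ℕ => g n p)
    refine Eq.trans ?_ e0.symm
    rw [TT, Finset.sum_mul, Finset.sum_Ico_eq_sum_range, ← Finset.Nat.sum_antidiagonal_swap,
      Finset.Nat.sum_antidiagonal_eq_sum_range_succ_mk]
    have e1 : n + j + 1 - n = j + 1 := by omega
    rw [e1]
    refine Finset.sum_congr rfl fun i hi => ?_
    rw [Finset.mem_range] at hi
    simp only [hg, Prod.swap_prod_mk]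
    rw [show n + j - (n + i) = j - i by omega, show j - i + i = j by omega]
  · intro z hz
    have h1 := (Equiv.prodComm ℕ ℕ).hasSum_iff.mpr (hK ζ hζB z hz)
    have h2 : ∀ b, Summable (fun a => ν a b * ζ ^ a * z ^ b) := by
      intro b
      have hinj : Function.Injective (fun a : ℕ => (a, b)) := fun a a' h => by
        simpa using h
      have := Summable.comp_injective (f := fun p : ℕ × ℕ => ν p.1 p.2 * ζ ^ p.1 * z ^ p.2)
        (hK ζ hζB z hz).summable hinj
      exact this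
    have h3 := h1.prod_fiberwise (fun b => (h2 b).hasSum)
    convert h3 using 1
    funext b
    exact tsum_mul_right.symm
  · have h1 := hK ζ hζB ζ hζB
    rw [← h1.tsum_eq]
    refine tsum_congr fun p => ?_
    simp only [hg]
    rw [zero_add, pow_add, mul_assoc]
  · intro n
    have h1 : ∑' p, g n p = ∑' a, ∑' i, g n (a, i) := (hgs n).tsum_prod
    have h2 : ∑' p, g (n + 1) p = ∑' a, ∑' i, g (n + 1) (a, i) := (hgs (n + 1)).tsum_prod
    have hi : ∀ a, Summable (fun i => g n (a, i)) := fun a => (hgs n).prod_factor a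
    have hz : Summable (fun a => ν a n * ζ ^ a) := by
      have hinj : Function.Injective (fun a : ℕ => (a, 0)) := fun a a' h => by
        simpa using h
      have := Summable.comp_injective (f := g n) (hgs n) hinj
      refine this.congr fun a => ?_
      simp [hg]
    have e1 : ∀ a, ∑' i, g n (a, i) = ν a n * ζ ^ a + ζ * ∑' i, g (n + 1) (a, i) := by
      intro a
      rw [(hi a).tsum_eq_zero_add, ← tsum_mul_left]
      have e2 : g n (a, 0) = ν a n * ζ ^ a := by simp [hg]
      have e3 : ∀ i, g n (a, i + 1) = ζ * g (n + 1) (a, i) := by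
        intro i
        simp only [hg]
        rw [show n + 1 + i = n + (i + 1) by omega]
        ring
      rw [e2, tsum_congr e3]
    have h3 : Summable (fun a => ζ * ∑' i, g (n + 1) (a, i)) := ((hgs (n + 1)).prod).mul_left ζ
    show ζ * ∑' p, g (n + 1) p = ∑' p, g n p - ∑' a, ν a n * ζ ^ a
    rw [h1, tsum_congr e1, hz.tsum_add h3, h2, tsum_mul_left]
    ring

end Pool.Agent.H64.BR
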