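import Pool.Agent.H64.BR.Sig

set_option autoImplicit false

/-! # Consequences -/

namespace Pool.Agent.H64.BR

open Metric Set Filter Topology MeasureTheory
open Pool.Agent.W677.Mar Pool.Agent.W5h41.MA Pool.Agent.R250.MC

/-- The first negative moment. -/
theorem minus_one : ∃ C : ℝ, 0 ≤ C ∧ ∀ Y H : ℂ → ℂ, Sg Y H → ∀ r ∈ Ioo (0 : ℝ) 1,
    (∫ t in (0 : ℝ)..(2 * Real.pi), ‖Complex.exp (-H (circleMap 0 r t))‖) *
      (1 - r) ^ (83 / 200 : ℝ) ≤ C := by
  obtain ⟨C, hC0, hC⟩ := mean_bound (θ := 3 / 10) (δ := 1 / 5000) (by norm_num) (by norm_num)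
    (by norm_num)
  refine ⟨C, hC0, fun Y H S r hr => ?_⟩
  have h1 := hC Y H S (-1 / 2) (83 / 200) (by norm_num) (by
    rw [norm_div, norm_neg, norm_one, Complex.norm_ofNat]; norm_num) (by norm_num) (by norm_num) (by
    have e : ((1 / (1 + 83 / 200) : ℝ) : ℂ) - 1 / (2 * (-1 / 2)) = ((1 / (1 + 83 / 200) + 1 : ℝ) : ℂ) := by
      push_cast
      norm_num
    rw [e, Complex.norm_real, Real.norm_of_nonneg (by norm_num)]
    unfold kap
    norm_num) r hr
  refine le_trans (le_of_eq ?_) h1
  congr 1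
  apply intervalIntegral.integral_congr
  intro t _
  show ‖Complex.exp (-H (circleMap 0 r t))‖ = ‖Complex.exp (-1 / 2 * H (circleMap 0 r t))‖ ^ 2
  rw [Complex.norm_exp, Complex.norm_exp, ← Real.exp_nat_mul]
  congr 1
  have : (-1 / 2 * H (circleMap 0 r t)) = ((-1 / 2 : ℝ) : ℂ) * H (circleMap 0 r t) := by
    push_cast; ring
  rw [this, Complex.re_ofReal_mul, Complex.neg_re]
  push_cast
  ring

/-- Hoelder's inequality in the form of the weighted means. -/
theorem holder_int {F G : ℝ → ℝ} {a b A B α β : ℝ} (hab : a ≤ b) (hF : Continuous F)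
    (hG : Continuous G) (hF0 : ∀ x, 0 < F x) (hG0 : ∀ x, 0 < G x) (hA : 0 < A) (hB : 0 < B)
    (hα : 0 ≤ α) (hβ : 0 ≤ β) (hαβ : α + β = 1) (h1 : ∫ x in a..b, F x ≤ A)
    (h2 : ∫ x in a..b, G x ≤ B) : ∫ x in a..b, F x ^ α * G x ^ β ≤ A ^ α * B ^ β := by
  have hp : ∀ x, F x ^ α * G x ^ β ≤ A ^ α * B ^ β * (α * (F x / A) + β * (G x / B)) := by
    intro x
    have h3 := Real.geom_mean_le_arith_mean2_weighted hα hβ (div_nonneg (hF0 x).le hA.le)
      (div_nonneg (hG0 x).le hB.le) hαβ
    rw [Real.div_rpow (hF0 x).le hA.le, Real.div_rpow (hG0 x).le hB.le] at h3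
    have hAα : 0 < A ^ α := Real.rpow_pos_of_pos hA _
    have hBβ : 0 < B ^ β := Real.rpow_pos_of_pos hB _
    have h4 := mul_le_mul_of_nonneg_left h3 (mul_pos hAα hBβ).le
    refine le_trans (le_of_eq ?_) h4
    field_simp
  have hc1 : Continuous fun x => F x ^ α * G x ^ β :=
    (hF.rpow_const fun x => Or.inl (hF0 x).ne').mul (hG.rpow_const fun x => Or.inl (hG0 x).ne')
  have hc2 : Continuous fun x => A ^ α * B ^ β * (α * (F x / A) + β * (G x / B)) :=
    continuous_const.mul ((continuous_const.mul (hF.div_const _)).add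
      (continuous_const.mul (hG.div_const _)))
  have h5 := intervalIntegral.integral_mono_on (μ := volume) hab (hc1.intervalIntegrable a b)
    (hc2.intervalIntegrable a b) (fun x _ => hp x)
  have h6 : ∫ x in a..b, A ^ α * B ^ β * (α * (F x / A) + β * (G x / B)) =
      A ^ α * B ^ β * (α * ((∫ x in a..b, F x) / A) + β * ((∫ x in a..b, G x) / B)) := by
    have i1 : IntervalIntegrable (fun x => α * (F x / A)) volume a b :=
      (continuous_const.mul (hF.div_const _)).intervalIntegrable a b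
    have i2 : IntervalIntegrable (fun x => β * (G x / B)) volume a b :=
      (continuous_const.mul (hG.div_const _)).intervalIntegrable a b
    rw [intervalIntegral.integral_const_mul, intervalIntegral.integral_add i1 i2,
      intervalIntegral.integral_const_mul, intervalIntegral.integral_const_mul,
      intervalIntegral.integral_div, intervalIntegral.integral_div]
  rw [h6] at h5
  refine h5.trans ?_
  have hAB : 0 ≤ A ^ α * B ^ β := by positivity
  have h7 : (∫ x in a..b, F x) / A ≤ 1 := (div_le_one hA).2 h1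
  have h8 : (∫ x in a..b, G x) / B ≤ 1 := (div_le_one hB).2 h2
  have h9 : α * ((∫ x in a..b, F x) / A) + β * ((∫ x in a..b, G x) / B) ≤ 1 := by
    nlinarith
  calc A ^ α * B ^ β * (α * ((∫ x in a..b, F x) / A) + β * ((∫ x in a..b, G x) / B))
      ≤ A ^ α * B ^ β * 1 := mul_le_mul_of_nonneg_left h9 hAB
    _ = _ := mul_one _

end Pool.Agent.H64.BR
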