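import Pool.Agent.H64.BR.Stm

set_option autoImplicit false

/-! # BR-GAM -/

namespace Pool.Agent.H64.BR

open Metric Set Filter Topology MeasureTheory

theorem gam_exp {y : ℝ} (hy : 0 < y) : Real.exp (-y) < 1 :=
  (Real.exp_lt_exp.2 (by linarith : -y < 0)).trans_eq Real.exp_zero

theorem gam_wt {x y : ℝ} (hy : 0 < y) (hx0 : 0 < x) (hx : x ≤ Real.exp (-y)) :
    x / (1 - x) ^ 2 ≤ 1 / y ^ 2 := by
  have h1 : Real.exp (-y) < 1 := gam_exp hy
  have h2 : y / 2 ≤ Real.sinh (y / 2) := Real.self_le_sinh_iff.2 (by linarith)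
  rw [Real.sinh_eq] at h2
  have h3 : y * Real.exp (-(y / 2)) ≤ 1 - Real.exp (-y) := by
    have e1 : Real.exp (y / 2) * Real.exp (-(y / 2)) = 1 := by
      rw [← Real.exp_add]; simp
    have e2 : Real.exp (-(y / 2)) * Real.exp (-(y / 2)) = Real.exp (-y) := by
      rw [← Real.exp_add]; congr 1; ring
    have e3 : y ≤ Real.exp (y / 2) - Real.exp (-(y / 2)) := by linarith
    calc y * Real.exp (-(y / 2)) ≤ (Real.exp (y / 2) - Real.exp (-(y / 2))) *
        Real.exp (-(y / 2)) := mul_le_mul_of_nonneg_right e3 (Real.exp_pos _).le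
      _ = 1 - Real.exp (-y) := by rw [sub_mul, e1, e2]
  have h4 : x * y ^ 2 ≤ (1 - x) ^ 2 := by
    have e2 : Real.exp (-(y / 2)) * Real.exp (-(y / 2)) = Real.exp (-y) := by
      rw [← Real.exp_add]; congr 1; ring
    calc x * y ^ 2 ≤ Real.exp (-y) * y ^ 2 := mul_le_mul_of_nonneg_right hx (by positivity)
      _ = (y * Real.exp (-(y / 2))) ^ 2 := by rw [← e2]; ring
      _ ≤ (1 - Real.exp (-y)) ^ 2 := pow_le_pow_left₀ (by positivity) h3 2
      _ ≤ (1 - x) ^ 2 := pow_le_pow_left₀ (by linarith) (by linarith) 2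
  rw [div_le_div_iff₀ (by nlinarith [sq_nonneg (1 - x)] : (0 : ℝ) < (1 - x) ^ 2) (by positivity)]
  linarith

theorem gam (L : S_LAP) : S_GAM := by
  intro σ T hσ hIn ρ hρ M
  set g : ℕ → ℝ := fun m => ‖T 0 m‖ ^ 2 with hg
  set τ : ℝ := ∑' m : ℕ, ρ ^ (m + M) * g (m + M) with hτ
  have hg0 : ∀ m, 0 ≤ g m := fun m => by simp only [hg]; positivity
  have main := L (Σ _ : ℕ, ℕ) (Option ℕ) ((Finset.range M).sigma fun m => Finset.Icc 1 m)
    (Finset.insertNone (Finset.range M))
    (fun i => ρ ^ i.1 * (i.2 * ‖T i.2 i.1‖ ^ 2)) (fun i => (i.1 : ℝ) + 1 - i.2)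
    (fun j => j.elim τ fun m => ρ ^ m * g m) (fun j => j.elim 1 fun m => (m : ℝ) + 1) σ hσ
    (by
      rintro ⟨m, n⟩ h
      rw [Finset.mem_sigma, Finset.mem_Icc] at h
      have : (n : ℝ) ≤ m := by exact_mod_cast h.2.2
      simp only
      linarith)
    (by
      rintro (_ | m) _
      · exact one_pos
      · simp only [Option.elim]
        positivity)
    (by
      intro y hy
      have hx1 : ρ * Real.exp (-y) ≤ Real.exp (-y) :=
        mul_le_of_le_one_left (Real.exp_pos _).le hρ.2.le
      have hx2 : ρ * Real.exp (-y) < 1 := hx1.trans_lt (gam_exp hy)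
      have hx3 : ρ * Real.exp (-y) ≤ ρ :=
        mul_le_of_le_one_right hρ.1.le (gam_exp hy).le
      set x : ℝ := ρ * Real.exp (-y) with hx
      have hx0 : 0 < x := mul_pos hρ.1 (Real.exp_pos _)
      obtain ⟨hsum, hineq⟩ := hIn x ⟨hx0, hx2⟩
      have hsumρ := (hIn ρ hρ).1
      have h1 := hineq M M
      have hxp : ∀ m : ℕ, x ^ m = ρ ^ m * Real.exp (-(m * y)) := by
        intro m
        rw [hx, mul_pow, ← Real.exp_nat_mul]
        congr 2
        ring
      -- the left side
      have h2 : ∑ i ∈ (Finset.range M).sigma fun m => Finset.Icc 1 m,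
          ρ ^ i.1 * (i.2 * ‖T i.2 i.1‖ ^ 2) * Real.exp (-(((i.1 : ℝ) + 1 - i.2) * y)) ≤
          Real.exp (-y) * ∑ n ∈ Finset.range M, (n : ℝ) *
            ∑ p ∈ Finset.range M, x ^ p * ‖T n (n + p)‖ ^ 2 := by
        rw [Finset.sum_sigma]
        rw [Finset.sum_comm' (t' := Finset.Ico 1 M) (s' := fun n => Finset.Ico n M) (by
          intro a b
          simp only [Finset.mem_range, Finset.mem_Icc, Finset.mem_Ico]
          omega)]
        rw [Finset.mul_sum]
        refine (Finset.sum_le_sum fun n _ => ?_).trans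
          (Finset.sum_le_sum_of_subset_of_nonneg (t := Finset.range M)
            (f := fun n : ℕ => Real.exp (-y) * ((n : ℝ) *
              ∑ p ∈ Finset.range M, x ^ p * ‖T n (n + p)‖ ^ 2)) ?_ ?_)
        · rw [Finset.sum_Ico_eq_sum_range, Finset.mul_sum, Finset.mul_sum]
          refine (Finset.sum_le_sum fun p _ => ?_).trans
            (Finset.sum_le_sum_of_subset_of_nonneg (t := Finset.range M)
              (f := fun p : ℕ => Real.exp (-y) * ((n : ℝ) * (x ^ p * ‖T n (n + p)‖ ^ 2))) ?_ ?_)
          · simp only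
            have e1 : Real.exp (-((((n + p : ℕ) : ℝ) + 1 - n) * y)) =
                Real.exp (-y) * Real.exp (-(p * y)) := by
              rw [← Real.exp_add]
              congr 1
              push_cast
              ring
            have e2 : ρ ^ (n + p) ≤ ρ ^ p :=
              pow_le_pow_of_le_one hρ.1.le hρ.2.le (Nat.le_add_left p n)
            rw [e1, hxp p]
            calc ρ ^ (n + p) * (↑n * ‖T n (n + p)‖ ^ 2) * (Real.exp (-y) * Real.exp (-(p * y)))
                ≤ ρ ^ p * (↑n * ‖T n (n + p)‖ ^ 2) * (Real.exp (-y) * Real.exp (-(p * y))) := by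
                  gcongr
              _ = _ := by ring
          · exact Finset.range_mono (Nat.sub_le _ _)
          · intro p _ _
            positivity
        · intro n hn
          rw [Finset.mem_Ico] at hn
          exact Finset.mem_range.2 hn.2
        · intro n _ _
          positivity
      -- the right side
      have h3 : ∑' m : ℕ, x ^ m * g m ≤
          ∑ m ∈ Finset.range M, ρ ^ m * g m * Real.exp (-(m * y)) + τ := by
        rw [← hsum.sum_add_tsum_nat_add M]
        apply add_le_add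
        · apply le_of_eq
          apply Finset.sum_congr rfl
          intro m _
          rw [hxp m]
          ring
        · rw [hτ]
          apply Summable.tsum_le_tsum
          · intro m
            exact mul_le_mul_of_nonneg_right (pow_le_pow_left₀ hx0.le hx3 _) (hg0 _)
          · exact (summable_nat_add_iff M).2 hsum
          · exact (summable_nat_add_iff M).2 hsumρ
      have h4 : ∑ j ∈ Finset.insertNone (Finset.range M),
          (j.elim τ fun m => ρ ^ m * g m) * Real.exp (-((j.elim 1 fun m => (m : ℝ) + 1) * y)) =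
          Real.exp (-y) * (∑ m ∈ Finset.range M, ρ ^ m * g m * Real.exp (-(m * y)) + τ) := by
        rw [Finset.sum_insertNone, mul_add, Finset.mul_sum, add_comm]
        congr 1
        · apply Finset.sum_congr rfl
          intro m _
          simp only [Option.elim]
          have : Real.exp (-(((m : ℝ) + 1) * y)) = Real.exp (-y) * Real.exp (-(m * y)) := by
            rw [← Real.exp_add]
            congr 1
            ring
          rw [this]
          ring
        · simp only [Option.elim, one_mul]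
          ring
      rw [h4]
      have hS : 0 ≤ ∑' m : ℕ, x ^ m * g m :=
        tsum_nonneg fun m => mul_nonneg (pow_nonneg hx0.le _) (hg0 _)
      calc _ ≤ Real.exp (-y) * ∑ n ∈ Finset.range M, (n : ℝ) *
            ∑ p ∈ Finset.range M, x ^ p * ‖T n (n + p)‖ ^ 2 := h2
        _ ≤ Real.exp (-y) * (x / (1 - x) ^ 2 * ∑' m : ℕ, x ^ m * g m) :=
            mul_le_mul_of_nonneg_left h1 (Real.exp_pos _).le
        _ ≤ Real.exp (-y) * (1 / y ^ 2 *
            (∑ m ∈ Finset.range M, ρ ^ m * g m * Real.exp (-(m * y)) + τ)) := by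
            apply mul_le_mul_of_nonneg_left _ (Real.exp_pos _).le
            exact mul_le_mul (gam_wt hy hx0 hx1) h3 hS (by positivity)
        _ = _ := by ring)
  rw [Finset.sum_sigma, Finset.sum_insertNone] at main
  simp only [Option.elim, Real.one_rpow, div_one] at main
  have e1 : ∑ m ∈ Finset.range M, ρ ^ m * ∑ n ∈ Finset.Icc 1 m,
      (n : ℝ) / ((m : ℝ) + 1 - n) ^ (σ + 2) * ‖T n m‖ ^ 2 =
      ∑ m ∈ Finset.range M, ∑ n ∈ Finset.Icc 1 m,
        ρ ^ m * (n * ‖T n m‖ ^ 2) / ((m : ℝ) + 1 - n) ^ (σ + 2) := by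
    apply Finset.sum_congr rfl
    intro m _
    rw [Finset.mul_sum]
    apply Finset.sum_congr rfl
    intro n _
    ring
  have e2 : ∑ m ∈ Finset.range M, ρ ^ m * (‖T 0 m‖ ^ 2 / ((m : ℝ) + 1) ^ σ) =
      ∑ m ∈ Finset.range M, ρ ^ m * g m / ((m : ℝ) + 1) ^ σ := by
    apply Finset.sum_congr rfl
    intro m _
    simp only [hg]
    ring
  rw [e1, e2]
  linarith

end Pool.Agent.H64.BR
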