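import Pool.Agent.H64.BR.StmB
import Pool.Agent.H64.G.R_seed8.Helper240.ZFM.B1

set_option autoImplicit false

/-! # BX-GRO: the lower growth bound, from Koebe's quarter theorem -/

namespace Pool.Agent.H64.BR.GRO

open Complex Filter Topology Set Metric ZFM

/-- **Koebe's quarter theorem** (copy of `ZFM.koebe_quarter`, library, `Helper240/ZFM/Q2b`). -/
theorem koebe_quarter {G : ℂ → ℂ} (hd : DifferentiableOn ℂ G (ball 0 1)) (hi : InjOn G (ball 0 1))
    (h0 : G 0 = 0) {v : ℂ} (hv : ∀ z ∈ ball (0 : ℂ) 1, G z ≠ v) : ‖deriv G 0‖ ≤ 4 * ‖v‖ := by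
  have h0b : (0:ℂ) ∈ ball (0:ℂ) 1 := mem_ball_self one_pos
  have hv0 : v ≠ 0 := fun h => hv 0 h0b (by rw [h0, h])
  have hvG : ∀ z ∈ ball (0:ℂ) 1, v - G z ≠ 0 := fun z hz h => hv z hz (sub_eq_zero.mp h).symm
  have hGd : ∀ z ∈ ball (0:ℂ) 1, HasDerivAt G (deriv G z) z := fun z hz =>
    (hd.differentiableAt (isOpen_ball.mem_nhds hz)).hasDerivAt
  have hGd2 : HasDerivAt (deriv G) (deriv (deriv G) 0) 0 :=
    ((hd.deriv isOpen_ball).differentiableAt (isOpen_ball.mem_nhds h0b)).hasDerivAt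
  have hH1 : ∀ z ∈ ball (0:ℂ) 1, HasDerivAt (fun z => v * G z / (v - G z))
      (v ^ 2 * deriv G z / (v - G z) ^ 2) z := by
    intro z hz
    have h1 : HasDerivAt (fun z => v * G z) (v * deriv G z) z := (hGd z hz).const_mul v
    have h2 : HasDerivAt (fun z => v - G z) (-deriv G z) z := (hGd z hz).const_sub v
    have h3 := h1.div h2 (hvG z hz)
    have e : v ^ 2 * deriv G z / (v - G z) ^ 2 =
        (v * deriv G z * (v - G z) - v * G z * (-deriv G z)) / (v - G z) ^ 2 := by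
      congr 1
      ring
    rw [e]
    exact h3
  have hHd : DifferentiableOn ℂ (fun z => v * G z / (v - G z)) (ball 0 1) := fun z hz =>
    (hH1 z hz).differentiableAt.differentiableWithinAt
  have hHi : InjOn (fun z => v * G z / (v - G z)) (ball 0 1) := by
    intro x hx y hy hxy
    have hxy' : v * G x / (v - G x) = v * G y / (v - G y) := hxy
    rw [div_eq_div_iff (hvG x hx) (hvG y hy)] at hxy'
    have h1 : v ^ 2 * G x = v ^ 2 * G y := by linear_combination hxy'
    exact hi hx hy (mul_left_cancel₀ (pow_ne_zero 2 hv0) h1)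
  have hH0 : deriv (fun z => v * G z / (v - G z)) 0 = deriv G 0 := by
    rw [(hH1 0 h0b).deriv, h0, sub_zero]
    field_simp
  have hev : deriv (fun z => v * G z / (v - G z)) =ᶠ[𝓝 0]
      fun z => v ^ 2 * deriv G z / (v - G z) ^ 2 := by
    filter_upwards [isOpen_ball.mem_nhds h0b] with z hz
    exact (hH1 z hz).deriv
  have hH2 : deriv (deriv (fun z => v * G z / (v - G z))) 0 =
      deriv (deriv G) 0 + 2 * deriv G 0 ^ 2 / v := by
    rw [hev.deriv_eq]
    have h1 : HasDerivAt (fun z => v ^ 2 * deriv G z) (v ^ 2 * deriv (deriv G) 0) 0 :=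
      hGd2.const_mul _
    have h2 : HasDerivAt (fun z => v - G z) (-deriv G 0) 0 := (hGd 0 h0b).const_sub v
    have h3 : HasDerivAt (fun z => (v - G z) ^ 2) (2 * (v - G 0) * (-deriv G 0)) 0 := by
      have := h2.fun_pow 2
      simpa using this
    have h4 := h1.div h3 (pow_ne_zero 2 (hvG 0 h0b))
    have h5 : HasDerivAt (fun z => v ^ 2 * deriv G z / (v - G z) ^ 2)
        ((v ^ 2 * deriv (deriv G) 0 * (v - G 0) ^ 2 -
          v ^ 2 * deriv G 0 * (2 * (v - G 0) * (-deriv G 0))) / ((v - G 0) ^ 2) ^ 2) 0 := h4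
    rw [h5.deriv, h0, sub_zero]
    field_simp
    ring
  have k1 := koebe_second hd hi h0b
  have k2 := koebe_second hHd hHi h0b
  rw [hH0, hH2] at k2
  simp only [norm_zero, map_zero, mul_zero, zero_mul, sub_zero] at k1 k2
  have e1 : ((1 - (0:ℝ) ^ 2 : ℝ) : ℂ) = 1 := by norm_num
  rw [e1, mul_one] at k1 k2
  have k3 : ‖2 * deriv G 0 ^ 2 / v‖ ≤ 8 * ‖deriv G 0‖ := by
    have e2 : 2 * deriv G 0 ^ 2 / v =
        (deriv (deriv G) 0 + 2 * deriv G 0 ^ 2 / v) - deriv (deriv G) 0 := by ring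
    rw [e2]
    refine (norm_sub_le _ _).trans ?_
    linarith
  rw [norm_div, norm_mul, norm_pow, Complex.norm_ofNat, div_le_iff₀ (norm_pos_iff.mpr hv0)] at k3
  rcases (norm_nonneg (deriv G 0)).eq_or_lt with h | h
  · rw [← h]
    positivity
  · by_contra hcon
    push Not at hcon
    nlinarith



end Pool.Agent.H64.BR.GRO

namespace Pool.Agent.H64.BR

open Metric Set

theorem gro : S_GRO := by
  intro f hd hi h0 h1 w hw
  rcases eq_or_ne w 0 with h | hw0
  · subst h
    simp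
  have hn : 0 < ‖w‖ := norm_pos_iff.2 hw0
  have hn1 : ‖w‖ < 1 := mem_ball_zero_iff.1 hw
  have hmem : ∀ z ∈ ball (0 : ℂ) 1, (‖w‖ : ℂ) * z ∈ ball (0 : ℂ) 1 := by
    intro z hz
    rw [mem_ball_zero_iff] at hz ⊢
    rw [norm_mul, Complex.norm_real, norm_norm]
    nlinarith [norm_nonneg z]
  have hlt : ∀ z ∈ ball (0 : ℂ) 1, ‖(‖w‖ : ℂ) * z‖ < ‖w‖ := by
    intro z hz
    rw [mem_ball_zero_iff] at hz
    rw [norm_mul, Complex.norm_real, norm_norm]
    nlinarith [norm_nonneg z]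
  have hG : ∀ z ∈ ball (0 : ℂ) 1, HasDerivAt (fun z : ℂ => f ((‖w‖ : ℂ) * z))
      (deriv f ((‖w‖ : ℂ) * z) * (‖w‖ : ℂ)) z := by
    intro z hz
    have a1 : HasDerivAt f (deriv f ((‖w‖ : ℂ) * z)) ((‖w‖ : ℂ) * z) :=
      (hd.differentiableAt (isOpen_ball.mem_nhds (hmem z hz))).hasDerivAt
    have a2 : HasDerivAt (fun z : ℂ => (‖w‖ : ℂ) * z) (‖w‖ : ℂ) z := by
      simpa using (hasDerivAt_id z).const_mul (‖w‖ : ℂ)
    exact HasDerivAt.comp z a1 a2
  have hk := GRO.koebe_quarter (G := fun z : ℂ => f ((‖w‖ : ℂ) * z))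
    (fun z hz => (hG z hz).differentiableAt.differentiableWithinAt)
    (by
      intro x hx y hy hxy
      have := hi (hmem x hx) (hmem y hy) hxy
      exact mul_left_cancel₀ (by exact_mod_cast hn.ne') this)
    (by simp [h0]) (v := f w) (by
      intro z hz h
      have a1 := hi (hmem z hz) hw h
      have a2 := hlt z hz
      rw [a1] at a2
      exact lt_irrefl _ a2)
  rw [(hG 0 (mem_ball_self one_pos)).deriv, mul_zero, h1, one_mul, Complex.norm_real,
    norm_norm] at hk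
  exact hk

end Pool.Agent.H64.BR
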