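import Pool.Agent.H64.BR.Stm

set_option autoImplicit false

/-! # BR-LAP -/

namespace Pool.Agent.H64.BR

open Metric Set Filter Topology MeasureTheory

theorem lap_int (p r : ℝ) (hp : 0 < p) (hr : 0 < r) :
    IntegrableOn (fun y : ℝ => y ^ (p - 1) * Real.exp (-(r * y))) (Ioi 0) := by
  by_contra h
  have h1 := Real.integral_rpow_mul_exp_neg_mul_Ioi hp hr
  rw [integral_undef h] at h1
  have h2 : 0 < (1 / r) ^ p * Real.Gamma p :=
    mul_pos (Real.rpow_pos_of_pos (by positivity) _) (Real.Gamma_pos_of_pos hp)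
  linarith

theorem lap : S_LAP := by
  intro ι κ s t a b c d σ hσ hb hd h
  have e1 : ∀ i ∈ s, IntegrableOn (fun y : ℝ => a i * (y ^ (σ + 2 - 1) * Real.exp (-(b i * y))))
      (Ioi 0) := fun i hi => (lap_int (σ + 2) (b i) (by linarith) (hb i hi)).const_mul _
  have e2 : ∀ j ∈ t, IntegrableOn (fun y : ℝ => c j * (y ^ (σ - 1) * Real.exp (-(d j * y))))
      (Ioi 0) := fun j hj => (lap_int σ (d j) hσ (hd j hj)).const_mul _
  have h1 : ∫ y in Ioi (0 : ℝ), ∑ i ∈ s, a i * (y ^ (σ + 2 - 1) * Real.exp (-(b i * y))) ≤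
      ∫ y in Ioi (0 : ℝ), ∑ j ∈ t, c j * (y ^ (σ - 1) * Real.exp (-(d j * y))) := by
    apply setIntegral_mono_on (integrable_finsetSum _ e1) (integrable_finsetSum _ e2)
      measurableSet_Ioi
    intro y hy
    have hy0 : (0 : ℝ) < y := hy
    have e3 : ∑ i ∈ s, a i * (y ^ (σ + 2 - 1) * Real.exp (-(b i * y))) =
        y ^ (σ - 1) * y ^ 2 * ∑ i ∈ s, a i * Real.exp (-(b i * y)) := by
      rw [Finset.mul_sum]
      apply Finset.sum_congr rfl
      intro i _
      have : y ^ (σ + 2 - 1) = y ^ (σ - 1) * y ^ 2 := by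
        rw [← Real.rpow_two, ← Real.rpow_add hy0]
        congr 1
        ring
      rw [this]
      ring
    have e4 : ∑ j ∈ t, c j * (y ^ (σ - 1) * Real.exp (-(d j * y))) =
        y ^ (σ - 1) * y ^ 2 * ((∑ j ∈ t, c j * Real.exp (-(d j * y))) / y ^ 2) := by
      rw [mul_assoc, mul_div_cancel₀ _ (by positivity), Finset.mul_sum]
      apply Finset.sum_congr rfl
      intro j _
      ring
    rw [e3, e4]
    exact mul_le_mul_of_nonneg_left (h y hy0) (by positivity)
  rw [integral_finsetSum _ e1, integral_finsetSum _ e2] at h1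
  have h2 : ∀ i ∈ s, ∫ y in Ioi (0 : ℝ), a i * (y ^ (σ + 2 - 1) * Real.exp (-(b i * y))) =
      Real.Gamma σ * (σ * (σ + 1) * (a i / (b i) ^ (σ + 2))) := by
    intro i hi
    rw [integral_const_mul, Real.integral_rpow_mul_exp_neg_mul_Ioi (by linarith) (hb i hi)]
    have g1 : Real.Gamma (σ + 2) = (σ + 1) * (σ * Real.Gamma σ) := by
      rw [← Real.Gamma_add_one hσ.ne', ← Real.Gamma_add_one (by linarith : σ + 1 ≠ 0)]
      congr 1
      ring
    rw [g1, Real.div_rpow zero_le_one (hb i hi).le, Real.one_rpow]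
    ring
  have h3 : ∀ j ∈ t, ∫ y in Ioi (0 : ℝ), c j * (y ^ (σ - 1) * Real.exp (-(d j * y))) =
      Real.Gamma σ * (c j / (d j) ^ σ) := by
    intro j hj
    rw [integral_const_mul, Real.integral_rpow_mul_exp_neg_mul_Ioi hσ (hd j hj),
      Real.div_rpow zero_le_one (hd j hj).le, Real.one_rpow]
    ring
  rw [Finset.sum_congr rfl h2, Finset.sum_congr rfl h3, ← Finset.mul_sum, ← Finset.mul_sum,
    ← Finset.mul_sum] at h1
  exact le_of_mul_le_mul_left h1 (Real.Gamma_pos_of_pos hσ)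

end Pool.Agent.H64.BR
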