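import Mathlib

set_option autoImplicit false

/-! # Statements: polar coordinates and the growth theorem -/

namespace Pool.Agent.H64.BR

open Metric Set Filter Topology MeasureTheory

/-- BX-POL: area integrals over the annulus from the circle integrals -/
def S_POL : Prop :=
  ∀ (F : ℂ → ℝ) (A κ : ℝ), ContinuousOn F {z : ℂ | 1 < ‖z‖} → (∀ z : ℂ, 1 < ‖z‖ → 0 ≤ F z) →
    0 ≤ κ → κ < 1 →
    (∀ R ∈ Ioo (1 : ℝ) 2, ∫ θ in (0 : ℝ)..(2 * Real.pi),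
      F ((R : ℂ) * Complex.exp ((θ : ℂ) * Complex.I)) ≤ A * (R - 1) ^ (-κ)) →
    ∫⁻ z in {z : ℂ | 1 < ‖z‖ ∧ ‖z‖ < 2}, ENNReal.ofReal (F z) ≤ ENNReal.ofReal (2 * A / (1 - κ))

/-- BX-POLD: area integrals over the disc from the circle integrals -/
def S_POLD : Prop :=
  ∀ (F : ℂ → ℝ) (A κ : ℝ), ContinuousOn F (ball (0 : ℂ) 1) → (∀ z ∈ ball (0 : ℂ) 1, 0 ≤ F z) →
    0 ≤ κ → κ < 1 →
    (∀ r ∈ Ioo (0 : ℝ) 1, ∫ θ in (0 : ℝ)..(2 * Real.pi),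
      F (circleMap 0 r θ) ≤ A * (1 - r) ^ (-κ)) →
    ∫⁻ z in ball (0 : ℂ) 1, ENNReal.ofReal (F z) ≤ ENNReal.ofReal (A / (1 - κ))

/-- BX-GRO: the lower growth bound for normalised univalent functions (from Koebe's theorem) -/
def S_GRO : Prop :=
  ∀ f : ℂ → ℂ, DifferentiableOn ℂ f (ball 0 1) → InjOn f (ball 0 1) → f 0 = 0 → deriv f 0 = 1 →
    ∀ w ∈ ball (0 : ℂ) 1, ‖w‖ ≤ 4 * ‖f w‖

end Pool.Agent.H64.BR
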