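import Pool.Agent.H64.BR.Fin
import Pool.Agent.H64.BR.StmB

set_option autoImplicit false

/-! # Consequences for the exterior maps -/

namespace Pool.Agent.H64.BR

open Metric Set Filter Topology MeasureTheory
open Pool.Agent.W677.Mar Pool.Agent.W5h41.MA Pool.Agent.R250.MC

/-- the point of the circle -/
noncomputable def cp (R θ : ℝ) : ℂ := (R : ℂ) * Complex.exp ((θ : ℂ) * Complex.I)

theorem norm_cp {R : ℝ} (hR : 0 < R) (θ : ℝ) : ‖cp R θ‖ = R := by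
  unfold cp
  rw [norm_mul, Complex.norm_real, Real.norm_of_nonneg hR.le, Complex.norm_exp_ofReal_mul_I, mul_one]

theorem continuous_cp (R : ℝ) : Continuous (cp R) := by
  unfold cp
  fun_prop

/-- `R² / (R² - 1)` -/
theorem Q_ge {R : ℝ} (hR : 1 < R) : 1 < R ^ 2 / (R ^ 2 - 1) := by
  have hR2 : 0 < R ^ 2 - 1 := by nlinarith
  rw [lt_div_iff₀ hR2]
  linarith

theorem h_cont {ψ h : ℂ → ℂ} (S : IsSig ψ h) {R : ℝ} (hR : 1 < R) :
    Continuous fun θ : ℝ => h (cp R θ) :=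
  S.2.2.2.1.continuousOn.comp_continuous (continuous_cp R) fun θ => by
    show 1 < ‖cp R θ‖
    rw [norm_cp (by linarith)]
    exact hR

theorem deriv_rpow {ψ h : ℂ → ℂ} (S : IsSig ψ h) {z : ℂ} (hz : 1 < ‖z‖) (t : ℝ) :
    ‖deriv ψ z‖ ^ (-t) = Real.exp (-t * (h z).re) := by
  rw [← S.2.2.2.2.1 z hz, Complex.norm_exp, ← Real.exp_mul]
  congr 1
  ring

/-- the moments of order at most `-2` -/
theorem part_pow {C : ℝ} {ψ h : ℂ → ℂ} (S : IsSig ψ h) {R : ℝ} (hR : 1 < R)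
    (hC : ∫ θ in (0 : ℝ)..(2 * Real.pi), Real.exp (-2 * (h (cp R θ)).re) ≤
      C * (R ^ 2 / (R ^ 2 - 1)) ^ (9 / 8 : ℝ)) {t : ℝ} (ht : 2 ≤ t) :
    ∫ θ in (0 : ℝ)..(2 * Real.pi), ‖deriv ψ (cp R θ)‖ ^ (-t) ≤
      C * (R ^ 2 / (R ^ 2 - 1)) ^ (t - 7 / 8) := by
  have hz : ∀ θ, 1 < ‖cp R θ‖ := fun θ => by rw [norm_cp (by linarith)]; exact hR
  have hQ := Q_ge hR
  have hQ0 : 0 < R ^ 2 / (R ^ 2 - 1) := by linarith
  have hc := h_cont S hR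
  simp only [fun θ => deriv_rpow S (hz θ) t]
  have h1 : ∀ θ, Real.exp (-t * (h (cp R θ)).re) ≤
      (R ^ 2 / (R ^ 2 - 1)) ^ (t - 2) * Real.exp (-2 * (h (cp R θ)).re) := by
    intro θ
    have g := goluzin_ext S.sg hR (norm_cp (by linarith) θ)
    have g2 := (abs_le.1 ((Complex.abs_re_le_norm (h (cp R θ))).trans g)).1
    rw [Real.rpow_def_of_pos hQ0, ← Real.exp_add]
    apply Real.exp_le_exp.2
    nlinarith
  have h2 : ∫ θ in (0 : ℝ)..(2 * Real.pi), Real.exp (-t * (h (cp R θ)).re) ≤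
      ∫ θ in (0 : ℝ)..(2 * Real.pi),
        (R ^ 2 / (R ^ 2 - 1)) ^ (t - 2) * Real.exp (-2 * (h (cp R θ)).re) := by
    apply intervalIntegral.integral_mono_on (μ := volume) (by positivity)
    · apply Continuous.intervalIntegrable
      exact Real.continuous_exp.comp (continuous_const.mul (Complex.continuous_re.comp hc))
    · apply Continuous.intervalIntegrable
      exact continuous_const.mul
        (Real.continuous_exp.comp (continuous_const.mul (Complex.continuous_re.comp hc)))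
    · intro θ _
      exact h1 θ
  rw [intervalIntegral.integral_const_mul] at h2
  refine h2.trans ?_
  have h3 := mul_le_mul_of_nonneg_left hC (Real.rpow_nonneg hQ0.le (t - 2))
  refine h3.trans (le_of_eq ?_)
  rw [mul_left_comm, ← Real.rpow_add hQ0]
  congr 2
  ring

/-- the part of the integral of the question where `Re h` is very negative -/
theorem part_marshall {C : ℝ} (hC0 : 0 ≤ C) {ψ h : ℂ → ℂ} (S : IsSig ψ h) {R : ℝ} (hR : 1 < R)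
    (hC : ∫ θ in (0 : ℝ)..(2 * Real.pi), Real.exp (-2 * (h (cp R θ)).re) ≤
      C * (R ^ 2 / (R ^ 2 - 1)) ^ (9 / 8 : ℝ)) {a u : ℝ} (ha : 0 < a) (hau : a + 9 / 8 ≤ 2 * u) :
    ∫ θ in Ioc 0 (2 * Real.pi) ∩ {θ : ℝ | (h (cp R θ)).re ≤ -(u * Real.log (R ^ 2 / (R ^ 2 - 1)))},
      Real.exp (a * ‖h (cp R θ)‖ ^ 2 / Real.log (R ^ 2 / (R ^ 2 - 1))) ≤ C := by
  have hQ := Q_ge hR
  have hQ0 : 0 < R ^ 2 / (R ^ 2 - 1) := by linarith
  have hc := h_cont S hR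
  obtain ⟨Λ, hΛ⟩ : ∃ Λ, Λ = Real.log (R ^ 2 / (R ^ 2 - 1)) := ⟨_, rfl⟩
  have hΛ0 : 0 < Λ := by rw [hΛ]; exact Real.log_pos hQ
  rw [← hΛ]
  set E : Set ℝ := {θ : ℝ | (h (cp R θ)).re ≤ -(u * Λ)} with hE
  have hEm : MeasurableSet E :=
    (isClosed_le (Complex.continuous_re.comp hc) continuous_const).measurableSet
  have hc1 : Continuous fun θ : ℝ => Real.exp (a * ‖h (cp R θ)‖ ^ 2 / Λ) :=
    Real.continuous_exp.comp ((continuous_const.mul (hc.norm.pow 2)).div_const _)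
  have hc2 : Continuous fun θ : ℝ => Real.exp ((a - 2 * u) * Λ) * Real.exp (-2 * (h (cp R θ)).re) :=
    continuous_const.mul
      (Real.continuous_exp.comp (continuous_const.mul (Complex.continuous_re.comp hc)))
  have hi : ∀ F : ℝ → ℝ, Continuous F → IntegrableOn F (Ioc 0 (2 * Real.pi)) := fun F hF =>
    (hF.integrableOn_Icc (a := 0) (b := 2 * Real.pi)).mono_set Ioc_subset_Icc_self
  have h1 : ∫ θ in Ioc 0 (2 * Real.pi) ∩ E, Real.exp (a * ‖h (cp R θ)‖ ^ 2 / Λ) ≤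
      ∫ θ in Ioc 0 (2 * Real.pi) ∩ E,
        Real.exp ((a - 2 * u) * Λ) * Real.exp (-2 * (h (cp R θ)).re) := by
    apply setIntegral_mono_on ((hi _ hc1).mono_set inter_subset_left)
      ((hi _ hc2).mono_set inter_subset_left) (measurableSet_Ioc.inter hEm)
    intro θ hθ
    have hθ2 : (h (cp R θ)).re ≤ -(u * Λ) := hθ.2
    have g := goluzin_ext S.sg hR (norm_cp (by linarith) θ)
    rw [← hΛ] at g
    rw [← Real.exp_add]
    apply Real.exp_le_exp.2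
    have g1 : a * ‖h (cp R θ)‖ ^ 2 / Λ ≤ a * Λ := by
      rw [div_le_iff₀ hΛ0]
      have g2 : ‖h (cp R θ)‖ ^ 2 ≤ Λ ^ 2 := pow_le_pow_left₀ (norm_nonneg _) g 2
      calc a * ‖h (cp R θ)‖ ^ 2 ≤ a * Λ ^ 2 := mul_le_mul_of_nonneg_left g2 ha.le
        _ = a * Λ * Λ := by ring
    linarith
  have h2 : ∫ θ in Ioc 0 (2 * Real.pi) ∩ E,
        Real.exp ((a - 2 * u) * Λ) * Real.exp (-2 * (h (cp R θ)).re) ≤
      ∫ θ in Ioc 0 (2 * Real.pi),
        Real.exp ((a - 2 * u) * Λ) * Real.exp (-2 * (h (cp R θ)).re) := by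
    apply setIntegral_mono_set (hi _ hc2)
    · exact Eventually.of_forall fun θ => by positivity
    · exact Eventually.of_forall inter_subset_left
  rw [← intervalIntegral.integral_of_le (by positivity), intervalIntegral.integral_const_mul] at h2
  refine (h1.trans h2).trans ?_
  have h3 := mul_le_mul_of_nonneg_left hC (Real.exp_pos ((a - 2 * u) * Λ)).le
  refine h3.trans ?_
  rw [Real.rpow_def_of_pos hQ0, ← hΛ, mul_left_comm, ← Real.exp_add]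
  have h4 : Real.exp ((a - 2 * u) * Λ + Λ * (9 / 8)) ≤ 1 := by
    rw [← Real.exp_zero]
    apply Real.exp_le_exp.2
    have : (a - 2 * u) * Λ + Λ * (9 / 8) = (a + 9 / 8 - 2 * u) * Λ := by ring
    rw [this]
    exact mul_nonpos_of_nonpos_of_nonneg (by linarith) hΛ0.le
  calc C * Real.exp ((a - 2 * u) * Λ + Λ * (9 / 8)) ≤ C * 1 := mul_le_mul_of_nonneg_left h4 hC0
    _ = C := mul_one C

theorem Q_le {R : ℝ} (hR : R ∈ Ioo (1 : ℝ) 2) : R ^ 2 / (R ^ 2 - 1) ≤ 2 * (R - 1)⁻¹ := by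
  have h1 : 0 < R - 1 := by linarith [hR.1]
  have hR2 : 0 < R ^ 2 - 1 := by nlinarith [hR.1]
  rw [← div_eq_mul_inv, div_le_div_iff₀ hR2 h1]
  have : R ^ 2 - 1 = (R - 1) * (R + 1) := by ring
  rw [this]
  have h2 : R ^ 2 ≤ 2 * (R + 1) := by nlinarith [hR.1, hR.2]
  nlinarith

/-- the moment of order `-91/50` -/
theorem part_mid {C₁ C₂ : ℝ} (hC1 : 0 ≤ C₁) (hC2 : 0 ≤ C₂) {ψ h : ℂ → ℂ} (S : IsSig ψ h) {R : ℝ}
    (hR : R ∈ Ioo (1 : ℝ) 2)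
    (h1 : ∫ θ in (0 : ℝ)..(2 * Real.pi), Real.exp (-1 * (h (cp R θ)).re) ≤
      C₁ * (R ^ 2 / (R ^ 2 - 1)) ^ (83 / 200 : ℝ))
    (h2 : ∫ θ in (0 : ℝ)..(2 * Real.pi), Real.exp (-2 * (h (cp R θ)).re) ≤
      C₂ * (R ^ 2 / (R ^ 2 - 1)) ^ (9 / 8 : ℝ)) :
    ∫ θ in (0 : ℝ)..(2 * Real.pi), ‖deriv ψ (cp R θ)‖ ^ (-(91 / 50) : ℝ) ≤
      (2 * ((C₁ + 1) ^ (9 / 50 : ℝ) * (C₂ + 1) ^ (41 / 50 : ℝ))) * (R - 1) ^ (-(2493 / 2500) : ℝ) := by
  have hR1 := hR.1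
  have hz : ∀ θ, 1 < ‖cp R θ‖ := fun θ => by rw [norm_cp (by linarith)]; exact hR1
  have hQ := Q_ge hR1
  have hQ0 : 0 < R ^ 2 / (R ^ 2 - 1) := by linarith
  have hc := h_cont S hR1
  have hF : ∀ c : ℝ, Continuous fun θ : ℝ => Real.exp (c * (h (cp R θ)).re) := fun c =>
    Real.continuous_exp.comp (continuous_const.mul (Complex.continuous_re.comp hc))
  have h3 := holder_int (F := fun θ => Real.exp (-1 * (h (cp R θ)).re))
    (G := fun θ => Real.exp (-2 * (h (cp R θ)).re)) (a := 0) (b := 2 * Real.pi)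
    (A := (C₁ + 1) * (R ^ 2 / (R ^ 2 - 1)) ^ (83 / 200 : ℝ))
    (B := (C₂ + 1) * (R ^ 2 / (R ^ 2 - 1)) ^ (9 / 8 : ℝ)) (α := 9 / 50) (β := 41 / 50)
    (by positivity) (hF _) (hF _) (fun _ => Real.exp_pos _) (fun _ => Real.exp_pos _)
    (by positivity) (by positivity) (by norm_num) (by norm_num) (by norm_num)
    (h1.trans (mul_le_mul_of_nonneg_right (by linarith) (by positivity)))
    (h2.trans (mul_le_mul_of_nonneg_right (by linarith) (by positivity)))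
  have h4 : ∀ θ, ‖deriv ψ (cp R θ)‖ ^ (-(91 / 50) : ℝ) =
      Real.exp (-1 * (h (cp R θ)).re) ^ (9 / 50 : ℝ) *
        Real.exp (-2 * (h (cp R θ)).re) ^ (41 / 50 : ℝ) := by
    intro θ
    rw [deriv_rpow S (hz θ), ← Real.exp_mul, ← Real.exp_mul, ← Real.exp_add]
    congr 1
    ring
  simp only [h4]
  refine h3.trans ?_
  rw [Real.mul_rpow (by positivity) (by positivity), Real.mul_rpow (by positivity) (by positivity),
    ← Real.rpow_mul hQ0.le, ← Real.rpow_mul hQ0.le]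
  have e1 : (C₁ + 1) ^ (9 / 50 : ℝ) * (R ^ 2 / (R ^ 2 - 1)) ^ (83 / 200 * (9 / 50) : ℝ) *
      ((C₂ + 1) ^ (41 / 50 : ℝ) * (R ^ 2 / (R ^ 2 - 1)) ^ (9 / 8 * (41 / 50) : ℝ)) =
      ((C₁ + 1) ^ (9 / 50 : ℝ) * (C₂ + 1) ^ (41 / 50 : ℝ)) *
        (R ^ 2 / (R ^ 2 - 1)) ^ (2493 / 2500 : ℝ) := by
    have : (2493 / 2500 : ℝ) = 83 / 200 * (9 / 50) + 9 / 8 * (41 / 50) := by norm_num
    rw [this, Real.rpow_add hQ0]
    ring
  rw [e1]
  have hR0 : 0 < R - 1 := by linarith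
  have h5 : (R ^ 2 / (R ^ 2 - 1)) ^ (2493 / 2500 : ℝ) ≤ 2 * (R - 1) ^ (-(2493 / 2500) : ℝ) := by
    have h6 := Real.rpow_le_rpow hQ0.le (Q_le hR) (by norm_num : (0 : ℝ) ≤ 2493 / 2500)
    refine h6.trans ?_
    rw [Real.mul_rpow (by norm_num) (by positivity), Real.inv_rpow hR0.le, ← Real.rpow_neg hR0.le]
    apply mul_le_mul_of_nonneg_right _ (by positivity)
    calc (2 : ℝ) ^ (2493 / 2500 : ℝ) ≤ 2 ^ (1 : ℝ) :=
          Real.rpow_le_rpow_of_exponent_le (by norm_num) (by norm_num)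
      _ = 2 := Real.rpow_one 2
  have h7 : 0 ≤ (C₁ + 1) ^ (9 / 50 : ℝ) * (C₂ + 1) ^ (41 / 50 : ℝ) := by positivity
  calc _ ≤ ((C₁ + 1) ^ (9 / 50 : ℝ) * (C₂ + 1) ^ (41 / 50 : ℝ)) *
        (2 * (R - 1) ^ (-(2493 / 2500) : ℝ)) := mul_le_mul_of_nonneg_left h5 h7
    _ = _ := by ring

/-- **All the consequences for the exterior maps.** -/
theorem sigma_all (A : S_ALL) (crit : 1 < (9 / 8 : ℝ) * (9 / 8 + 1) / 2 * ∫ v in (0 : ℝ)..1, phi (9 / 8) v)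
    (P : S_POL) :
    ∃ C : ℝ, 0 ≤ C ∧ ∀ ψ h : ℂ → ℂ, IsSig ψ h →
      (∀ R : ℝ, 1 < R → ∀ t : ℝ, 2 ≤ t →
        ∫ θ in (0 : ℝ)..(2 * Real.pi), ‖deriv ψ (cp R θ)‖ ^ (-t) ≤
          C * (R ^ 2 / (R ^ 2 - 1)) ^ (t - 7 / 8)) ∧
      (∀ R : ℝ, 1 < R → ∀ a u : ℝ, 0 < a → a + 9 / 8 ≤ 2 * u →
        ∫ θ in Ioc 0 (2 * Real.pi) ∩
            {θ : ℝ | (h (cp R θ)).re ≤ -(u * Real.log (R ^ 2 / (R ^ 2 - 1)))},
          Real.exp (a * ‖h (cp R θ)‖ ^ 2 / Real.log (R ^ 2 / (R ^ 2 - 1))) ≤ C) ∧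
      ∫⁻ z in {z : ℂ | 1 < ‖z‖ ∧ ‖z‖ < 2},
        ENNReal.ofReal (‖deriv ψ z‖ ^ (-(91 / 50) : ℝ)) ≤ ENNReal.ofReal C := by
  obtain ⟨C₁, hC10, hC1⟩ := minus_one
  obtain ⟨C₂, hC20, hC2⟩ := A (9 / 8) (by norm_num) (by norm_num) crit
  -- the two moments
  have m1 : ∀ ψ h : ℂ → ℂ, IsSig ψ h → ∀ R : ℝ, 1 < R →
      ∫ θ in (0 : ℝ)..(2 * Real.pi), Real.exp (-1 * (h (cp R θ)).re) ≤
        (C₁ * 2 ^ (83 / 200 : ℝ)) * (R ^ 2 / (R ^ 2 - 1)) ^ (83 / 200 : ℝ) := by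
    intro ψ h S R hR
    apply sig_moment (Φ := fun w => Real.exp (-1 * w.re)) (by norm_num) hC10
      (fun w => (Real.exp_pos _).le) _ S hR
    intro Y H S' r hr
    refine le_trans (le_of_eq ?_) (hC1 Y H S' r hr)
    congr 1
    apply intervalIntegral.integral_congr
    intro t _
    show Real.exp (-1 * (H (circleMap 0 r t)).re) = ‖Complex.exp (-H (circleMap 0 r t))‖
    rw [Complex.norm_exp, Complex.neg_re]
    congr 1
    ring
  have m2 : ∀ ψ h : ℂ → ℂ, IsSig ψ h → ∀ R : ℝ, 1 < R →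
      ∫ θ in (0 : ℝ)..(2 * Real.pi), Real.exp (-2 * (h (cp R θ)).re) ≤
        (C₂ * 2 ^ (9 / 8 : ℝ)) * (R ^ 2 / (R ^ 2 - 1)) ^ (9 / 8 : ℝ) := by
    intro ψ h S R hR
    apply sig_moment (Φ := fun w => Real.exp (-2 * w.re)) (by norm_num) hC20
      (fun w => (Real.exp_pos _).le) _ S hR
    intro Y H S' r hr
    refine le_trans (le_of_eq ?_) (hC2 Y H S' r hr)
    congr 1
    apply intervalIntegral.integral_congr
    intro t _
    show Real.exp (-2 * (H (circleMap 0 r t)).re) = ‖Complex.exp (-H (circleMap 0 r t))‖ ^ 2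
    rw [Complex.norm_exp, Complex.neg_re, ← Real.exp_nat_mul]
    congr 1
    push_cast
    ring
  obtain ⟨D₁, hD1⟩ : ∃ D, D = C₁ * 2 ^ (83 / 200 : ℝ) := ⟨_, rfl⟩
  obtain ⟨D₂, hD2⟩ : ∃ D, D = C₂ * 2 ^ (9 / 8 : ℝ) := ⟨_, rfl⟩
  rw [← hD1] at m1
  rw [← hD2] at m2
  have hD10 : 0 ≤ D₁ := by rw [hD1]; positivity
  have hD20 : 0 ≤ D₂ := by rw [hD2]; positivity
  obtain ⟨K, hK⟩ : ∃ K, K = 2 * (2 * ((D₁ + 1) ^ (9 / 50 : ℝ) * (D₂ + 1) ^ (41 / 50 : ℝ))) /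
    (1 - 2493 / 2500) := ⟨_, rfl⟩
  have hK0 : 0 ≤ K := by
    rw [hK]
    apply div_nonneg _ (by norm_num)
    positivity
  refine ⟨D₂ + K, by positivity, fun ψ h S => ⟨?_, ?_, ?_⟩⟩
  · intro R hR t ht
    have h1 := part_pow S hR (m2 ψ h S R hR) ht
    refine h1.trans (mul_le_mul_of_nonneg_right (by linarith) ?_)
    have := Q_ge hR
    positivity
  · intro R hR a u ha hau
    exact (part_marshall hD20 S hR (m2 ψ h S R hR) ha hau).trans (by linarith)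
  · have hcont : ContinuousOn (fun z : ℂ => ‖deriv ψ z‖ ^ (-(91 / 50) : ℝ)) {z : ℂ | 1 < ‖z‖} := by
      apply ContinuousOn.rpow_const
      · exact (S.1.deriv isOpen_ext).continuousOn.norm
      · intro z hz
        left
        rw [← S.2.2.2.2.1 z hz, norm_ne_zero_iff]
        exact Complex.exp_ne_zero _
    have h1 := P (fun z : ℂ => ‖deriv ψ z‖ ^ (-(91 / 50) : ℝ))
      (2 * ((D₁ + 1) ^ (9 / 50 : ℝ) * (D₂ + 1) ^ (41 / 50 : ℝ))) (2493 / 2500) hcont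
      (fun z _ => Real.rpow_nonneg (norm_nonneg _) _) (by norm_num) (by norm_num)
      (fun R hR => part_mid hD10 hD20 S hR (m1 ψ h S R hR.1) (m2 ψ h S R hR.1))
    refine h1.trans (ENNReal.ofReal_le_ofReal ?_)
    rw [← hK]
    linarith

end Pool.Agent.H64.BR
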