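import Pool.Agent.H64.BR.Stm
import Pool.Agent.H64.BR.Pars33

set_option autoImplicit false

namespace Pool.Agent.H64.BR

open Metric Set Filter Topology MeasureTheory

namespace MEANAux

/-- `r ^ m (m + 1) (1 - r) ≤ 1` -/
theorem pow_bound {r : ℝ} (h0 : 0 ≤ r) (h1 : r ≤ 1) (m : ℕ) :
    r ^ m * (((m : ℝ) + 1) * (1 - r)) ≤ 1 := by
  have h2 : ∀ k ∈ Finset.range (m + 1), r ^ m ≤ r ^ k := fun k hk =>
    pow_le_pow_of_le_one h0 h1 (Nat.lt_succ_iff.1 (Finset.mem_range.1 hk))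
  have h3 : ((m : ℝ) + 1) * r ^ m ≤ ∑ k ∈ Finset.range (m + 1), r ^ k := by
    calc ((m : ℝ) + 1) * r ^ m = ∑ k ∈ Finset.range (m + 1), r ^ m := by simp
      _ ≤ _ := Finset.sum_le_sum h2
  have h4 : (∑ k ∈ Finset.range (m + 1), r ^ k) * (1 - r) = 1 - r ^ (m + 1) := by
    have := geom_sum_mul r (m + 1)
    linarith
  have h5 : 0 ≤ r ^ (m + 1) := pow_nonneg h0 _
  have h6 := mul_le_mul_of_nonneg_right h3 (sub_nonneg.2 h1)
  nlinarith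

theorem coef_bound {r σ : ℝ} (h0 : 0 < r) (h1 : r < 1) (hσ : 0 < σ) (hσ2 : σ ≤ 2) (m : ℕ) :
    (r ^ 2) ^ m * (1 - r) ^ σ ≤ 5 * (((m : ℝ) + 1) ^ σ)⁻¹ := by
  have hm : 0 < ((m : ℝ) + 1) := by positivity
  have hm' : 0 < ((m : ℝ) + 1) ^ σ := Real.rpow_pos_of_pos hm _
  rw [← div_eq_mul_inv, le_div_iff₀ hm']
  set y : ℝ := ((m : ℝ) + 1) * (1 - r) with hy
  have hy0 : 0 < y := mul_pos hm (by linarith)
  have e1 : (r ^ 2) ^ m * (1 - r) ^ σ * ((m : ℝ) + 1) ^ σ = (r ^ m) ^ 2 * y ^ σ := by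
    rw [hy, Real.mul_rpow hm.le (by linarith), ← pow_mul, ← pow_mul, mul_comm 2 m]
    ring
  rw [e1]
  have h2 : r ^ m * y ≤ 1 := pow_bound h0.le h1.le m
  have h3 : 0 ≤ r ^ m := pow_nonneg h0.le m
  have h4 : r ^ m ≤ 1 := pow_le_one₀ h0.le h1.le
  have h5 : y ^ σ ≤ 1 + y ^ 2 := by
    rcases le_total y 1 with h | h
    · have := Real.rpow_le_one hy0.le h hσ.le
      nlinarith [sq_nonneg y]
    · have h6 : y ^ σ ≤ y ^ (2 : ℝ) := Real.rpow_le_rpow_of_exponent_le h hσ2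
      rw [Real.rpow_two] at h6
      linarith
  have h6 : 0 ≤ r ^ m * y := mul_nonneg h3 hy0.le
  calc (r ^ m) ^ 2 * y ^ σ ≤ (r ^ m) ^ 2 * (1 + y ^ 2) := by gcongr
    _ = (r ^ m) ^ 2 + (r ^ m * y) ^ 2 := by ring
    _ ≤ 1 + 1 := by
        have h7 : (r ^ m) ^ 2 ≤ 1 := pow_le_one₀ h3 h4
        have h8 : (r ^ m * y) ^ 2 ≤ 1 := pow_le_one₀ h6 h2
        linarith
    _ ≤ 5 := by norm_num

end MEANAux

open MEANAux in
theorem mean : S_MEAN := by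
  intro σ K a g hσ hσ2 hs hK r hr
  have hπ := Real.pi_pos
  have hP := parsN (h := g) (b := a) hr.1.le fun z hz =>
    hs z (by rw [mem_ball_zero_iff, hz]; exact hr.2)
  set I : ℝ := ∫ t in (0:ℝ)..(2 * Real.pi), ‖g (circleMap 0 r t)‖ ^ 2 with hI
  have h1 : (2 * Real.pi)⁻¹ * I * (1 - r) ^ σ ≤ 5 * K := by
    have h2 := hP.mul_right ((1 - r) ^ σ)
    refine le_of_tendsto h2.tendsto_sum_nat (Eventually.of_forall fun M => ?_)
    calc ∑ j ∈ Finset.range M, (r ^ 2) ^ j * ‖a j‖ ^ 2 * (1 - r) ^ σ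
        ≤ ∑ j ∈ Finset.range M, 5 * (‖a j‖ ^ 2 / ((j : ℝ) + 1) ^ σ) := by
          refine Finset.sum_le_sum fun j _ => ?_
          have := mul_le_mul_of_nonneg_left (coef_bound hr.1 hr.2 hσ hσ2 j) (sq_nonneg ‖a j‖)
          calc (r ^ 2) ^ j * ‖a j‖ ^ 2 * (1 - r) ^ σ = ‖a j‖ ^ 2 * ((r ^ 2) ^ j * (1 - r) ^ σ) := by
                ring
            _ ≤ ‖a j‖ ^ 2 * (5 * (((j : ℝ) + 1) ^ σ)⁻¹) := this
            _ = _ := by rw [div_eq_mul_inv]; ring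
      _ = 5 * ∑ j ∈ Finset.range M, ‖a j‖ ^ 2 / ((j : ℝ) + 1) ^ σ := by rw [Finset.mul_sum]
      _ ≤ 5 * K := by linarith [hK M]
  have h3 : I * (1 - r) ^ σ = 2 * Real.pi * ((2 * Real.pi)⁻¹ * I * (1 - r) ^ σ) := by
    field_simp
  rw [h3]
  exact mul_le_mul_of_nonneg_left h1 (by positivity)

end Pool.Agent.H64.BR
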