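import Pool.Agent.H64.BR.Stm

set_option autoImplicit false

/-! # BR-NUM: the numerical inequality (helper71)

`(1 + y) ^ (1 / 8)` is bounded below by a quadratic polynomial and `1 / (1 + w)` by a polynomial of
degree 5 (from the Chebyshev polynomial of degree 3). -/

namespace Pool.Agent.H64.BR

open MeasureTheory Set Filter Topology

namespace NumAux

theorem p_le {y : ℝ} (h0 : 0 ≤ y) (h1 : y ≤ 1) :
    (1 + 23 / 200 * y + -1 / 40 * y ^ 2) ^ 8 ≤ 1 + y := by
  obtain ⟨u, hu⟩ : ∃ u, u = 1 - y := ⟨_, rfl⟩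
  have hu0 : 0 ≤ u := by linarith
  have key : (1 + y) - (1 + 23 / 200 * y + -1 / 40 * y ^ 2) ^ 8 = y * (2 / 25 * y ^ 0 * u ^ 15 +
      10297 / 10000 * y ^ 1 * u ^ 14 +
      6091631 / 1000000 * y ^ 2 * u ^ 13 +
      3506288793 / 160000000 * y ^ 3 * u ^ 12 +
      2137307449599 / 40000000000 * y ^ 4 * u ^ 11 +
      1490092008054377 / 16000000000000 * y ^ 5 * u ^ 10 +
      190720224604954553 / 1600000000000000 * y ^ 6 * u ^ 9 +
      289970712763749961919 / 2560000000000000000 * y ^ 7 * u ^ 8 +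
      12780504481940046277 / 160000000000000000 * y ^ 8 * u ^ 7 +
      6636727147694053137 / 160000000000000000 * y ^ 9 * u ^ 6 +
      631824849146743371 / 40000000000000000 * y ^ 10 * u ^ 5 +
      73370673954789673 / 16000000000000000 * y ^ 11 * u ^ 4 +
      11877993725114419 / 10000000000000000 * y ^ 12 * u ^ 3 +
      3183950205979777 / 10000000000000000 * y ^ 13 * u ^ 2 +
      173945189454013 / 2500000000000000 * y ^ 14 * u ^ 1 +
      74373583098079 / 10000000000000000 * y ^ 15 * u ^ 0) := by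
    rw [hu]; ring
  have h2 : 0 ≤ y * (2 / 25 * y ^ 0 * u ^ 15 +
      10297 / 10000 * y ^ 1 * u ^ 14 +
      6091631 / 1000000 * y ^ 2 * u ^ 13 +
      3506288793 / 160000000 * y ^ 3 * u ^ 12 +
      2137307449599 / 40000000000 * y ^ 4 * u ^ 11 +
      1490092008054377 / 16000000000000 * y ^ 5 * u ^ 10 +
      190720224604954553 / 1600000000000000 * y ^ 6 * u ^ 9 +
      289970712763749961919 / 2560000000000000000 * y ^ 7 * u ^ 8 +
      12780504481940046277 / 160000000000000000 * y ^ 8 * u ^ 7 +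
      6636727147694053137 / 160000000000000000 * y ^ 9 * u ^ 6 +
      631824849146743371 / 40000000000000000 * y ^ 10 * u ^ 5 +
      73370673954789673 / 16000000000000000 * y ^ 11 * u ^ 4 +
      11877993725114419 / 10000000000000000 * y ^ 12 * u ^ 3 +
      3183950205979777 / 10000000000000000 * y ^ 13 * u ^ 2 +
      173945189454013 / 2500000000000000 * y ^ 14 * u ^ 1 +
      74373583098079 / 10000000000000000 * y ^ 15 * u ^ 0) := by positivity
  linarith

theorem r_le {w : ℝ} (hw : 0 ≤ w) :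
    9800 / 9801 + -9764 / 9801 * w + 9344 / 9801 * w ^ 2 + -7552 / 9801 * w ^ 3 +
      4096 / 9801 * w ^ 4 + -1024 / 9801 * w ^ 5 ≤ 1 / (1 + w) := by
  rw [le_div_iff₀ (by linarith)]
  have h : 1 - (9800 / 9801 + -9764 / 9801 * w + 9344 / 9801 * w ^ 2 + -7552 / 9801 * w ^ 3 +
      4096 / 9801 * w ^ 4 + -1024 / 9801 * w ^ 5) * (1 + w) =
      (32 * w ^ 3 - 48 * w ^ 2 + 18 * w - 1) ^ 2 / 9801 := by ring
  have h2 : 0 ≤ (32 * w ^ 3 - 48 * w ^ 2 + 18 * w - 1) ^ 2 / 9801 := by positivity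
  linarith

/-- coefficients -/
noncomputable def pc : Fin 3 → ℝ := ![1, 23 / 200, -1 / 40]

/-- coefficients -/
noncomputable def qc : Fin 6 → ℝ :=
  ![9800 / 9801, -9764 / 9801, 9344 / 9801, -7552 / 9801, 4096 / 9801, -1024 / 9801]

/-- the lower bound -/
noncomputable def F (y : ℝ) : ℝ :=
  ∑ j : Fin 3, ∑ k : Fin 6, pc j * qc k * y ^ (((j : ℕ) : ℝ) + 1 + 33 / 8 * ((k : ℕ) : ℝ))

theorem term_eq {y : ℝ} (hy : 0 ≤ y) (j k : ℕ) :
    y ^ ((j : ℝ) + 1 + 33 / 8 * (k : ℝ)) = y ^ (j + 1) * (y ^ (33 / 8 : ℝ)) ^ k := by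
  rw [Real.rpow_add_of_nonneg hy (by positivity) (by positivity), Real.rpow_mul_natCast hy]
  congr 1
  have : ((j : ℝ) + 1) = ((j + 1 : ℕ) : ℝ) := by push_cast; ring
  rw [this, Real.rpow_natCast]

theorem F_eq {y : ℝ} (hy : 0 ≤ y) :
    F y = y * (1 + 23 / 200 * y + -1 / 40 * y ^ 2) *
      (9800 / 9801 + -9764 / 9801 * y ^ (33 / 8 : ℝ) + 9344 / 9801 * (y ^ (33 / 8 : ℝ)) ^ 2 +
        -7552 / 9801 * (y ^ (33 / 8 : ℝ)) ^ 3 + 4096 / 9801 * (y ^ (33 / 8 : ℝ)) ^ 4 +
        -1024 / 9801 * (y ^ (33 / 8 : ℝ)) ^ 5) := by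
  unfold F
  simp only [term_eq hy]
  simp only [Fin.sum_univ_succ, Fin.sum_univ_zero, pc, qc]
  simp
  ring

theorem int_F : ∫ y in (0 : ℝ)..1, F y =
    ∑ j : Fin 3, ∑ k : Fin 6, pc j * qc k * (1 / (((j : ℕ) : ℝ) + 2 + 33 / 8 * ((k : ℕ) : ℝ))) := by
  have hc : ∀ (j : Fin 3) (k : Fin 6), Continuous fun y : ℝ =>
      pc j * qc k * y ^ (((j : ℕ) : ℝ) + 1 + 33 / 8 * ((k : ℕ) : ℝ)) := fun j k =>
    continuous_const.mul (Real.continuous_rpow_const (by positivity))
  unfold F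
  rw [intervalIntegral.integral_finsetSum fun j _ =>
    (continuous_finsetSum _ fun k _ => hc j k).intervalIntegrable _ _]
  refine Finset.sum_congr rfl fun j _ => ?_
  rw [intervalIntegral.integral_finsetSum fun k _ => (hc j k).intervalIntegrable _ _]
  refine Finset.sum_congr rfl fun k _ => ?_
  rw [intervalIntegral.integral_const_mul, integral_rpow (Or.inl (by
    have : (0 : ℝ) ≤ ((j : ℕ) : ℝ) + 1 + 33 / 8 * ((k : ℕ) : ℝ) := by positivity
    linarith)), Real.one_rpow, Real.zero_rpow (by positivity), sub_zero]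
  congr 2
  ring

end NumAux

open NumAux in
theorem num : S_NUM := by
  unfold S_NUM
  have e1 : ((9 / 8 : ℝ) - 1) = 1 / 8 := by norm_num
  have e2 : ((9 / 8 : ℝ) + 3) = 33 / 8 := by norm_num
  rw [e1, e2]
  have hFc : Continuous F := by
    unfold F
    exact continuous_finsetSum _ fun j _ => continuous_finsetSum _ fun k _ =>
      continuous_const.mul (Real.continuous_rpow_const (by positivity))
  have hf : ContinuousOn (fun y : ℝ => y * (1 + y) ^ (1 / 8 : ℝ) / (1 + y ^ (33 / 8 : ℝ)))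
      (uIcc 0 1) := by
    rw [uIcc_of_le zero_le_one]
    refine ContinuousOn.div ?_ ?_ ?_
    · exact (continuous_id.mul ((Real.continuous_rpow_const (by norm_num)).comp
        (continuous_const.add continuous_id))).continuousOn
    · exact (continuous_const.add (Real.continuous_rpow_const (by norm_num))).continuousOn
    · intro y hy
      have := Real.rpow_nonneg hy.1 (33 / 8 : ℝ)
      positivity
  have hle : ∫ y in (0 : ℝ)..1, F y ≤
      ∫ y in (0 : ℝ)..1, y * (1 + y) ^ (1 / 8 : ℝ) / (1 + y ^ (33 / 8 : ℝ)) := by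
    refine intervalIntegral.integral_mono_on zero_le_one (hFc.intervalIntegrable _ _)
      hf.intervalIntegrable fun y hy => ?_
    obtain ⟨h0, h1⟩ := hy
    rw [F_eq h0]
    have hw := Real.rpow_nonneg h0 (33 / 8 : ℝ)
    have hp : 0 ≤ 1 + 23 / 200 * y + -1 / 40 * y ^ 2 := by nlinarith
    have hp2 : 1 + 23 / 200 * y + -1 / 40 * y ^ 2 ≤ (1 + y) ^ (1 / 8 : ℝ) := by
      have h3 := Real.rpow_le_rpow (by positivity) (p_le h0 h1) (z := 1 / 8) (by norm_num)
      rw [← Real.rpow_natCast, ← Real.rpow_mul hp] at h3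
      norm_num at h3 ⊢
      exact h3
    calc _ ≤ y * (1 + 23 / 200 * y + -1 / 40 * y ^ 2) * (1 / (1 + y ^ (33 / 8 : ℝ))) :=
          mul_le_mul_of_nonneg_left (r_le hw) (mul_nonneg h0 hp)
      _ ≤ y * (1 + y) ^ (1 / 8 : ℝ) * (1 / (1 + y ^ (33 / 8 : ℝ))) :=
          mul_le_mul_of_nonneg_right (mul_le_mul_of_nonneg_left hp2 h0) (by positivity)
      _ = _ := by ring
  refine lt_of_lt_of_le ?_ (mul_le_mul_of_nonneg_left hle (by norm_num))
  rw [int_F]
  have p0 : pc 0 = 1 := rfl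
  have p1 : pc 1 = 23 / 200 := rfl
  have p2 : pc 2 = -1 / 40 := rfl
  have q0 : qc 0 = 9800 / 9801 := rfl
  have q1 : qc 1 = -9764 / 9801 := rfl
  have q2 : qc 2 = 9344 / 9801 := rfl
  have q3 : qc 3 = -7552 / 9801 := rfl
  have q4 : qc 4 = 4096 / 9801 := rfl
  have q5 : qc 5 = -1024 / 9801 := rfl
  rw [Fin.sum_univ_three, Fin.sum_univ_six, Fin.sum_univ_six, Fin.sum_univ_six, p0, p1, p2, q0, q1,
    q2, q3, q4, q5]
  norm_num

end Pool.Agent.H64.BR
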