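import Pool.Agent.H64.BR.Stm

set_option autoImplicit false

namespace Pool.Agent.H64.BR

theorem pair_two {w w' : ℝ} (h1 : 0 < w) (h2 : 0 < w') (a b : ℂ) :
    w * w' / (w + w') * ‖a + b‖ ^ 2 ≤ w * ‖a‖ ^ 2 + w' * ‖b‖ ^ 2 := by
  have h3 : ‖a + b‖ ≤ ‖a‖ + ‖b‖ := norm_add_le a b
  have h4 : ‖a + b‖ ^ 2 ≤ (‖a‖ + ‖b‖) ^ 2 := pow_le_pow_left₀ (norm_nonneg _) h3 2
  rw [div_mul_eq_mul_div, div_le_iff₀ (by positivity)]
  have h5 : w * w' * ‖a + b‖ ^ 2 ≤ w * w' * (‖a‖ + ‖b‖) ^ 2 := mul_le_mul_of_nonneg_left h4 (by positivity)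
  nlinarith [sq_nonneg (w * ‖a‖ - w' * ‖b‖)]

theorem weight {σ x y : ℝ} (hx : 0 < x) (hy : 0 < y) :
    x * y / (x ^ (σ + 3) + y ^ (σ + 3)) =
      x / y ^ (σ + 2) * (y / x ^ (σ + 2)) / (x / y ^ (σ + 2) + y / x ^ (σ + 2)) := by
  have e1 : x ^ (σ + 3) = x ^ (σ + 2) * x := by
    rw [← Real.rpow_add_one hx.ne']; congr 1; ring
  have e2 : y ^ (σ + 3) = y ^ (σ + 2) * y := by
    rw [← Real.rpow_add_one hy.ne']; congr 1; ring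
  have p1 : 0 < x ^ (σ + 2) := Real.rpow_pos_of_pos hx _
  have p2 : 0 < y ^ (σ + 2) := Real.rpow_pos_of_pos hy _
  rw [e1, e2]
  field_simp

theorem pair : S_PAIR := by
  intro σ m t G hσ ht
  have hrefl : ∀ f : ℕ → ℝ, ∑ n ∈ Finset.Icc 1 m, f (m + 1 - n) = ∑ n ∈ Finset.Icc 1 m, f n := by
    intro f
    refine Finset.sum_bij' (fun n _ => m + 1 - n) (fun n _ => m + 1 - n) ?_ ?_ ?_ ?_ ?_
    · intro a ha; rw [Finset.mem_Icc] at ha ⊢; omega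
    · intro a ha; rw [Finset.mem_Icc] at ha ⊢; omega
    · intro a ha; rw [Finset.mem_Icc] at ha; omega
    · intro a ha; rw [Finset.mem_Icc] at ha; omega
    · intro a ha; rfl
  have h2 := hrefl fun n => (n : ℝ) / ((m : ℝ) + 1 - n) ^ (σ + 2) * ‖t n‖ ^ 2
  have h3 : ∑ n ∈ Finset.Icc 1 m, (n : ℝ) * ((m : ℝ) + 1 - n) /
      ((n : ℝ) ^ (σ + 3) + ((m : ℝ) + 1 - n) ^ (σ + 3)) * ‖G‖ ^ 2 ≤
      ∑ n ∈ Finset.Icc 1 m, ((n : ℝ) / ((m : ℝ) + 1 - n) ^ (σ + 2) * ‖t n‖ ^ 2 +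
        ((m + 1 - n : ℕ) : ℝ) / ((m : ℝ) + 1 - (m + 1 - n : ℕ)) ^ (σ + 2) * ‖t (m + 1 - n)‖ ^ 2) := by
    refine Finset.sum_le_sum fun n hn => ?_
    rw [Finset.mem_Icc] at hn
    have hc : ((m + 1 - n : ℕ) : ℝ) = (m : ℝ) + 1 - n := by
      rw [Nat.cast_sub (by omega)]; push_cast; ring
    have hx : (0 : ℝ) < n := by exact_mod_cast hn.1
    have hy : (0 : ℝ) < (m : ℝ) + 1 - n := by
      have : (n : ℝ) ≤ m := by exact_mod_cast hn.2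
      linarith
    have hz : (m : ℝ) + 1 - ((m : ℝ) + 1 - n) = n := by ring
    rw [hc, hz, weight hx hy, ← ht n hn.1 hn.2]
    exact pair_two (by positivity) (by positivity) _ _
  rw [Finset.sum_add_distrib, ← Finset.sum_mul] at h3
  linarith [h2, h3]

end Pool.Agent.H64.BR
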