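import Pool.Agent.H64.BR.Stm

set_option autoImplicit false

namespace Pool.Agent.H64.BR

open Set

theorem phic : S_PHI := by
  intro σ hσ
  unfold phi
  refine ContinuousOn.div (by fun_prop) ?_ ?_
  · refine ContinuousOn.add ?_ ?_
    · exact (Real.continuous_rpow_const (by linarith)).continuousOn
    · exact ((Real.continuous_rpow_const (by linarith : (0:ℝ) ≤ σ + 3)).comp
        (continuous_const.sub continuous_id)).continuousOn
  · intro v hv
    have h1 : 0 ≤ v ^ (σ + 3) := Real.rpow_nonneg hv.1 _
    have h2 : 0 ≤ (1 - v) ^ (σ + 3) := Real.rpow_nonneg (by linarith [hv.2]) _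
    rcases hv.1.eq_or_lt with h | h
    · subst h
      have : (0 : ℝ) < (1 - 0) ^ (σ + 3) := Real.rpow_pos_of_pos (by norm_num) _
      linarith
    · have : (0 : ℝ) < v ^ (σ + 3) := Real.rpow_pos_of_pos h _
      linarith

end Pool.Agent.H64.BR
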