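import Pool.Agent.H64.BR.StmB

set_option autoImplicit false

namespace Pool.Agent.H64.BR

open Metric Set Filter Topology MeasureTheory

/-- polar coordinates for a radially defined set -/
theorem polar_le (F : ℂ → ℝ) (I : Set ℝ) (hI : MeasurableSet I)
    (hF : ContinuousOn F {z : ℂ | ‖z‖ ∈ I}) (B : ℝ → ENNReal)
    (h : ∀ r : ℝ, 0 < r → r ∈ I → ∫⁻ θ in Ioo (-Real.pi) Real.pi,
      ENNReal.ofReal (F ((r : ℂ) * Complex.exp ((θ : ℂ) * Complex.I))) ≤ B r) :
    ∫⁻ z in {z : ℂ | ‖z‖ ∈ I}, ENNReal.ofReal (F z) ≤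
      ∫⁻ r in I ∩ Ioi 0, ENNReal.ofReal r * B r := by
  set U : Set ℂ := {z : ℂ | ‖z‖ ∈ I} with hU
  have hUm : MeasurableSet U := hI.preimage continuous_norm.measurable
  classical
  set G : ℂ → ENNReal := U.piecewise (fun z => ENNReal.ofReal (F z)) (fun _ => 0) with hG
  have hGm : Measurable G :=
    ContinuousOn.measurable_piecewise
      (ENNReal.continuous_ofReal.comp_continuousOn hF) continuousOn_const hUm
  have h1 : ∫⁻ z in U, ENNReal.ofReal (F z) = ∫⁻ z, G z := by
    rw [← lintegral_indicator hUm]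
    refine lintegral_congr fun z => ?_
    by_cases hz : z ∈ U
    · rw [indicator_of_mem hz, hG, piecewise_eq_of_mem _ _ _ hz]
    · rw [indicator_of_notMem hz, hG, piecewise_eq_of_notMem _ _ _ hz]
  rw [h1, ← Complex.lintegral_comp_polarCoord_symm G, polarCoord_target,
    Measure.volume_eq_prod, ← Measure.prod_restrict]
  have hsm : Measurable fun p : ℝ × ℝ => Complex.polarCoord.symm p := by
    have : (fun p : ℝ × ℝ => Complex.polarCoord.symm p) =
        fun p : ℝ × ℝ => (p.1 : ℂ) * ((Real.cos p.2 : ℂ) + (Real.sin p.2 : ℂ) * Complex.I) := by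
      ext p
      exact Complex.polarCoord_symm_apply p
    rw [this]
    fun_prop
  have hm : Measurable fun p : ℝ × ℝ => ENNReal.ofReal p.1 • G (Complex.polarCoord.symm p) := by
    simp only [smul_eq_mul]
    exact (ENNReal.measurable_ofReal.comp measurable_fst).mul (hGm.comp hsm)
  rw [lintegral_prod _ hm.aemeasurable]
  have h2 : ∀ r : ℝ, 0 < r → ∀ θ : ℝ, Complex.polarCoord.symm (r, θ) =
      (r : ℂ) * Complex.exp ((θ : ℂ) * Complex.I) := by
    intro r _ θ
    rw [Complex.polarCoord_symm_apply, Complex.exp_mul_I]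
    simp
  have h3 : ∀ r : ℝ, 0 < r → ∀ θ : ℝ, ‖(r : ℂ) * Complex.exp ((θ : ℂ) * Complex.I)‖ = r := by
    intro r hr θ
    rw [norm_mul, Complex.norm_exp_ofReal_mul_I, mul_one, Complex.norm_real, Real.norm_eq_abs,
      abs_of_pos hr]
  calc ∫⁻ r in Ioi (0 : ℝ), ∫⁻ θ in Ioo (-Real.pi) Real.pi,
        ENNReal.ofReal r • G (Complex.polarCoord.symm (r, θ))
      ≤ ∫⁻ r in Ioi (0 : ℝ), I.indicator (fun r => ENNReal.ofReal r * B r) r := by
        refine setLIntegral_mono' measurableSet_Ioi fun r hr => ?_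
        by_cases hrI : r ∈ I
        · rw [indicator_of_mem hrI]
          simp only [smul_eq_mul]
          rw [lintegral_const_mul' _ _ ENNReal.ofReal_ne_top]
          refine mul_le_mul_right (le_trans (le_of_eq ?_) (h r hr hrI)) _
          refine lintegral_congr fun θ => ?_
          rw [h2 r hr θ, hG, piecewise_eq_of_mem]
          change ‖_‖ ∈ I
          rw [h3 r hr θ]
          exact hrI
        · rw [indicator_of_notMem hrI]
          refine le_of_eq ?_
          rw [lintegral_eq_zero_of_ae_eq_zero]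
          refine Eventually.of_forall fun θ => ?_
          change ENNReal.ofReal r • G (Complex.polarCoord.symm (r, θ)) = 0
          rw [h2 r hr θ, hG, piecewise_eq_of_notMem]
          · simp
          · change ¬ ‖_‖ ∈ I
            rw [h3 r hr θ]
            exact hrI
    _ = ∫⁻ r in I ∩ Ioi 0, ENNReal.ofReal r * B r := by
        rw [setLIntegral_indicator hI]

/-- the circle integral, as a lower integral over `(-π, π)` -/
theorem circle_lint (F : ℂ → ℝ) (r : ℝ) (hr : 0 < r)
    (hc : Continuous fun θ : ℝ => F ((r : ℂ) * Complex.exp ((θ : ℂ) * Complex.I)))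
    (h0 : ∀ θ : ℝ, 0 ≤ F ((r : ℂ) * Complex.exp ((θ : ℂ) * Complex.I))) :
    ∫⁻ θ in Ioo (-Real.pi) Real.pi,
      ENNReal.ofReal (F ((r : ℂ) * Complex.exp ((θ : ℂ) * Complex.I))) =
    ENNReal.ofReal (∫ θ in (0 : ℝ)..(2 * Real.pi),
      F ((r : ℂ) * Complex.exp ((θ : ℂ) * Complex.I))) := by
  have hper : Function.Periodic
      (fun θ : ℝ => F ((r : ℂ) * Complex.exp ((θ : ℂ) * Complex.I))) (2 * Real.pi) := by
    intro θ
    have : Complex.exp (((θ + 2 * Real.pi : ℝ) : ℂ) * Complex.I) =
        Complex.exp ((θ : ℂ) * Complex.I) := by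
      push_cast
      rw [add_mul, Complex.exp_add, Complex.exp_two_pi_mul_I, mul_one]
    change F _ = F _
    rw [this]
  have h1 := hper.intervalIntegral_add_eq 0 (-Real.pi)
  have h2 : -Real.pi + 2 * Real.pi = Real.pi := by ring
  rw [zero_add, h2] at h1
  rw [h1, intervalIntegral.integral_of_le (by linarith [Real.pi_pos]),
    integral_Ioc_eq_integral_Ioo, ofReal_integral_eq_lintegral_ofReal]
  · exact (hc.integrableOn_Icc (a := -Real.pi) (b := Real.pi)).mono_set Ioo_subset_Icc_self
  · exact Eventually.of_forall fun θ => h0 θ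

theorem pol : S_POL := by
  intro F A κ hF h0 hκ hκ1 h
  have hA : 0 ≤ A := by
    have h1 := h (3 / 2) ⟨by norm_num, by norm_num⟩
    have h2 : 0 ≤ ∫ θ in (0 : ℝ)..(2 * Real.pi),
        F (((3 / 2 : ℝ) : ℂ) * Complex.exp ((θ : ℂ) * Complex.I)) := by
      refine intervalIntegral.integral_nonneg (by positivity) fun θ _ => h0 _ ?_
      rw [norm_mul, Complex.norm_exp_ofReal_mul_I, mul_one, Complex.norm_real]
      norm_num
    have h3 : 0 < (3 / 2 - 1 : ℝ) ^ (-κ) := by positivity
    by_contra hA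
    push Not at hA
    nlinarith [mul_neg_of_neg_of_pos hA h3]
  have hmem : ∀ r : ℝ, 1 < r → ∀ θ : ℝ,
      1 < ‖(r : ℂ) * Complex.exp ((θ : ℂ) * Complex.I)‖ := by
    intro r hr θ
    rw [norm_mul, Complex.norm_exp_ofReal_mul_I, mul_one, Complex.norm_real, Real.norm_eq_abs,
      abs_of_pos (by linarith)]
    exact hr
  have h1 := polar_le F (Ioo 1 2) measurableSet_Ioo (hF.mono fun z hz => hz.1)
    (fun r => ENNReal.ofReal (A * (r - 1) ^ (-κ))) (by
      intro r hr0 hr
      rw [circle_lint F r hr0 ?_ fun θ => h0 _ (hmem r hr.1 θ)]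
      · exact ENNReal.ofReal_le_ofReal (h r hr)
      · exact hF.comp_continuous (by fun_prop) (hmem r hr.1))
  refine le_trans h1 ?_
  have hI : Ioo (1 : ℝ) 2 ∩ Ioi 0 = Ioo 1 2 := by
    ext x
    simp only [mem_inter_iff, mem_Ioo, mem_Ioi]
    constructor
    · exact fun h => h.1
    · exact fun h => ⟨h, by linarith [h.1]⟩
  rw [hI]
  have hint : IntervalIntegrable (fun r : ℝ => 2 * A * (r - 1) ^ (-κ)) volume 1 2 := by
    have h4 : IntervalIntegrable (fun r : ℝ => r ^ (-κ)) volume 0 1 :=
      intervalIntegral.intervalIntegrable_rpow' (by linarith)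
    have h5 := (h4.comp_sub_right 1).const_mul (2 * A)
    norm_num at h5
    exact h5
  calc ∫⁻ r in Ioo (1 : ℝ) 2, ENNReal.ofReal r * ENNReal.ofReal (A * (r - 1) ^ (-κ))
      ≤ ∫⁻ r in Ioo (1 : ℝ) 2, ENNReal.ofReal (2 * A * (r - 1) ^ (-κ)) := by
        refine setLIntegral_mono' measurableSet_Ioo fun r hr => ?_
        rw [← ENNReal.ofReal_mul (by linarith [hr.1])]
        refine ENNReal.ofReal_le_ofReal ?_
        have h6 : 0 ≤ (r - 1) ^ (-κ) := Real.rpow_nonneg (by linarith [hr.1]) _
        have h7 : 0 ≤ A * (r - 1) ^ (-κ) := mul_nonneg hA h6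
        nlinarith [hr.2]
    _ = ENNReal.ofReal (∫ r in Ioo (1 : ℝ) 2, 2 * A * (r - 1) ^ (-κ)) := by
        rw [ofReal_integral_eq_lintegral_ofReal]
        · exact (intervalIntegrable_iff_integrableOn_Ioo_of_le (by norm_num)).1 hint
        · refine (ae_restrict_iff' measurableSet_Ioo).2 (Eventually.of_forall fun r hr => ?_)
          have h6 : 0 ≤ (r - 1) ^ (-κ) := Real.rpow_nonneg (by linarith [hr.1]) _
          positivity
    _ = ENNReal.ofReal (2 * A / (1 - κ)) := by
        congr 1
        rw [← integral_Ioc_eq_integral_Ioo, ← intervalIntegral.integral_of_le (by norm_num),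
          intervalIntegral.integral_const_mul,
          intervalIntegral.integral_comp_sub_right (fun x => x ^ (-κ)) 1]
        norm_num
        rw [integral_rpow (Or.inl (by linarith)), Real.one_rpow, Real.zero_rpow (by linarith)]
        rw [show -κ + 1 = 1 - κ by ring]
        ring
    _ ≤ _ := le_rfl

end Pool.Agent.H64.BR
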