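import Pool.Agent.H64.BR.POL

set_option autoImplicit false

namespace Pool.Agent.H64.BR

open Metric Set Filter Topology MeasureTheory

theorem pold : S_POLD := by
  intro F A κ hF h0 hκ hκ1 h
  have hcm : ∀ r θ : ℝ, circleMap 0 r θ = (r : ℂ) * Complex.exp ((θ : ℂ) * Complex.I) := by
    intro r θ
    rw [circleMap, zero_add]
  simp only [hcm] at h
  have hA : 0 ≤ A := by
    have h1 := h (1 / 2) ⟨by norm_num, by norm_num⟩
    have h2 : 0 ≤ ∫ θ in (0 : ℝ)..(2 * Real.pi),
        F (((1 / 2 : ℝ) : ℂ) * Complex.exp ((θ : ℂ) * Complex.I)) := by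
      refine intervalIntegral.integral_nonneg (by positivity) fun θ _ => h0 _ ?_
      rw [mem_ball_zero_iff, norm_mul, Complex.norm_exp_ofReal_mul_I, mul_one, Complex.norm_real]
      norm_num
    have h3 : 0 < (1 - 1 / 2 : ℝ) ^ (-κ) := by
      apply Real.rpow_pos_of_pos
      norm_num
    by_contra hA
    push Not at hA
    nlinarith [mul_neg_of_neg_of_pos hA h3]
  have hmem : ∀ r : ℝ, 0 < r → r < 1 → ∀ θ : ℝ,
      (r : ℂ) * Complex.exp ((θ : ℂ) * Complex.I) ∈ ball (0 : ℂ) 1 := by
    intro r hr hr1 θ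
    rw [mem_ball_zero_iff, norm_mul, Complex.norm_exp_ofReal_mul_I, mul_one, Complex.norm_real,
      Real.norm_eq_abs, abs_of_pos hr]
    exact hr1
  have hb : {z : ℂ | ‖z‖ ∈ Iio (1 : ℝ)} = ball (0 : ℂ) 1 := by
    ext z
    rw [mem_ball_zero_iff]
    rfl
  have h1 := polar_le F (Iio 1) measurableSet_Iio (by rw [hb]; exact hF)
    (fun r => ENNReal.ofReal (A * (1 - r) ^ (-κ))) (by
      intro r hr0 hr
      rw [circle_lint F r hr0 ?_ fun θ => h0 _ (hmem r hr0 hr θ)]
      · exact ENNReal.ofReal_le_ofReal (h r ⟨hr0, hr⟩)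
      · exact hF.comp_continuous (by fun_prop) (hmem r hr0 hr))
  rw [hb] at h1
  refine le_trans h1 ?_
  have hI : Iio (1 : ℝ) ∩ Ioi 0 = Ioo 0 1 := by
    ext x
    simp only [mem_inter_iff, mem_Ioo, mem_Ioi, mem_Iio]
    exact and_comm
  rw [hI]
  have hint : IntervalIntegrable (fun r : ℝ => A * (1 - r) ^ (-κ)) volume 0 1 := by
    have h4 : IntervalIntegrable (fun r : ℝ => r ^ (-κ)) volume 0 1 :=
      intervalIntegral.intervalIntegrable_rpow' (by linarith)
    have h5 := (h4.comp_sub_left 1).const_mul A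
    norm_num at h5
    exact h5.symm
  calc ∫⁻ r in Ioo (0 : ℝ) 1, ENNReal.ofReal r * ENNReal.ofReal (A * (1 - r) ^ (-κ))
      ≤ ∫⁻ r in Ioo (0 : ℝ) 1, ENNReal.ofReal (A * (1 - r) ^ (-κ)) := by
        refine setLIntegral_mono' measurableSet_Ioo fun r hr => ?_
        rw [← ENNReal.ofReal_mul hr.1.le]
        refine ENNReal.ofReal_le_ofReal ?_
        have h6 : 0 ≤ (1 - r) ^ (-κ) := Real.rpow_nonneg (by linarith [hr.2]) _
        have h7 : 0 ≤ A * (1 - r) ^ (-κ) := mul_nonneg hA h6
        nlinarith [hr.1, hr.2]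
    _ = ENNReal.ofReal (∫ r in Ioo (0 : ℝ) 1, A * (1 - r) ^ (-κ)) := by
        rw [ofReal_integral_eq_lintegral_ofReal]
        · exact (intervalIntegrable_iff_integrableOn_Ioo_of_le (by norm_num)).1 hint
        · refine (ae_restrict_iff' measurableSet_Ioo).2 (Eventually.of_forall fun r hr => ?_)
          have h6 : 0 ≤ (1 - r) ^ (-κ) := Real.rpow_nonneg (by linarith [hr.2]) _
          positivity
    _ = ENNReal.ofReal (A / (1 - κ)) := by
        congr 1
        rw [← integral_Ioc_eq_integral_Ioo, ← intervalIntegral.integral_of_le (by norm_num),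
          intervalIntegral.integral_const_mul,
          intervalIntegral.integral_comp_sub_left (fun x => x ^ (-κ)) 1]
        norm_num
        rw [integral_rpow (Or.inl (by linarith)), Real.one_rpow, Real.zero_rpow (by linarith)]
        rw [show -κ + 1 = 1 - κ by ring]
        ring
    _ ≤ _ := le_rfl

end Pool.Agent.H64.BR
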