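import Pool.Agent.H64.BR.Stm

set_option autoImplicit false

/-! # BR-RIEM -/

namespace Pool.Agent.H64.BR

open Metric Set Filter Topology MeasureTheory

theorem riem : S_RIEM := by
  intro f hf
  rw [Metric.tendsto_atTop]
  intro ε hε
  have hu := isCompact_Icc.uniformContinuousOn_of_continuous hf
  rw [Metric.uniformContinuousOn_iff] at hu
  obtain ⟨δ, hδ, hδ'⟩ := hu (ε / 2) (by positivity)
  obtain ⟨N, hN⟩ := exists_nat_one_div_lt hδ
  refine ⟨N + 1, fun M hM => ?_⟩
  have hMpos : (0 : ℝ) < M := by
    have : 0 < M := by omega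
    exact_mod_cast this
  have hM1 : 1 / (M : ℝ) < δ := by
    refine lt_of_le_of_lt ?_ hN
    apply one_div_le_one_div_of_le (by positivity)
    exact_mod_cast hM
  have hint : ∀ n < M, IntervalIntegrable f volume ((n : ℝ) / M) (((n + 1 : ℕ) : ℝ) / M) := by
    intro n hn
    apply ContinuousOn.intervalIntegrable
    apply hf.mono
    rw [uIcc_of_le (by gcongr; exact Nat.le_succ n)]
    apply Icc_subset_Icc
    · positivity
    · rw [div_le_one hMpos]
      exact_mod_cast hn
  have h1 : ∑ n ∈ Finset.range M, ∫ v in ((n : ℝ) / M)..(((n + 1 : ℕ) : ℝ) / M), f v =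
      ∫ v in (0 : ℝ)..1, f v := by
    have := intervalIntegral.sum_integral_adjacent_intervals (f := f) (μ := volume)
      (a := fun n : ℕ => (n : ℝ) / M) (n := M) hint
    rw [this]
    congr 1
    · simp
    · exact div_self hMpos.ne'
  have h2 : 1 / (M : ℝ) * ∑ n ∈ Finset.range M, f ((n : ℝ) / M) =
      ∑ n ∈ Finset.range M, ∫ _v in ((n : ℝ) / M)..(((n + 1 : ℕ) : ℝ) / M), f ((n : ℝ) / M) := by
    rw [Finset.mul_sum]
    apply Finset.sum_congr rfl
    intro n _
    rw [intervalIntegral.integral_const, smul_eq_mul]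
    push_cast
    ring
  rw [dist_eq_norm, h2, ← h1, ← Finset.sum_sub_distrib]
  calc ‖∑ n ∈ Finset.range M, ((∫ _v in ((n : ℝ) / M)..(((n + 1 : ℕ) : ℝ) / M), f ((n : ℝ) / M)) -
        ∫ v in ((n : ℝ) / M)..(((n + 1 : ℕ) : ℝ) / M), f v)‖
      ≤ ∑ n ∈ Finset.range M, ε / 2 / M := by
        refine norm_sum_le_of_le _ fun n hn => ?_
        rw [Finset.mem_range] at hn
        rw [← intervalIntegral.integral_sub intervalIntegrable_const (hint n hn)]
        have h3 := intervalIntegral.norm_integral_le_of_norm_le_const (a := (n : ℝ) / M)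
          (b := ((n + 1 : ℕ) : ℝ) / M) (C := ε / 2) (f := fun v => f ((n : ℝ) / M) - f v) ?_
        · refine h3.trans (le_of_eq ?_)
          have : |((n + 1 : ℕ) : ℝ) / M - (n : ℝ) / M| = 1 / M := by
            rw [← sub_div, abs_of_nonneg (by apply div_nonneg _ hMpos.le; push_cast; linarith)]
            push_cast
            ring
          rw [this]
          ring
        · intro v hv
          rw [uIoc_of_le (by gcongr; exact Nat.le_succ n)] at hv
          have hn1 : (((n + 1 : ℕ) : ℝ)) / M ≤ 1 := by
            rw [div_le_one hMpos]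
            exact_mod_cast hn
          have hn0 : 0 ≤ (n : ℝ) / M := by positivity
          have hv2 : v ≤ (n : ℝ) / M + 1 / M := by
            refine hv.2.trans (le_of_eq ?_)
            push_cast
            ring
          have := hδ' ((n : ℝ) / M) ⟨hn0, (hv.1.le.trans hv.2).trans hn1⟩ v
            ⟨hn0.trans hv.1.le, hv.2.trans hn1⟩ (by
              rw [Real.dist_eq, abs_lt]
              constructor <;> linarith [hv.1])
          rw [dist_eq_norm] at this
          exact this.le
    _ = ε / 2 := by
        rw [Finset.sum_const, Finset.card_range, nsmul_eq_mul]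
        field_simp
    _ < ε := by linarith

end Pool.Agent.H64.BR
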