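import Pool.Agent.H64.BR.Stm

set_option autoImplicit false

namespace Pool.Agent.H64.BR

open Set

theorem scale : S_SCALE := by
  intro σ m hσ
  have hM : (0 : ℝ) < (m : ℝ) + 1 := by positivity
  set M : ℝ := (m : ℝ) + 1 with hMd
  have h0 : ∑ n ∈ Finset.range (m + 1), phi σ ((n : ℝ) / M) =
      ∑ n ∈ Finset.Icc 1 m, phi σ ((n : ℝ) / M) := by
    have hsub : Finset.Icc 1 m ⊆ Finset.range (m + 1) := by
      intro x hx
      rw [Finset.mem_Icc] at hx
      rw [Finset.mem_range]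
      omega
    refine (Finset.sum_subset hsub ?_).symm
    intro x hx hx'
    rw [Finset.mem_range] at hx
    rw [Finset.mem_Icc] at hx'
    have : x = 0 := by omega
    subst this
    simp [phi]
  rw [h0, eq_div_iff (Real.rpow_pos_of_pos hM _).ne', Finset.mul_sum, Finset.sum_mul]
  refine Finset.sum_congr rfl fun n hn => ?_
  rw [Finset.mem_Icc] at hn
  have hn1 : (1 : ℝ) ≤ (n : ℝ) := by exact_mod_cast hn.1
  have hn2 : (n : ℝ) ≤ (m : ℝ) := by exact_mod_cast hn.2
  have hn0 : (0 : ℝ) < n := by linarith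
  have hc0 : (0 : ℝ) < M - n := by rw [hMd]; linarith
  have e1 : (1 : ℝ) - n / M = (M - n) / M := by field_simp
  unfold phi
  rw [e1, Real.div_rpow hn0.le hM.le, Real.div_rpow hc0.le hM.le]
  have e2 : M ^ (σ + 3) = M ^ σ * M ^ 3 := by
    rw [Real.rpow_add hM]
    norm_num
  have hP : 0 < M ^ σ := Real.rpow_pos_of_pos hM _
  have hA : 0 < (n : ℝ) ^ (σ + 3) := Real.rpow_pos_of_pos hn0 _
  have hB : 0 < (M - n) ^ (σ + 3) := Real.rpow_pos_of_pos hc0 _
  rw [e2]
  set A := (n : ℝ) ^ (σ + 3)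
  set B := (M - n) ^ (σ + 3)
  set P := M ^ σ
  have : A + B ≠ 0 := by positivity
  field_simp

end Pool.Agent.H64.BR
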