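import Pool.Agent.H64.BR.Stm

set_option autoImplicit false

namespace Pool.Agent.H64.BR

theorem sym : S_SYM := by
  intro ν hν n m h1 h2
  have h3 : TT ν (m + 1 - n) m = ∑ b ∈ Finset.Ico 0 n, ν (m - b) b := by
    have h := Finset.sum_Ico_reflect (fun j => ν (m - j) j) 0 (m := n) (n := m) (by omega)
    rw [Nat.sub_zero] at h
    rw [TT, ← h]
    refine Finset.sum_congr rfl fun j hj => ?_
    rw [Finset.mem_Ico] at hj
    have e : m - (m - j) = j := by omega
    rw [e, hν]
  rw [h3, TT, TT, add_comm]
  exact Finset.sum_Ico_consecutive _ (Nat.zero_le _) (by omega)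

end Pool.Agent.H64.BR
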