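import Pool.Agent.H64.BR.StmA

set_option autoImplicit false

/-! # Transfer to the class of maps of the exterior of the unit disc -/

namespace Pool.Agent.H64.BR

open Metric Set Filter Topology MeasureTheory
open Pool.Agent.W677.Mar Pool.Agent.W5h41.MA Pool.Agent.R250.MC

theorem pt_eq (r θ : ℝ) : pt r θ = circleMap 0 r θ := by
  unfold pt circleMap
  rw [zero_add]

theorem one_sub_inv_rpow {R σ : ℝ} (hR : 1 < R) (hσ : 0 < σ) :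
    1 ≤ (1 - R⁻¹) ^ σ * (2 ^ σ * (R ^ 2 / (R ^ 2 - 1)) ^ σ) := by
  have hR0 : 0 < R := by linarith
  have h1 : R⁻¹ < 1 := inv_lt_one_of_one_lt₀ hR
  have h2 : 0 < 1 - R⁻¹ := by linarith
  have hR2 : 0 < R ^ 2 - 1 := by nlinarith
  rw [← Real.mul_rpow (by norm_num) (by positivity), ← Real.mul_rpow h2.le (by positivity)]
  apply Real.one_le_rpow _ hσ.le
  have e : (1 - R⁻¹) * (2 * (R ^ 2 / (R ^ 2 - 1))) = 2 * R / (R + 1) := by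
    have : R + 1 ≠ 0 := by positivity
    have h3 : R ^ 2 - 1 ≠ 0 := hR2.ne'
    field_simp
    ring
  rw [e, le_div_iff₀ (by positivity)]
  linarith

/-- The moment of an exterior map. -/
theorem sig_moment {σ C : ℝ} (hσ : 0 < σ) (hC0 : 0 ≤ C) {Φ : ℂ → ℝ} (hΦ : ∀ w, 0 ≤ Φ w)
    (hC : ∀ Y H : ℂ → ℂ, Sg Y H → ∀ r ∈ Ioo (0 : ℝ) 1,
      (∫ t in (0 : ℝ)..(2 * Real.pi), Φ (H (circleMap 0 r t))) * (1 - r) ^ σ ≤ C)
    {ψ h : ℂ → ℂ} (S : IsSig ψ h) {R : ℝ} (hR : 1 < R) :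
    ∫ θ in (0 : ℝ)..(2 * Real.pi), Φ (h ((R : ℂ) * Complex.exp ((θ : ℂ) * Complex.I))) ≤
      C * 2 ^ σ * (R ^ 2 / (R ^ 2 - 1)) ^ σ := by
  have hr : R⁻¹ ∈ Ioo (0 : ℝ) 1 := ⟨by positivity, inv_lt_one_of_one_lt₀ hR⟩
  have h1 := hC _ (hat h 0) S.sg R⁻¹ hr
  rw [circ_int h hR Φ]
  simp only [pt_eq]
  set I := ∫ t in (0 : ℝ)..(2 * Real.pi), Φ (hat h 0 (circleMap 0 R⁻¹ t)) with hI
  have hI0 : 0 ≤ I := by
    rw [hI]
    exact intervalIntegral.integral_nonneg (by positivity) (fun t _ => hΦ _)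
  have h2 := one_sub_inv_rpow hR hσ
  have hR2 : 0 < R ^ 2 - 1 := by nlinarith
  have h3 : 0 ≤ 2 ^ σ * (R ^ 2 / (R ^ 2 - 1)) ^ σ := by positivity
  calc I = I * 1 := (mul_one I).symm
    _ ≤ I * ((1 - R⁻¹) ^ σ * (2 ^ σ * (R ^ 2 / (R ^ 2 - 1)) ^ σ)) :=
        mul_le_mul_of_nonneg_left h2 hI0
    _ = (I * (1 - R⁻¹) ^ σ) * (2 ^ σ * (R ^ 2 / (R ^ 2 - 1)) ^ σ) := by ring
    _ ≤ C * (2 ^ σ * (R ^ 2 / (R ^ 2 - 1)) ^ σ) := mul_le_mul_of_nonneg_right h1 h3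
    _ = C * 2 ^ σ * (R ^ 2 / (R ^ 2 - 1)) ^ σ := by ring

end Pool.Agent.H64.BR
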