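import Mathlib

set_option autoImplicit false

/-! # Statements: the second negative moment in the class of univalent maps -/

namespace Pool.Agent.H64.BR

open Metric Set Filter Topology MeasureTheory

/-- the profile -/
noncomputable def phi (σ v : ℝ) : ℝ := v * (1 - v) / (v ^ (σ + 3) + (1 - v) ^ (σ + 3))

/-- partial antidiagonal sums -/
noncomputable def TT (ν : ℕ → ℕ → ℂ) (n m : ℕ) : ℂ := ∑ b ∈ Finset.Ico n (m + 1), ν (m - b) b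

/-- The hypothesis on a double sequence: the quadratic inequality, for all `x` in `(0, 1)`. -/
def Ineq (T : ℕ → ℕ → ℂ) : Prop :=
  ∀ x ∈ Ioo (0 : ℝ) 1, Summable (fun m : ℕ => x ^ m * ‖T 0 m‖ ^ 2) ∧
    ∀ N P : ℕ, ∑ n ∈ Finset.range N, (n : ℝ) * ∑ p ∈ Finset.range P, x ^ p * ‖T n (n + p)‖ ^ 2 ≤
      x / (1 - x) ^ 2 * ∑' m : ℕ, x ^ m * ‖T 0 m‖ ^ 2

/-- BR-DPS: the double power series of a symmetric holomorphic function on the bidisc -/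
def S_DPS : Prop :=
  ∀ K : ℂ × ℂ → ℂ, DifferentiableOn ℂ K (ball (0 : ℂ) 1 ×ˢ ball (0 : ℂ) 1) →
    (∀ ζ ∈ ball (0 : ℂ) 1, ∀ z ∈ ball (0 : ℂ) 1, K (ζ, z) = K (z, ζ)) →
    ∃ ν : ℕ → ℕ → ℂ, (∀ a b, ν a b = ν b a) ∧
      ∀ ζ ∈ ball (0 : ℂ) 1, ∀ z ∈ ball (0 : ℂ) 1,
        HasSum (fun p : ℕ × ℕ => ν p.1 p.2 * ζ ^ p.1 * z ^ p.2) (K (ζ, z))

/-- BR-FS: the series with the partial antidiagonal sums -/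
def S_FS : Prop :=
  ∀ (ν : ℕ → ℕ → ℂ) (K : ℂ × ℂ → ℂ),
    (∀ ζ ∈ ball (0 : ℂ) 1, ∀ z ∈ ball (0 : ℂ) 1,
      HasSum (fun p : ℕ × ℕ => ν p.1 p.2 * ζ ^ p.1 * z ^ p.2) (K (ζ, z))) →
    ∀ ζ ∈ ball (0 : ℂ) 1, ∃ C c : ℕ → ℂ,
      (∀ n, HasSum (fun j : ℕ => TT ν n (n + j) * ζ ^ j) (C n)) ∧
      (∀ z ∈ ball (0 : ℂ) 1, HasSum (fun n : ℕ => c n * z ^ n) (K (ζ, z))) ∧
      C 0 = K (ζ, ζ) ∧ ∀ n, ζ * C (n + 1) = C n - c n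

/-- BR-SYM: the symmetry relation -/
def S_SYM : Prop :=
  ∀ ν : ℕ → ℕ → ℂ, (∀ a b, ν a b = ν b a) → ∀ n m : ℕ, 1 ≤ n → n ≤ m →
    TT ν n m + TT ν (m + 1 - n) m = TT ν 0 m

/-- BR-SER: the regular part of `F z / (1 - ζ / z)` -/
def S_SER : Prop :=
  ∀ (F : ℂ → ℂ) (C c : ℕ → ℂ) (ζ : ℂ), DifferentiableOn ℂ F (ball 0 1) → ζ ∈ ball (0 : ℂ) 1 →
    ζ ≠ 0 → (∀ z ∈ ball (0 : ℂ) 1, HasSum (fun n : ℕ => c n * z ^ n) (F z)) → C 0 = F ζ →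
    (∀ n, ζ * C (n + 1) = C n - c n) →
    ∀ z ∈ ball (0 : ℂ) 1, HasSum (fun n : ℕ => C n * z ^ n) (F ζ + z * dslope F ζ z)

/-- BR-LAP: from an inequality for exponential sums to an inequality for powers -/
def S_LAP : Prop :=
  ∀ (ι κ : Type) (s : Finset ι) (t : Finset κ) (a b : ι → ℝ) (c d : κ → ℝ) (σ : ℝ), 0 < σ →
    (∀ i ∈ s, 0 < b i) → (∀ j ∈ t, 0 < d j) →
    (∀ y : ℝ, 0 < y → ∑ i ∈ s, a i * Real.exp (-(b i * y)) ≤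
      (∑ j ∈ t, c j * Real.exp (-(d j * y))) / y ^ 2) →
    σ * (σ + 1) * ∑ i ∈ s, a i / (b i) ^ (σ + 2) ≤ ∑ j ∈ t, c j / (d j) ^ σ

/-- BR-GAM: the inequality for the coefficients -/
def S_GAM : Prop :=
  ∀ (σ : ℝ) (T : ℕ → ℕ → ℂ), 0 < σ → Ineq T → ∀ ρ ∈ Ioo (0 : ℝ) 1, ∀ M : ℕ,
    σ * (σ + 1) * ∑ m ∈ Finset.range M, ρ ^ m * ∑ n ∈ Finset.Icc 1 m,
        (n : ℝ) / ((m : ℝ) + 1 - n) ^ (σ + 2) * ‖T n m‖ ^ 2 ≤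
      ∑ m ∈ Finset.range M, ρ ^ m * (‖T 0 m‖ ^ 2 / ((m : ℝ) + 1) ^ σ) +
        ∑' m : ℕ, ρ ^ (m + M) * ‖T 0 (m + M)‖ ^ 2

/-- BR-PAIR: the pairing -/
def S_PAIR : Prop :=
  ∀ (σ : ℝ) (m : ℕ) (t : ℕ → ℂ) (G : ℂ), 0 < σ →
    (∀ n, 1 ≤ n → n ≤ m → t n + t (m + 1 - n) = G) →
    1 / 2 * (∑ n ∈ Finset.Icc 1 m, (n : ℝ) * ((m : ℝ) + 1 - n) /
      ((n : ℝ) ^ (σ + 3) + ((m : ℝ) + 1 - n) ^ (σ + 3))) * ‖G‖ ^ 2 ≤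
    ∑ n ∈ Finset.Icc 1 m, (n : ℝ) / ((m : ℝ) + 1 - n) ^ (σ + 2) * ‖t n‖ ^ 2

/-- BR-SCALE: the Riemann sum -/
def S_SCALE : Prop :=
  ∀ (σ : ℝ) (m : ℕ), 0 < σ →
    ∑ n ∈ Finset.Icc 1 m, (n : ℝ) * ((m : ℝ) + 1 - n) /
      ((n : ℝ) ^ (σ + 3) + ((m : ℝ) + 1 - n) ^ (σ + 3)) =
    (1 / ((m : ℝ) + 1) * ∑ n ∈ Finset.range (m + 1), phi σ ((n : ℝ) / ((m : ℝ) + 1))) /
      ((m : ℝ) + 1) ^ σ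

/-- BR-RIEM: convergence of Riemann sums -/
def S_RIEM : Prop :=
  ∀ f : ℝ → ℝ, ContinuousOn f (Icc 0 1) →
    Tendsto (fun M : ℕ => 1 / (M : ℝ) * ∑ n ∈ Finset.range M, f ((n : ℝ) / (M : ℝ))) atTop
      (𝓝 (∫ v in (0 : ℝ)..1, f v))

/-- BR-PHI: the profile is continuous -/
def S_PHI : Prop := ∀ σ : ℝ, 0 < σ → ContinuousOn (phi σ) (Icc 0 1)

/-- BR-CV: the change of variables -/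
def S_CV : Prop :=
  ∀ σ : ℝ, 0 < σ → ∫ v in (0 : ℝ)..1, phi σ v =
    2 * ∫ y in (0 : ℝ)..1, y * (1 + y) ^ (σ - 1) / (1 + y ^ (σ + 3))

/-- BR-NUM: the numerical inequality; the left side is `1.00109...` -/
def S_NUM : Prop :=
  1 < (9 / 8 : ℝ) * (17 / 8) * ∫ y in (0 : ℝ)..1,
    y * (1 + y) ^ ((9 / 8 : ℝ) - 1) / (1 + y ^ ((9 / 8 : ℝ) + 3))

/-- BR-CORE: the uniform bound -/
def S_CORE : Prop :=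
  ∀ (σ : ℝ) (B : ℕ → ℝ), 0 < σ → 1 < σ * (σ + 1) / 2 * ∫ v in (0 : ℝ)..1, phi σ v →
    ∃ K : ℝ, 0 ≤ K ∧ ∀ T : ℕ → ℕ → ℂ,
      (∀ n m : ℕ, 1 ≤ n → n ≤ m → T n m + T (m + 1 - n) m = T 0 m) →
      (∀ m, ‖T 0 m‖ ^ 2 ≤ B m) → Ineq T →
      ∀ M : ℕ, ∑ m ∈ Finset.range M, ‖T 0 m‖ ^ 2 / ((m : ℝ) + 1) ^ σ ≤ K

/-- BR-AVG: the average over the circle -/
def S_AVG : Prop :=
  ∀ (T : ℕ → ℕ → ℂ) (C : ℕ → ℂ → ℂ),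
    (∀ n : ℕ, ∀ ζ ∈ ball (0 : ℂ) 1, HasSum (fun j : ℕ => T n (n + j) * ζ ^ j) (C n ζ)) →
    (∀ ζ ∈ ball (0 : ℂ) 1, ζ ≠ 0 → ∀ N : ℕ, ∑ n ∈ Finset.range N, (n : ℝ) * ‖C n ζ‖ ^ 2 ≤
      ‖C 0 ζ‖ ^ 2 * (‖ζ‖ ^ 2 / (1 - ‖ζ‖ ^ 2) ^ 2)) → Ineq T

/-- BR-MEAN: from the coefficients to the means -/
def S_MEAN : Prop :=
  ∀ (σ K : ℝ) (a : ℕ → ℂ) (g : ℂ → ℂ), 0 < σ → σ ≤ 2 →
    (∀ z ∈ ball (0 : ℂ) 1, HasSum (fun m : ℕ => a m * z ^ m) (g z)) →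
    (∀ M : ℕ, ∑ m ∈ Finset.range M, ‖a m‖ ^ 2 / ((m : ℝ) + 1) ^ σ ≤ K) →
    ∀ r ∈ Ioo (0 : ℝ) 1,
      (∫ t in (0 : ℝ)..(2 * Real.pi), ‖g (circleMap 0 r t)‖ ^ 2) * (1 - r) ^ σ ≤
        2 * Real.pi * (5 * K)

end Pool.Agent.H64.BR
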