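import Pool.Agent.H64.G.T9f66d723.W5h41.MA11
import Pool.Agent.H64.G.R_seed8.R250.MC4
import Pool.Agent.H64.BR.Stm

set_option autoImplicit false

/-! # Statements which use the class of univalent maps -/

namespace Pool.Agent.H64.BR

open Metric Set Filter Topology MeasureTheory
open Pool.Agent.W677.Mar Pool.Agent.W5h41.MA

/-- BR-AREA: the area inequality for `1 / (ψ(1/z) - ψ(1/ζ))` -/
def S_AREA : Prop :=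
  ∀ (Y H : ℂ → ℂ) (f : ℂ × ℂ → ℂ), Sg Y H → Lg Y f → ∀ ζ ∈ ball (0 : ℂ) 1, ζ ≠ 0 →
    ∀ C c : ℕ → ℂ,
    (∀ z ∈ ball (0 : ℂ) 1, HasSum (fun n : ℕ => c n * z ^ n) (Complex.exp (-f (ζ, z)))) →
    C 0 = Complex.exp (-f (ζ, ζ)) → (∀ n, ζ * C (n + 1) = C n - c n) →
    ∀ N : ℕ, ∑ n ∈ Finset.range N, (n : ℝ) * ‖C n‖ ^ 2 ≤
      ‖C 0‖ ^ 2 * (‖ζ‖ ^ 2 / (1 - ‖ζ‖ ^ 2) ^ 2)

/-- BR-BM: the coefficients are bounded -/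
def S_BM : Prop :=
  ∀ (Y H : ℂ → ℂ), Sg Y H → ∀ a : ℕ → ℂ,
    (∀ z ∈ ball (0 : ℂ) 1, HasSum (fun m : ℕ => a m * z ^ m) (Complex.exp (-H z))) →
    ∀ m : ℕ, ‖a m‖ ^ 2 ≤ (4 / 3 * 2 ^ m) ^ 2

/-- BR-ALL: the bound in the disc, for every exponent which satisfies the criterion -/
def S_ALL : Prop :=
  ∀ σ : ℝ, 0 < σ → σ ≤ 2 → 1 < σ * (σ + 1) / 2 * ∫ v in (0 : ℝ)..1, phi σ v →
    ∃ C : ℝ, 0 ≤ C ∧ ∀ Y H : ℂ → ℂ, Sg Y H → ∀ r ∈ Ioo (0 : ℝ) 1,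
      (∫ t in (0 : ℝ)..(2 * Real.pi), ‖Complex.exp (-H (circleMap 0 r t))‖ ^ 2) * (1 - r) ^ σ ≤ C

end Pool.Agent.H64.BR
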