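import Pool.Agent.H64.BR.All
import Pool.Agent.H64.BR.AREA
import Pool.Agent.H64.BR.AVG
import Pool.Agent.H64.BR.BM
import Pool.Agent.H64.BR.CORE
import Pool.Agent.H64.BR.CV
import Pool.Agent.H64.BR.DPS
import Pool.Agent.H64.BR.FS
import Pool.Agent.H64.BR.GAM
import Pool.Agent.H64.BR.LAP
import Pool.Agent.H64.BR.MEAN
import Pool.Agent.H64.BR.NUM
import Pool.Agent.H64.BR.PAIR
import Pool.Agent.H64.BR.PHI
import Pool.Agent.H64.BR.POL
import Pool.Agent.H64.BR.POLD
import Pool.Agent.H64.BR.RIEM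
import Pool.Agent.H64.BR.SCALE
import Pool.Agent.H64.BR.SYM
import Pool.Agent.H64.BR.Last

set_option autoImplicit false

/-! # The bound in the disc, all parts together -/

namespace Pool.Agent.H64.BR

theorem the_all : S_ALL :=
  all dps fs sym avg area bm (core (gam lap) pair scale riem phic) mean

theorem the_crit : 1 < (9 / 8 : ℝ) * (9 / 8 + 1) / 2 * ∫ v in (0 : ℝ)..1, phi (9 / 8) v := by
  have h1 := num
  have h2 := cv (9 / 8) (by norm_num)
  unfold S_NUM at h1
  rw [h2]
  refine lt_of_lt_of_eq h1 ?_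
  ring

end Pool.Agent.H64.BR
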