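import Pool.Agent.H64.BR.StmC
import Pool.Agent.H64.G.R_seed8.Helper240.ZFM.ConvA

set_option autoImplicit false

/-! # BX-UNI (helper13) -/

namespace Pool.Agent.H64.BR

open Metric Set Filter Topology
open Pool.Agent.W677.Mar

/-- a holomorphic logarithm on the unit disc -/
theorem uni_log {N : ℂ → ℂ} (hN : DifferentiableOn ℂ N (ball 0 1)) (h0 : N 0 = 1)
    (hne : ∀ z ∈ ball (0 : ℂ) 1, N z ≠ 0) :
    ∃ H : ℂ → ℂ, DifferentiableOn ℂ H (ball 0 1) ∧ H 0 = 0 ∧
      ∀ z ∈ ball (0 : ℂ) 1, Complex.exp (H z) = N z := by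
  have hq : DifferentiableOn ℂ (fun z => deriv N z / N z) (ball 0 1) :=
    (hN.deriv isOpen_ball).div hN hne
  obtain ⟨H, hH0, hH⟩ := hq.isExactOn_ball.with_val_at 0 0
  have hHd : DifferentiableOn ℂ H (ball 0 1) := fun z hz =>
    (hH z hz).differentiableAt.differentiableWithinAt
  refine ⟨H, hHd, hH0, fun z hz => ?_⟩
  have hP : ∀ w ∈ ball (0 : ℂ) 1, HasDerivAt (fun z => Complex.exp (-H z) * N z) 0 w := by
    intro w hw
    have h1 : HasDerivAt N (deriv N w) w :=
      ((hN w hw).differentiableAt (isOpen_ball.mem_nhds hw)).hasDerivAt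
    have h2 := ((hH w hw).neg.cexp).mul h1
    have h4 := hne w hw
    have h3 : Complex.exp (-H w) * -(deriv N w / N w) * N w + Complex.exp (-H w) * deriv N w = 0 := by
      have h5 : deriv N w / N w * N w = deriv N w := div_mul_cancel₀ _ h4
      linear_combination -Complex.exp (-H w) * h5
    have h6 : HasDerivAt (fun z => Complex.exp (-H z) * N z)
        (Complex.exp (-H w) * -(deriv N w / N w) * N w + Complex.exp (-H w) * deriv N w) w := h2
    rw [h3] at h6
    exact h6
  have hc : (fun z => Complex.exp (-H z) * N z) z = (fun z => Complex.exp (-H z) * N z) 0 := by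
    have hconv : Convex ℝ (ball (0 : ℂ) 1) := convex_ball 0 1
    refine hconv.is_const_of_fderivWithin_eq_zero (𝕜 := ℂ)
      (f := fun z => Complex.exp (-H z) * N z) ?_ ?_ hz (mem_ball_self one_pos)
    · intro w hw
      exact (hP w hw).differentiableAt.differentiableWithinAt
    · intro w hw
      rw [fderivWithin_of_isOpen isOpen_ball hw]
      ext
      rw [fderiv_apply_one_eq_deriv, (hP w hw).deriv]
      simp
  simp only [hH0, h0, neg_zero, Complex.exp_zero, mul_one] at hc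
  rw [Complex.exp_neg, inv_mul_eq_iff_eq_mul₀ (Complex.exp_ne_zero _), mul_one] at hc
  exact hc.symm

theorem uni : S_UNI := by
  intro f hf hi h0 h1
  have hfne : ∀ w ∈ ball (0 : ℂ) 1, deriv f w ≠ 0 := fun w hw =>
    Pool.Agent.Helper405.Conv.deriv_ne_zero_of_injOn isOpen_ball hf hi hw
  refine ⟨hfne, ?_⟩
  have hz0 : (0 : ℂ) ∈ ball (0 : ℂ) 1 := mem_ball_self one_pos
  set g : ℂ → ℂ := dslope f 0 with hg
  have hgd : DifferentiableOn ℂ g (ball 0 1) :=
    (Complex.differentiableOn_dslope (isOpen_ball.mem_nhds hz0)).2 hf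
  have hg0 : g 0 = 1 := by rw [hg, dslope_same, h1]
  have hgm : ∀ w, w * g w = f w := by
    intro w
    have := sub_smul_dslope f 0 w
    rw [h0, sub_zero, sub_zero, smul_eq_mul] at this
    exact this
  have hgne : ∀ w ∈ ball (0 : ℂ) 1, g w ≠ 0 := by
    intro w hw h
    by_cases hw0 : w = 0
    · rw [hw0, hg0] at h; exact one_ne_zero h
    · have h2 := hgm w
      rw [h, mul_zero] at h2
      exact hw0 (hi hw hz0 (by rw [h0, ← h2]))
  have hgD : ∀ w ∈ ball (0 : ℂ) 1, HasDerivAt g (deriv g w) w := fun w hw =>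
    ((hgd w hw).differentiableAt (isOpen_ball.mem_nhds hw)).hasDerivAt
  have hfD : ∀ w ∈ ball (0 : ℂ) 1, deriv f w = g w + w * deriv g w := by
    intro w hw
    have h2 : HasDerivAt (fun w => w * g w) (1 * g w + w * deriv g w) w :=
      (hasDerivAt_id w).mul (hgD w hw)
    have h3 : (fun w => w * g w) = f := funext hgm
    rw [h3] at h2
    rw [h2.deriv, one_mul]
  set Y : ℂ → ℂ := fun w => (g w)⁻¹ with hY
  have hYD : ∀ w ∈ ball (0 : ℂ) 1, HasDerivAt Y (-deriv g w / g w ^ 2) w := fun w hw =>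
    (hgD w hw).inv (hgne w hw)
  have hYd : DifferentiableOn ℂ Y (ball 0 1) := fun w hw =>
    (hYD w hw).differentiableAt.differentiableWithinAt
  have hN : ∀ w ∈ ball (0 : ℂ) 1, Y w - w * deriv Y w = deriv f w * Y w ^ 2 := by
    intro w hw
    rw [(hYD w hw).deriv, hfD w hw]
    have := hgne w hw
    simp only [hY]
    field_simp
    ring
  obtain ⟨H, hHd, hH0, hHe⟩ := uni_log (N := fun w => deriv f w * Y w ^ 2)
    ((hf.deriv isOpen_ball).mul (hYd.pow 2)) (by simp only [hY]; rw [h1, hg0]; simp)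
    (fun w hw => mul_ne_zero (hfne w hw) (pow_ne_zero 2 (inv_ne_zero (hgne w hw))))
  refine ⟨Y, H, ⟨⟨hYd, by simp only [hY]; rw [hg0, inv_one], ?_⟩, hHd, hH0, ?_⟩, ?_⟩
  · intro z hz w hw h
    have e : ∀ t : ℂ, Y t / t = (f t)⁻¹ := by
      intro t
      simp only [hY]
      rw [← hgm t, mul_inv, div_eq_mul_inv, mul_comm]
    simp only [e] at h
    exact hi hz.1 hw.1 (inv_injective h)
  · intro w hw
    rw [hHe w hw, hN w hw]
  · intro w hw
    have hgw := hgne w hw
    rw [Complex.exp_neg, hHe w hw, ← hgm w, norm_inv, norm_mul, norm_mul, norm_pow]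
    simp only [hY]
    rw [norm_inv]
    have h5 : ‖g w‖ ≠ 0 := norm_ne_zero_iff.2 hgw
    have h6 : ‖deriv f w‖ ≠ 0 := norm_ne_zero_iff.2 (hfne w hw)
    field_simp

end Pool.Agent.H64.BR
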